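import Pool.Agent.Zk56.LR.StepA

/-!
# Virtual retractions from crossed homomorphisms (bouncing at the boundary of the hull)
-/

set_option autoImplicit false

namespace Pool.Agent.Zk56.LR

section bounce

variable {M : Type}

open Classical in
/-- bounced map -/
noncomputable def bj (C : Set M) (j : M → M) (x : C) : C :=
  if h : j x ∈ C then ⟨j x, h⟩ else x

theorem bj_pos {C : Set M} {j : M → M} {x : C} (h : j x ∈ C) : bj C j x = ⟨j x, h⟩ := dif_pos h

theorem bj_neg {C : Set M} {j : M → M} {x : C} (h : j x ∉ C) : bj C j x = x := dif_neg h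

theorem bj_invol {C : Set M} {j : M → M} (hj : Function.Involutive j) :
    Function.Involutive (bj C j) := by
  intro x
  by_cases h : j x ∈ C
  · rw [bj_pos h]
    have h2 : j (⟨j x, h⟩ : C).1 ∈ C := by
      show j (j x) ∈ C
      rw [hj]; exact x.2
    rw [bj_pos h2]
    exact Subtype.ext (hj x)
  · rw [bj_neg h, bj_neg h]

theorem bj_comm {C : Set M} {j j' u : M → M} (hu : ∀ x, u x ∈ C ↔ x ∈ C)
    (h : ∀ x, j' (u x) = u (j x)) (x : C) :
    bj C j' ⟨u x, (hu x).2 x.2⟩ = ⟨u (bj C j x), (hu _).2 (bj C j x).2⟩ := by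
  by_cases hx : j x ∈ C
  · have h1 : j' (⟨u x, (hu x).2 x.2⟩ : C).1 ∈ C := by
      show j' (u x) ∈ C
      rw [h, hu]; exact hx
    rw [bj_pos h1]
    apply Subtype.ext
    show j' (u x) = u (bj C j x)
    rw [h, bj_pos hx]
  · have h1 : j' (⟨u x, (hu x).2 x.2⟩ : C).1 ∉ C := by
      show j' (u x) ∉ C
      rw [h, hu]; exact hx
    rw [bj_neg h1]
    apply Subtype.ext
    show u x = u (bj C j x)
    rw [bj_neg hx]

end bounce

section main

variable {G S : Type} [Group G] (F : Subgroup G) [F.Normal]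

/-- vertices and midpoints of the edges of the Cayley graph, with a coset -/
abbrev MH (S : Type) {G : Type} [Group G] (F : Subgroup G) : Type :=
  (FreeGroup S × Option S) × (G ⧸ F)

variable {F} (θ : G →* Equiv.Perm S) (c : G → FreeGroup S) (tb : (G ⧸ F) →* Equiv.Perm S)

/-- left action -/
def lft (g : G) (x : MH S F) : MH S F :=
  ((c g * FreeGroup.map (θ g) x.1.1, x.1.2.map (θ g)), (g : G ⧸ F) * x.2)

/-- right translation by a coset -/
def rt (p : G ⧸ F) (x : MH S F) : MH S F := (x.1, x.2 * p)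

open Classical in
/-- first half of an edge -/
noncomputable def jt (s : S) (x : MH S F) : MH S F :=
  match x with
  | ((w, none), q) => ((w, some (tb q s)), q)
  | ((w, some t), q) => if t = tb q s then ((w, none), q) else ((w, some t), q)

open Classical in
/-- second half of an edge -/
noncomputable def jf (s : S) (x : MH S F) : MH S F :=
  match x with
  | ((w, none), q) => ((w * (FreeGroup.of (tb q s))⁻¹, some (tb q s)), q)
  | ((w, some t), q) => if t = tb q s then ((w * FreeGroup.of t, none), q) else ((w, some t), q)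

theorem jt_invol (s : S) : Function.Involutive (jt (F := F) tb s) := by
  rintro ⟨⟨w, _ | t⟩, q⟩
  · simp [jt]
  · by_cases h : t = tb q s
    · simp [jt, h]
    · simp [jt, h]

theorem jf_invol (s : S) : Function.Involutive (jf (F := F) tb s) := by
  rintro ⟨⟨w, _ | t⟩, q⟩
  · simp [jf]
  · by_cases h : t = tb q s
    · simp [jf, h]
    · simp [jf, h]

theorem jt_rt (s : S) (p : G ⧸ F) (x : MH S F) : jt tb s (rt p x) = rt p (jt tb (tb p s) x) := by
  obtain ⟨⟨w, _ | t⟩, q⟩ := x
  · simp [jt, rt]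
  · by_cases h : t = tb q (tb p s)
    · simp [jt, rt, h]
    · simp [jt, rt, h]

theorem jf_rt (s : S) (p : G ⧸ F) (x : MH S F) : jf tb s (rt p x) = rt p (jf tb (tb p s) x) := by
  obtain ⟨⟨w, _ | t⟩, q⟩ := x
  · simp [jf, rt]
  · by_cases h : t = tb q (tb p s)
    · simp [jf, rt, h]
    · simp [jf, rt, h]

variable {θ c tb}

theorem lft_mul (hc : IsCr θ c) (g h : G) (x : MH S F) :
    lft θ c (g * h) x = lft θ c g (lft θ c h x) := by
  obtain ⟨⟨w, o⟩, q⟩ := x
  simp only [lft, hc g h, map_mul, QuotientGroup.mk_mul, mul_assoc, Option.map_map, Prod.mk.injEq,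
    mul_right_inj, and_true]
  refine ⟨?_, rfl⟩
  rw [FreeGroup.map.comp]
  rfl

theorem cr_one (hc : IsCr θ c) : c 1 = 1 := by
  have := hc 1 1
  rw [mul_one] at this
  have h2 : FreeGroup.map (θ 1) (c 1) = c 1 := by
    rw [map_one]
    show FreeGroup.map id (c 1) = c 1
    rw [FreeGroup.map.id]
  rw [h2] at this
  exact left_eq_mul.1 this

theorem lft_one (hc : IsCr θ c) (x : MH S F) : lft θ c 1 x = x := by
  obtain ⟨⟨w, o⟩, q⟩ := x
  have h1 : FreeGroup.map (θ 1) w = w := by
    rw [map_one]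
    show FreeGroup.map id w = w
    rw [FreeGroup.map.id]
  have h2 : Option.map (θ 1) o = o := by
    rw [map_one]
    exact congrFun Option.map_id o
  simp only [lft, cr_one hc, one_mul, h1, h2, QuotientGroup.mk_one]

theorem lft_inj (hc : IsCr θ c) (g : G) : Function.Injective (lft (F := F) θ c g) := by
  intro x y h
  have := congrArg (lft θ c g⁻¹) h
  rwa [← lft_mul hc, ← lft_mul hc, inv_mul_cancel, lft_one hc, lft_one hc] at this

theorem jt_lft (htb : ∀ g : G, tb (g : G ⧸ F) = θ g) (s : S) (g : G) (x : MH S F) :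
    jt tb s (lft θ c g x) = lft θ c g (jt tb s x) := by
  obtain ⟨⟨w, _ | t⟩, q⟩ := x
  · simp [jt, lft, htb]
  · by_cases h : t = tb q s
    · simp [jt, lft, h, htb]
    · simp [jt, lft, h, htb]

theorem jf_lft (htb : ∀ g : G, tb (g : G ⧸ F) = θ g) (s : S) (g : G) (x : MH S F) :
    jf tb s (lft θ c g x) = lft θ c g (jf tb s x) := by
  obtain ⟨⟨w, _ | t⟩, q⟩ := x
  · simp [jf, lft, htb, mul_assoc]
  · by_cases h : t = tb q s
    · simp [jf, lft, h, htb, mul_assoc]
    · simp [jf, lft, h, htb]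

theorem rt_lft (p : G ⧸ F) (g : G) (x : MH S F) :
    rt p (lft θ c g x) = lft θ c g (rt p x) := by
  simp [rt, lft, mul_assoc]

theorem rt_rt (p p' : G ⧸ F) (x : MH S F) : rt p' (rt p x) = rt (p * p') x := by
  simp [rt, mul_assoc]

/-- **Virtual retractions.** -/
theorem virt_retract [F.FiniteIndex] (hθ : ∀ f ∈ F, θ f = 1) (hc : IsCr θ c) (H : Subgroup G)
    (hH : H.FG) (hinj : ∀ f ∈ H, f ∈ F → c f = 1 → f = 1) :
    ∃ K : Subgroup G, K.FiniteIndex ∧ H ≤ K ∧
          ∃ ρ : K →* G, (∀ k : K, ρ k ∈ H) ∧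
            ∀ h : G, ∀ hk : h ∈ K, h ∈ H → ρ ⟨h, hk⟩ = h := by
  classical
  obtain ⟨T, hT⟩ := hH
  let tb : (G ⧸ F) →* Equiv.Perm S := QuotientGroup.lift F θ (fun f hf => hθ f hf)
  have htb : ∀ g : G, tb (g : G ⧸ F) = θ g := fun g => rfl
  have hquo : Finite (G ⧸ F) := Subgroup.finite_quotient_of_finiteIndex
  -- the finite set of points on the paths of the generators
  let A : Set (FreeGroup S) := ⋃ h ∈ (T : Set G), (fun p : List (S × Bool) => FreeGroup.mk p) ''
    {p | p ∈ (c h).toWord.inits}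
  let B : Set S := ⋃ h ∈ (T : Set G), (fun a : S × Bool => a.1) '' {a | a ∈ (c h).toWord}
  have hA : A.Finite := T.finite_toSet.biUnion fun h _ => (List.finite_toSet _).image _
  have hB : B.Finite := T.finite_toSet.biUnion fun h _ => (List.finite_toSet _).image _
  let C₀ : Set (FreeGroup S × Option S) := ({1} ∪ A) ×ˢ ({none} ∪ some '' B)
  have hC₀ : C₀.Finite := ((Set.finite_singleton _).union hA).prod
    ((Set.finite_singleton _).union (hB.image _))
  let C : Set (MH S F) := {x | ∃ h ∈ H, ∃ y ∈ C₀, ∃ q : G ⧸ F, x = lft θ c h (y, q)}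
  have hCl : ∀ h ∈ H, ∀ x, lft θ c h x ∈ C ↔ x ∈ C := by
    have key : ∀ h ∈ H, ∀ x, x ∈ C → lft θ c h x ∈ C := by
      rintro h hh _ ⟨h', hh', y, hy, q, rfl⟩
      exact ⟨h * h', H.mul_mem hh hh', y, hy, q, (lft_mul hc _ _ _).symm⟩
    intro h hh x
    refine ⟨fun hx => ?_, key h hh x⟩
    have := key h⁻¹ (H.inv_mem hh) _ hx
    rwa [← lft_mul hc, inv_mul_cancel, lft_one hc] at this
  have hCr : ∀ (p : G ⧸ F) x, rt p x ∈ C ↔ x ∈ C := by
    have key : ∀ (p : G ⧸ F) x, x ∈ C → rt p x ∈ C := by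
      rintro p _ ⟨h', hh', y, hy, q, rfl⟩
      exact ⟨h', hh', y, hy, q * p, rt_lft _ _ _⟩
    intro p x
    refine ⟨fun hx => ?_, key p x⟩
    have := key p⁻¹ _ hx
    rw [rt_rt, mul_inv_cancel] at this
    simpa [rt] using this
  -- the right action of the free group
  let P : S → Equiv.Perm C := fun s =>
    (bj_invol (C := C) (jf_invol tb s)).toPerm * (bj_invol (C := C) (jt_invol tb s)).toPerm
  let R : FreeGroup S →* (Equiv.Perm C)ᵐᵒᵖ := FreeGroup.lift fun s => MulOpposite.op (P s)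
  let act : C → FreeGroup S → C := fun x z => (R z).unop x
  have hact_mul : ∀ x z z', act x (z * z') = act (act x z) z' := by
    intro x z z'
    simp only [act, map_mul, MulOpposite.unop_mul, Equiv.Perm.mul_apply]
  have hact_one : ∀ x, act x 1 = x := by
    intro x
    simp only [act, map_one, MulOpposite.unop_one, Equiv.Perm.one_apply]
  have hact_of : ∀ x s, act x (FreeGroup.of s) = bj C (jf tb s) (bj C (jt tb s) x) := by
    intro x s
    simp only [act, R, FreeGroup.lift_apply_of, MulOpposite.unop_op, P, Equiv.Perm.mul_apply]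
    rfl
  have hact_inv : ∀ x s, act x (FreeGroup.of s)⁻¹ = bj C (jt tb s) (bj C (jf tb s) x) := by
    intro x s
    have h1 := hact_of (bj C (jt tb s) (bj C (jf tb s) x)) s
    rw [bj_invol (jt_invol tb s), bj_invol (jf_invol tb s)] at h1
    have h2 : act (act (bj C (jt tb s) (bj C (jf tb s) x)) (FreeGroup.of s)) (FreeGroup.of s)⁻¹ =
        act x (FreeGroup.of s)⁻¹ := by rw [h1]
    rw [← hact_mul, mul_inv_cancel, hact_one] at h2
    exact h2.symm
  -- restricted maps
  let lC : H → C → C := fun h x => ⟨lft θ c h x, (hCl h h.2 x).2 x.2⟩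
  let rC : (G ⧸ F) → C → C := fun p x => ⟨rt p x, (hCr p x).2 x.2⟩
  have hact_l : ∀ (h : H) z x, act (lC h x) z = lC h (act x z) := by
    intro h z
    induction z using FreeGroup.induction_on with
    | C1 => intro x; rw [hact_one, hact_one]
    | of s =>
      intro x
      rw [hact_of, hact_of]
      have h1 := bj_comm (C := C) (j := jt tb s) (j' := jt tb s) (u := lft θ c h) (hCl h h.2)
        (fun x => jt_lft htb s h x) x
      have h2 := bj_comm (C := C) (j := jf tb s) (j' := jf tb s) (u := lft θ c h) (hCl h h.2)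
        (fun x => jf_lft htb s h x) (bj C (jt tb s) x)
      show bj C (jf tb s) (bj C (jt tb s) ⟨lft θ c h x, _⟩) = _
      rw [h1, h2]
    | inv_of s _ =>
      intro x
      rw [hact_inv, hact_inv]
      have h1 := bj_comm (C := C) (j := jf tb s) (j' := jf tb s) (u := lft θ c h) (hCl h h.2)
        (fun x => jf_lft htb s h x) x
      have h2 := bj_comm (C := C) (j := jt tb s) (j' := jt tb s) (u := lft θ c h) (hCl h h.2)
        (fun x => jt_lft htb s h x) (bj C (jf tb s) x)
      show bj C (jt tb s) (bj C (jf tb s) ⟨lft θ c h x, _⟩) = _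
      rw [h1, h2]
    | mul y z hy hz =>
      intro x
      rw [hact_mul, hact_mul, hy, hz]
  have hact_r : ∀ (p : G ⧸ F) z x, act (rC p x) z = rC p (act x (FreeGroup.map (tb p) z)) := by
    intro p z
    induction z using FreeGroup.induction_on with
    | C1 => intro x; rw [hact_one, map_one, hact_one]
    | of s =>
      intro x
      rw [FreeGroup.map.of, hact_of, hact_of]
      have h1 := bj_comm (C := C) (j := jt tb (tb p s)) (j' := jt tb s) (u := rt p) (hCr p)
        (fun x => jt_rt tb s p x) x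
      have h2 := bj_comm (C := C) (j := jf tb (tb p s)) (j' := jf tb s) (u := rt p) (hCr p)
        (fun x => jf_rt tb s p x) (bj C (jt tb (tb p s)) x)
      show bj C (jf tb s) (bj C (jt tb s) ⟨rt p x, _⟩) = _
      rw [h1, h2]
    | inv_of s _ =>
      intro x
      rw [_root_.map_inv, FreeGroup.map.of, hact_inv, hact_inv]
      have h1 := bj_comm (C := C) (j := jf tb (tb p s)) (j' := jf tb s) (u := rt p) (hCr p)
        (fun x => jf_rt tb s p x) x
      have h2 := bj_comm (C := C) (j := jt tb (tb p s)) (j' := jt tb s) (u := rt p) (hCr p)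
        (fun x => jt_rt tb s p x) (bj C (jf tb (tb p s)) x)
      show bj C (jt tb s) (bj C (jf tb s) ⟨rt p x, _⟩) = _
      rw [h1, h2]
    | mul y z hy hz =>
      intro x
      rw [hact_mul, _root_.map_mul, hact_mul, hy, hz]
  -- the right action of `G`
  let ra : C → G → C := fun x g => rC (g : G ⧸ F) (act x (c g))
  have hra_mul : ∀ x g g', ra x (g * g') = ra (ra x g) g' := by
    intro x g g'
    simp only [ra]
    rw [hact_r, htb, ← hact_mul, ← hc]
    apply Subtype.ext
    show rt _ _ = rt _ (rt _ _)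
    rw [rt_rt]
    rfl
  have hra_one : ∀ x, ra x 1 = x := by
    intro x
    simp only [ra]
    rw [cr_one hc, hact_one]
    apply Subtype.ext
    show rt _ _ = _
    simp [rt]
  have hra_l : ∀ (h : H) x g, ra (lC h x) g = lC h (ra x g) := by
    intro h x g
    simp only [ra]
    rw [hact_l]
    apply Subtype.ext
    exact rt_lft _ _ _
  have hlC_mul : ∀ (h h' : H) x, lC (h * h') x = lC h (lC h' x) := by
    intro h h' x
    exact Subtype.ext (lft_mul hc _ _ _)
  have hlC_one : ∀ x, lC 1 x = x := fun x => Subtype.ext (lft_one hc _)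
  have hlfree : ∀ (h h' : H) x, lC h x = lC h' x → h = h' := by
    intro h h' x hx
    have h1 : lft θ c ((h'⁻¹ * h : H) : G) x.1 = x.1 := by
      have h2 : lC (h'⁻¹ * h) x = x := by
        rw [hlC_mul, hx, ← hlC_mul, inv_mul_cancel, hlC_one]
      exact congrArg Subtype.val h2
    have h3 : (((h'⁻¹ * h : H) : G) : G ⧸ F) = 1 := by
      have := congrArg Prod.snd h1
      exact mul_eq_right.1 this
    have h4 : ((h'⁻¹ * h : H) : G) ∈ F := (QuotientGroup.eq_one_iff _).1 h3
    have h5 : c ((h'⁻¹ * h : H) : G) = 1 := by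
      have h6 := congrArg (fun y => y.1.1) h1
      simp only [lft] at h6
      rw [hθ _ h4] at h6
      have h7 : FreeGroup.map (⇑(1 : Equiv.Perm S)) x.1.1.1 = x.1.1.1 := by
        show FreeGroup.map id _ = _
        rw [FreeGroup.map.id]
      rw [h7] at h6
      exact mul_eq_right.1 h6
    have h6 := hinj _ (h'⁻¹ * h).2 h4 h5
    have h7 : h'⁻¹ * h = 1 := Subtype.ext h6
    exact (inv_mul_eq_one.1 h7).symm
  -- the base point
  have hC₀1 : ∀ w ∈ ({1} ∪ A : Set (FreeGroup S)), ((w, none), (1 : G ⧸ F)) ∈ C := by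
    intro w hw
    exact ⟨1, H.one_mem, (w, none), ⟨hw, Or.inl rfl⟩, 1, (lft_one hc _).symm⟩
  have hC₀2 : ∀ w ∈ ({1} ∪ A : Set (FreeGroup S)), ∀ s ∈ B, ((w, some s), (1 : G ⧸ F)) ∈ C := by
    intro w hw s hs
    exact ⟨1, H.one_mem, (w, some s), ⟨hw, Or.inr ⟨s, hs, rfl⟩⟩, 1, (lft_one hc _).symm⟩
  let e₀ : C := ⟨((1, none), 1), hC₀1 1 (Or.inl rfl)⟩
  -- one step
  have htb1 : ∀ s, tb 1 s = s := by intro s; rw [_root_.map_one]; rfl
  have hstep : ∀ (w : FreeGroup S) (a : S × Bool) (hw : w ∈ ({1} ∪ A : Set (FreeGroup S)))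
      (hw' : w * FreeGroup.mk [a] ∈ ({1} ∪ A : Set (FreeGroup S))) (_ : a.1 ∈ B),
      act ⟨((w, none), 1), hC₀1 w hw⟩ (FreeGroup.mk [a]) =
        ⟨((w * FreeGroup.mk [a], none), 1), hC₀1 _ hw'⟩ := by
    rintro w ⟨s, b⟩ hw hw' hs
    cases b with
    | true =>
      have e1 : (FreeGroup.mk [(s, true)] : FreeGroup S) = FreeGroup.of s := rfl
      simp only [e1] at hw' ⊢
      rw [hact_of]
      have h1 : jt tb s ((w, none), (1 : G ⧸ F)) = ((w, some s), 1) := by
        simp [jt]
      have h2 : jt tb s (⟨((w, none), 1), hC₀1 w hw⟩ : C).1 ∈ C := by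
        show jt tb s ((w, none), (1 : G ⧸ F)) ∈ C
        rw [h1]
        exact hC₀2 w hw s hs
      rw [bj_pos h2]
      have h3 : jf tb s ((w, some s), (1 : G ⧸ F)) = ((w * FreeGroup.of s, none), 1) := by
        simp [jf]
      have h4 : jf tb s (⟨jt tb s ((w, none), (1 : G ⧸ F)), h2⟩ : C).1 ∈ C := by
        show jf tb s (jt tb s ((w, none), (1 : G ⧸ F))) ∈ C
        rw [h1, h3]
        exact hC₀1 _ hw'
      rw [bj_pos h4]
      apply Subtype.ext
      show jf tb s (jt tb s ((w, none), (1 : G ⧸ F))) = _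
      rw [h1, h3]
    | false =>
      have e1 : (FreeGroup.mk [(s, false)] : FreeGroup S) = (FreeGroup.of s)⁻¹ := rfl
      simp only [e1] at hw' ⊢
      rw [hact_inv]
      have h1 : jf tb s ((w, none), (1 : G ⧸ F)) = ((w * (FreeGroup.of s)⁻¹, some s), 1) := by
        simp [jf]
      have h2 : jf tb s (⟨((w, none), 1), hC₀1 w hw⟩ : C).1 ∈ C := by
        show jf tb s ((w, none), (1 : G ⧸ F)) ∈ C
        rw [h1]
        exact hC₀2 _ hw' s hs
      rw [bj_pos h2]
      have h3 : jt tb s ((w * (FreeGroup.of s)⁻¹, some s), (1 : G ⧸ F)) =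
          ((w * (FreeGroup.of s)⁻¹, none), 1) := by
        simp [jt]
      have h4 : jt tb s (⟨jf tb s ((w, none), (1 : G ⧸ F)), h2⟩ : C).1 ∈ C := by
        show jt tb s (jf tb s ((w, none), (1 : G ⧸ F))) ∈ C
        rw [h1, h3]
        exact hC₀1 _ hw'
      rw [bj_pos h4]
      apply Subtype.ext
      show jt tb s (jf tb s ((w, none), (1 : G ⧸ F))) = _
      rw [h1, h3]
  have hpath : ∀ h ∈ T, ∀ (l2 l1 : List (S × Bool)) (_ : l1 ++ l2 = (c h).toWord)
      (hw : FreeGroup.mk l1 ∈ ({1} ∪ A : Set (FreeGroup S)))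
      (hw' : FreeGroup.mk (l1 ++ l2) ∈ ({1} ∪ A : Set (FreeGroup S))),
      act ⟨((FreeGroup.mk l1, none), 1), hC₀1 _ hw⟩ (FreeGroup.mk l2) =
        ⟨((FreeGroup.mk (l1 ++ l2), none), 1), hC₀1 _ hw'⟩ := by
    intro h hh l2
    induction l2 with
    | nil =>
      intro l1 hl hw hw'
      have e1 : (FreeGroup.mk ([] : List (S × Bool))) = 1 := rfl
      rw [e1, hact_one]
      apply Subtype.ext
      simp
    | cons a l ih =>
      intro l1 hl hw hw'
      have e1 : FreeGroup.mk (a :: l) = FreeGroup.mk [a] * FreeGroup.mk l := by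
        rw [FreeGroup.mul_mk]; rfl
      have hmem : FreeGroup.mk (l1 ++ [a]) ∈ ({1} ∪ A : Set (FreeGroup S)) := by
        right
        simp only [A, Set.mem_iUnion]
        refine ⟨h, hh, l1 ++ [a], ?_, rfl⟩
        show l1 ++ [a] ∈ (c h).toWord.inits
        rw [List.mem_inits, ← hl]
        exact ⟨l, by simp⟩
      have hmem2 : FreeGroup.mk l1 * FreeGroup.mk [a] ∈ ({1} ∪ A : Set (FreeGroup S)) := by
        rw [FreeGroup.mul_mk]; exact hmem
      have hBm : a.1 ∈ B := by
        simp only [B, Set.mem_iUnion]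
        refine ⟨h, hh, a, ?_, rfl⟩
        show a ∈ (c h).toWord
        rw [← hl]
        simp
      rw [e1, hact_mul, hstep _ a hw hmem2 hBm]
      have h2 := ih (l1 ++ [a]) (by rw [← hl]; simp) hmem (by
        rw [List.append_assoc]; exact hw')
      have e2 : (⟨((FreeGroup.mk l1 * FreeGroup.mk [a], none), 1), hC₀1 _ hmem2⟩ : C) =
          ⟨((FreeGroup.mk (l1 ++ [a]), none), 1), hC₀1 _ hmem⟩ := by
        apply Subtype.ext
        simp [FreeGroup.mul_mk]
      rw [e2, h2]
      apply Subtype.ext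
      simp
  -- generators
  have hgen : ∀ h ∈ H, ∀ hh : h ∈ H, ra e₀ h = lC ⟨h, hh⟩ e₀ := by
    intro h hh0
    rw [← hT] at hh0
    induction hh0 using Subgroup.closure_induction with
    | mem h hhT =>
      intro hh
      have hwm : FreeGroup.mk ([] ++ (c h).toWord) ∈ ({1} ∪ A : Set (FreeGroup S)) := by
        right
        simp only [A, Set.mem_iUnion]
        refine ⟨h, hhT, (c h).toWord, ?_, rfl⟩
        show (c h).toWord ∈ (c h).toWord.inits
        rw [List.mem_inits]
      have h1 := hpath h hhT (c h).toWord [] rfl (Or.inl rfl) hwm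
      have h2 : act e₀ (c h) = ⟨((c h, none), 1), hC₀1 _ (by
          have := hwm
          rwa [List.nil_append, FreeGroup.mk_toWord] at this)⟩ := by
        have h3 : act e₀ (c h) = act e₀ (FreeGroup.mk (c h).toWord) := by
          rw [FreeGroup.mk_toWord]
        rw [h3]
        refine h1.trans ?_
        apply Subtype.ext
        simp [FreeGroup.mk_toWord]
      simp only [ra]
      rw [h2]
      apply Subtype.ext
      show rt _ _ = lft θ c h _
      simp [rt, lft, e₀]
    | one =>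
      intro hh
      rw [hra_one]
      exact (hlC_one _).symm
    | mul a b ha hb iha ihb =>
      intro hh
      rw [hT] at ha hb
      rw [hra_mul, iha ha, hra_l, ihb hb, ← hlC_mul]
      rfl
    | inv a ha iha =>
      intro hh
      rw [hT] at ha
      have h1 := iha ha
      have h2 : e₀ = lC ⟨a, ha⟩ (ra e₀ a⁻¹) := by
        rw [← hra_l, ← h1, ← hra_mul, mul_inv_cancel, hra_one]
      have h3 : lC ⟨a⁻¹, hh⟩ e₀ = lC ⟨a⁻¹, hh⟩ (lC ⟨a, ha⟩ (ra e₀ a⁻¹)) := by rw [← h2]
      rw [h3, ← hlC_mul]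
      have h4 : (⟨a⁻¹, hh⟩ * ⟨a, ha⟩ : H) = 1 := Subtype.ext (inv_mul_cancel a)
      rw [h4, hlC_one]
  -- the finite index subgroup
  let K : Subgroup G :=
    { carrier := {g | ∃ h : H, ra e₀ g = lC h e₀}
      one_mem' := ⟨1, by rw [hra_one, hlC_one]⟩
      mul_mem' := by
        rintro g g' ⟨h, hh⟩ ⟨h', hh'⟩
        exact ⟨h * h', by rw [hra_mul, hh, hra_l, hh', hlC_mul]⟩
      inv_mem' := by
        rintro g ⟨h, hh⟩
        refine ⟨h⁻¹, ?_⟩
        have h2 : e₀ = lC h (ra e₀ g⁻¹) := by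
          rw [← hra_l, ← hh, ← hra_mul, mul_inv_cancel, hra_one]
        have h3 : lC h⁻¹ e₀ = lC h⁻¹ (lC h (ra e₀ g⁻¹)) := by rw [← h2]
        rw [h3, ← hlC_mul, inv_mul_cancel, hlC_one] }
  have hK : ∀ g, g ∈ K ↔ ∃ h : H, ra e₀ g = lC h e₀ := fun g => Iff.rfl
  refine ⟨K, ?_, ?_, ?_⟩
  · -- finite index
    have hlab : ∀ x : C, ∃ y : C₀ × (G ⧸ F), ∃ h : H, x.1 = lft θ c h (y.1.1, y.2) := by
      rintro ⟨x, h, hh, y, hy, q, rfl⟩
      exact ⟨(⟨y, hy⟩, q), ⟨h, hh⟩, rfl⟩
    choose lab hl1 hl2 using hlab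
    have hfC : Finite C₀ := hC₀.to_subtype
    have hfin : Finite (G ⧸ K) := by
      apply Finite.of_injective (fun q : G ⧸ K => lab (ra e₀ (Quotient.out q)⁻¹))
      intro q q' h
      simp only at h
      have a1 := hl2 (ra e₀ (Quotient.out q)⁻¹)
      have a2 := hl2 (ra e₀ (Quotient.out q')⁻¹)
      rw [← h] at a2
      obtain ⟨h1, e1⟩ : ∃ h1, h1 = hl1 (ra e₀ (Quotient.out q)⁻¹) := ⟨_, rfl⟩
      obtain ⟨h2, e2⟩ : ∃ h2, h2 = hl1 (ra e₀ (Quotient.out q')⁻¹) := ⟨_, rfl⟩
      rw [← e1] at a1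
      rw [← e2] at a2
      have h3 : ra e₀ (Quotient.out q)⁻¹ = lC (h1 * h2⁻¹) (ra e₀ (Quotient.out q')⁻¹) := by
        apply Subtype.ext
        show _ = lft θ c ((h1 * h2⁻¹ : H) : G) _
        rw [a1, a2, ← lft_mul hc]
        congr 1
        rw [Subgroup.coe_mul, Subgroup.coe_inv, inv_mul_cancel_right]
      have h4 : (Quotient.out q)⁻¹ * Quotient.out q' ∈ K := by
        rw [hK]
        refine ⟨h1 * h2⁻¹, ?_⟩
        rw [hra_mul, h3, hra_l, ← hra_mul, inv_mul_cancel, hra_one]
      have h5 := QuotientGroup.eq.2 h4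
      rwa [QuotientGroup.out_eq', QuotientGroup.out_eq'] at h5
    exact Subgroup.finiteIndex_of_finite_quotient
  · intro h hh
    exact ⟨⟨h, hh⟩, hgen h hh hh⟩
  · have hch : ∀ g : K, ∃ h : H, ra e₀ g = lC h e₀ := fun g => g.2
    choose r hr using hch
    refine ⟨{ toFun := fun g => r g, map_one' := ?_, map_mul' := ?_ }, fun k => (r k).2, ?_⟩
    · have h1 : r 1 = 1 := by
        apply hlfree _ _ e₀
        rw [← hr, hlC_one]
        exact hra_one _
      rw [h1]; rfl
    · intro a b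
      have h1 : r (a * b) = r a * r b := by
        apply hlfree _ _ e₀
        rw [← hr, hlC_mul, ← hr b, ← hra_l, ← hr a, ← hra_mul]
        rfl
      rw [h1]; rfl
    · intro h hk hh
      have h1 : r ⟨h, hk⟩ = ⟨h, hh⟩ := by
        apply hlfree _ _ e₀
        rw [← hr, ← hgen h hh hh]
      show ((r ⟨h, hk⟩ : H) : G) = h
      rw [h1]

end main

end Pool.Agent.Zk56.LR
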