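import Pool.Agent.Q24.PF.Der3

/-!
# Free factors closed under a finite family of automorphisms
-/

set_option autoImplicit false

namespace Pool.Agent.Zk56.LR

open Pool.Agent.Helper122.Cuts Subgroup

section bas

variable {A : Type} [Group A]

theorem bas_hom {B : Set A} (h : Bas B ⊤) {N : Type} [Group N] (f : A → N) :
    ∃ g : A →* N, ∀ s ∈ B, g s = f s := by
  obtain ⟨e, he⟩ := h.retr
  refine ⟨((FreeGroup.lift (fun s : B => f s)).comp e.toMonoidHom).comp
    (Subgroup.topEquiv : (⊤ : Subgroup A) ≃* A).symm.toMonoidHom, ?_⟩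
  intro s hs
  have h1 := he ⟨s, hs⟩ trivial
  simp only [MonoidHom.comp_apply]
  have h2 : e.toMonoidHom ((Subgroup.topEquiv : (⊤ : Subgroup A) ≃* A).symm.toMonoidHom s) =
      FreeGroup.of ⟨s, hs⟩ := h1
  rw [h2, FreeGroup.lift_apply_of]

theorem bas_of_retr {S : Set A} (g : A →* FreeGroup S) (hg : ∀ s : S, g s = FreeGroup.of s) :
    Bas S (closure S) := by
  refine ⟨?_, rfl⟩
  have h : g.comp (FreeGroup.lift (fun s : S => (s : A))) = MonoidHom.id _ := by
    apply FreeGroup.ext_hom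
    intro s
    simp [hg]
  intro a b hab
  have h1 := DFunLike.congr_fun h a
  have h2 := DFunLike.congr_fun h b
  simp only [MonoidHom.comp_apply, MonoidHom.id_apply] at h1 h2
  rw [← h1, ← h2, hab]

theorem bas_sub {B S : Set A} (h : Bas B ⊤) (hS : S ⊆ B) : Bas S (closure S) := by
  classical
  obtain ⟨g, hg⟩ := bas_hom h (fun x => if hx : x ∈ S then FreeGroup.of (⟨x, hx⟩ : S) else 1)
  apply bas_of_retr g
  intro s
  rw [hg s (hS s.2), dif_pos s.2]

theorem bas_exchange {P Q Q' : Set A} (h : Bas (P ∪ Q) ⊤) (hd : Disjoint P Q)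
    (hQ' : Bas Q' (closure Q)) : Bas (P ∪ Q') ⊤ := by
  classical
  obtain ⟨e, he⟩ := hQ'.retr
  let i : FreeGroup Q' →* FreeGroup ↥(P ∪ Q') :=
    FreeGroup.map (Set.inclusion Set.subset_union_right)
  obtain ⟨g, hg⟩ := bas_hom h (fun x => if hx : x ∈ Q then i (e ⟨x, subset_closure hx⟩) else
    if hx : x ∈ P then FreeGroup.of (⟨x, Or.inl hx⟩ : ↥(P ∪ Q')) else 1)
  have h1 : ∀ x (hx : x ∈ closure Q), g x = i (e ⟨x, hx⟩) := by
    intro x hx
    induction hx using Subgroup.closure_induction with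
    | mem x hx =>
      rw [hg x (Or.inr hx), dif_pos hx]
    | one =>
      have : (⟨1, Subgroup.one_mem _⟩ : closure Q) = 1 := rfl
      rw [map_one, this, map_one, map_one]
    | mul a b ha hb iha ihb =>
      have : (⟨a * b, Subgroup.mul_mem _ ha hb⟩ : closure Q) = ⟨a, ha⟩ * ⟨b, hb⟩ := rfl
      rw [map_mul, iha, ihb, this, map_mul, map_mul]
    | inv a ha iha =>
      have : (⟨a⁻¹, Subgroup.inv_mem _ ha⟩ : closure Q) = ⟨a, ha⟩⁻¹ := rfl
      rw [map_inv, iha, this, map_inv, map_inv]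
  have h2 : closure (P ∪ Q') = ⊤ := by
    rw [eq_top_iff, ← h.2, closure_le]
    rintro x (hx | hx)
    · exact subset_closure (Or.inl hx)
    · have h3 : x ∈ closure Q' := by
        rw [hQ'.2]; exact subset_closure hx
      exact closure_mono Set.subset_union_right h3
  rw [← h2]
  apply bas_of_retr g
  rintro ⟨x, hx⟩
  by_cases hxQ : x ∈ Q'
  · have h3 : x ∈ closure Q := by
      rw [← hQ'.2]; exact subset_closure hxQ
    rw [h1 x h3, he ⟨x, hxQ⟩ h3]
    simp only [i, FreeGroup.map.of]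
    try rfl
  · have hxP : x ∈ P := hx.resolve_right hxQ
    have h3 : x ∉ Q := fun h4 => Set.disjoint_left.1 hd hxP h4
    rw [hg x (Or.inl hxP), dif_neg h3, dif_pos hxP]

theorem bas_image {B : Set A} (h : Bas B ⊤) (σ : A ≃* A) : Bas (σ '' B) ⊤ := by
  classical
  obtain ⟨g, hg⟩ := bas_hom h (fun x => if hx : σ x ∈ σ '' B then
    FreeGroup.of (⟨σ x, hx⟩ : ↥(σ '' B)) else 1)
  have h2 : closure (σ '' B) = ⊤ := by
    have h3 := MonoidHom.map_closure σ.toMonoidHom B
    have h4 : (σ.toMonoidHom '' B) = σ '' B := rfl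
    rw [h4, h.2] at h3
    rw [← h3, ← MonoidHom.range_eq_map]
    exact MonoidHom.range_eq_top.2 σ.surjective
  rw [← h2]
  apply bas_of_retr (g.comp σ.symm.toMonoidHom)
  rintro ⟨_, x, hx, rfl⟩
  have h3 : σ.symm.toMonoidHom (σ x) = x := σ.symm_apply_apply x
  simp only [MonoidHom.comp_apply]
  rw [h3, hg x hx, dif_pos ⟨x, hx, rfl⟩]

theorem bas_equiv {K : Subgroup A} {S1 S2 : Set A} (h1 : Bas S1 K) (h2 : Bas S2 K) :
    Nonempty (S1 ≃ S2) := by
  obtain ⟨e1, -⟩ := h1.retr
  obtain ⟨e2, -⟩ := h2.retr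
  exact ⟨Equiv.ofFreeGroupEquiv (e1.symm.trans e2)⟩

theorem exists_finite_sub {S R X : Set A} (hX : X.Finite) (h : X ⊆ closure (S ∪ R)) :
    ∃ T ⊆ R, T.Finite ∧ X ⊆ closure (S ∪ T) := by
  have key : ∀ x ∈ closure (S ∪ R), ∃ T ⊆ R, T.Finite ∧ x ∈ closure (S ∪ T) := by
    intro x hx
    induction hx using Subgroup.closure_induction with
    | mem x hx =>
      rcases hx with hx | hx
      · exact ⟨∅, Set.empty_subset _, Set.finite_empty, subset_closure (Or.inl hx)⟩
      · exact ⟨{x}, by simpa using hx, Set.finite_singleton x, subset_closure (Or.inr rfl)⟩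
    | one => exact ⟨∅, Set.empty_subset _, Set.finite_empty, Subgroup.one_mem _⟩
    | mul a b _ _ iha ihb =>
      obtain ⟨T, h1, h2, h3⟩ := iha
      obtain ⟨T', h1', h2', h3'⟩ := ihb
      refine ⟨T ∪ T', Set.union_subset h1 h1', h2.union h2', Subgroup.mul_mem _ ?_ ?_⟩
      · exact closure_mono (Set.union_subset_union_right _ Set.subset_union_left) h3
      · exact closure_mono (Set.union_subset_union_right _ Set.subset_union_right) h3'
    | inv a _ iha =>
      obtain ⟨T, h1, h2, h3⟩ := iha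
      exact ⟨T, h1, h2, Subgroup.inv_mem _ h3⟩
  choose! T hT1 hT2 hT3 using key
  refine ⟨⋃ x ∈ X, T x, ?_, hX.biUnion fun x hx => hT2 x (h hx), ?_⟩
  · exact Set.iUnion₂_subset fun x hx => hT1 x (h hx)
  · intro x hx
    exact closure_mono (Set.union_subset_union_right _ (Set.subset_biUnion_of_mem hx))
      (hT3 x (h hx))

theorem bas_free_top {B : Set A} (h : Bas B ⊤) : IsFreeGroup A := by
  have := h.isFree
  exact IsFreeGroup.ofMulEquiv Subgroup.topEquiv

theorem tf_of_free (A : Type) [Group A] [IsFreeGroup A] : TF A := by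
  intro g n hn hg
  have e := IsFreeGroup.toFreeGroup A
  have h1 : (e g) ^ n = 1 := by rw [← map_pow, hg, map_one]
  have h2 := Pool.Agent.Q24.PF.tf_free _ (e g) n hn h1
  exact (MulEquiv.map_eq_one_iff e).1 h2

theorem lip_of_free (A : Type) [Group A] [IsFreeGroup A] (p : ℕ) [Fact p.Prime] : LIp A p := by
  classical
  intro K _ hK
  obtain ⟨S, hS⟩ := exists_bas_of_free (K := K) inferInstance
  obtain ⟨e, he⟩ := hS.retr
  have hne : S.Nonempty := by
    by_contra h
    rw [Set.not_nonempty_iff_eq_empty] at h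
    apply hK
    rw [← hS.2, h, Subgroup.closure_empty]
  obtain ⟨s, hs⟩ := hne
  refine ⟨(FreeGroup.lift (fun _ => Multiplicative.ofAdd 1)).comp e.toMonoidHom, ?_⟩
  intro h
  have h2 := DFunLike.congr_fun h (e.symm (FreeGroup.of ⟨s, hs⟩))
  simp only [MonoidHom.comp_apply, MulEquiv.toMonoidHom_eq_coe, MonoidHom.coe_coe,
    MulEquiv.apply_symm_apply, FreeGroup.lift_apply_of, MonoidHom.one_apply] at h2
  have h4 : (1 : ZMod p) = 0 := h2
  have : Nontrivial (ZMod p) := ZMod.nontrivial_iff.2 (Fact.out : p.Prime).one_lt.ne'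
  exact one_ne_zero h4

end bas

section der

/-- index set of the coordinates -/
structure MM (A : Type) : Type where
  /-- first coordinate -/
  fst : A
  /-- second coordinate -/
  snd : A

instance (A : Type) [Group A] : MulAction A (MM A) where
  smul a m := ⟨a * m.1, m.2⟩
  one_smul m := by
    obtain ⟨x, y⟩ := m
    show MM.mk (1 * x) y = ⟨x, y⟩
    rw [one_mul]
  mul_smul a b m := by
    show MM.mk (a * b * m.1) m.2 = ⟨a * (b * m.1), m.2⟩
    rw [mul_assoc]

theorem MM_free (A : Type) [Group A] : FreeAct A (MM A) := by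
  intro a e h
  have h1 : a * e.1 = e.1 := congrArg MM.fst h
  exact mul_eq_right.1 h1

variable {A : Type} [Group A]

theorem tl_zero2 {E : Type} [MulAction A E] (a : A) : tl a (0 : E →₀ ZMod 2) = 0 := by
  simp [tl]

theorem tl_neg2 {E : Type} [MulAction A E] (a : A) (x : E →₀ ZMod 2) : tl a (-x) = - tl a x := by
  ext e; simp [tl_apply]

theorem tl_sub2 {E : Type} [MulAction A E] (a : A) (x y : E →₀ ZMod 2) :
    tl a (x - y) = tl a x - tl a y := by
  ext e; simp [tl_apply]

theorem exists_der_bas {B : Set A} (h : Bas B ⊤) {E : Type} [MulAction A E]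
    (a : A → (E →₀ ZMod 2)) : ∃ D : A → (E →₀ ZMod 2), IsDer D ∧ ∀ s ∈ B, D s = a s := by
  obtain ⟨Θ, hΘ⟩ := bas_hom h (fun s => (
    { toFun := fun x => tl s x + a s
      invFun := fun x => tl s⁻¹ (x - a s)
      left_inv := fun x => by
        simp only [add_sub_cancel_right]
        rw [tl_tl, inv_mul_cancel, tl_one]
      right_inv := fun x => by
        simp only
        rw [tl_tl, mul_inv_cancel, tl_one, sub_add_cancel] } : Equiv.Perm (E →₀ ZMod 2)))
  have h1 : ∀ f ∈ closure B, ∀ x : E →₀ ZMod 2, Θ f x = tl f x + Θ f 0 := by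
    intro f hf
    induction hf using Subgroup.closure_induction with
    | mem s hs =>
      intro x
      have e : ∀ y, Θ s y = tl s y + a s := by
        intro y
        rw [hΘ s hs]
        rfl
      rw [e, e, tl_zero2, zero_add]
    | one =>
      intro x
      rw [map_one, tl_one]
      simp
    | mul f g _ _ hf hg =>
      intro x
      rw [map_mul, Equiv.Perm.mul_apply, Equiv.Perm.mul_apply, hf (Θ g x), hf (Θ g 0), hg x,
        tl_add, tl_tl]
      abel
    | inv f _ hf =>
      intro x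
      have e : ∀ y, Θ f⁻¹ y = tl f⁻¹ y - tl f⁻¹ (Θ f 0) := by
        intro y
        have h2 : Θ f (tl f⁻¹ y - tl f⁻¹ (Θ f 0)) = y := by
          rw [hf, tl_sub2, tl_tl, tl_tl, mul_inv_cancel, tl_one, tl_one, sub_add_cancel]
        rw [map_inv]
        conv_lhs => rw [← h2]
        exact Equiv.symm_apply_apply (Θ f) _
      rw [e x, e 0, tl_zero2]
      abel
  have h2 : ∀ f x, Θ f x = tl f x + Θ f 0 := by
    intro f
    apply h1
    rw [h.2]; trivial
  refine ⟨fun f => Θ f 0, ?_, ?_⟩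
  · intro f g
    change Θ (f * g) 0 = Θ f 0 + tl f (Θ g 0)
    rw [map_mul, Equiv.Perm.mul_apply, h2 f (Θ g 0), add_comm]
  · intro s hs
    change Θ s 0 = a s
    rw [hΘ s hs]
    change tl s 0 + a s = a s
    rw [tl_zero2, zero_add]

/-- A derivation whose kernel is a given free factor. -/
theorem exists_der_ker {B S : Set A} (h : Bas B ⊤) (hS : S ⊆ B) :
    ∃ (D : A → (MM A →₀ ZMod 2)), IsDer D ∧ ∀ x, D x = 0 ↔ x ∈ closure S := by
  classical
  obtain ⟨D, hD, hDs⟩ := exists_der_bas h (E := MM A) (fun s => if s ∈ S then 0 else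
    Finsupp.single (⟨1, s⟩ : MM A) 1)
  refine ⟨D, hD, fun x => ⟨fun hx => ?_, fun hx => ?_⟩⟩
  · let C := closure S
    let π : (MM A →₀ ZMod 2) →+ ((A ⧸ C) →₀ ZMod 2) := Finsupp.liftAddHom (fun m =>
      (Finsupp.singleAddHom (((m.1 * m.2 : A)) : A ⧸ C)) - Finsupp.singleAddHom ((m.1 : A) : A ⧸ C))
    have hπs : ∀ (m : MM A) (c : ZMod 2), π (Finsupp.single m c) =
        Finsupp.single (((m.1 * m.2 : A)) : A ⧸ C) c - Finsupp.single ((m.1 : A) : A ⧸ C) c := by
      intro m c
      simp only [π, Finsupp.liftAddHom_apply_single]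
      rfl
    have hπ : ∀ (a : A) (z : MM A →₀ ZMod 2), π (tl a z) = tl a (π z) := by
      intro a z
      induction z using Finsupp.induction_linear with
      | zero => rw [tl_zero2, map_zero, tl_zero2]
      | add x y hx hy => rw [tl_add, map_add, map_add, hx, hy, tl_add]
      | single m c =>
        have e1 : tl a (Finsupp.single m c : MM A →₀ ZMod 2) =
            Finsupp.single (⟨a * m.1, m.2⟩ : MM A) c := by
          unfold tl
          rw [Finsupp.mapDomain_single]
          rfl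
        rw [e1, hπs, hπs, tl_sub2]
        unfold tl
        rw [Finsupp.mapDomain_single, Finsupp.mapDomain_single]
        simp only [mul_assoc]
        rfl
    have key : ∀ x ∈ closure B, π (D x) = Finsupp.single ((x : A) : A ⧸ C) 1 -
        Finsupp.single ((1 : A) : A ⧸ C) 1 := by
      have tls : ∀ (a b : A), tl a (Finsupp.single ((b : A) : A ⧸ C) (1 : ZMod 2)) =
          Finsupp.single ((a * b : A) : A ⧸ C) 1 := by
        intro a b
        unfold tl
        rw [Finsupp.mapDomain_single]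
        rfl
      intro x hx
      induction hx using Subgroup.closure_induction with
      | mem s hs =>
        rw [hDs s hs]
        by_cases hsS : s ∈ S
        · rw [if_pos hsS, map_zero]
          have : ((s : A) : A ⧸ C) = ((1 : A) : A ⧸ C) := by
            rw [eq_comm, QuotientGroup.eq]
            simpa using (subset_closure hsS : s ∈ closure S)
          rw [this, sub_self]
        · rw [if_neg hsS, hπs]
          simp only [one_mul]
      | one => rw [hD.one, map_zero, sub_self]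
      | mul a b _ _ iha ihb =>
        rw [hD, map_add, hπ, iha, ihb, tl_sub2, tls, tls, mul_one]
        abel
      | inv a _ iha =>
        have h1 := hD a⁻¹ a
        rw [inv_mul_cancel, hD.one] at h1
        have h2 := congrArg π h1
        rw [map_zero, map_add, hπ, iha, tl_sub2, tls, tls, inv_mul_cancel, mul_one] at h2
        have h3 := eq_neg_of_add_eq_zero_left h2.symm
        rw [h3, neg_sub]
    have h1 := key x (by rw [h.2]; trivial)
    rw [hx, map_zero] at h1
    have h2 := (sub_eq_zero.1 h1.symm)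
    have h3 := Finsupp.single_left_injective (one_ne_zero : (1 : ZMod 2) ≠ 0) h2
    have h4 := QuotientGroup.eq.1 h3.symm
    simpa using h4
  · have h1 : closure S ≤ dker D hD := by
      rw [closure_le]
      intro s hs
      show D s = 0
      rw [hDs s (hS hs), if_pos hs]
    exact h1 hx

end der

section main

variable {A H : Type} [Group A] [Group H]

theorem set_aux {S T R' S0 T2 T1 : Set A} (hd : Disjoint S T) (hs : S0 ⊆ S) :
    (S ∪ T ∪ R') \ (S0 ∪ T) ∪ (S0 ∪ T2 ∪ T1) =
      S ∪ (T2 \ S) ∪ (T1 ∪ (R' \ (S0 ∪ T))) := by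
  ext x
  have hd' : x ∈ S → x ∉ T := fun h => Set.disjoint_left.1 hd h
  have hs' : x ∈ S0 → x ∈ S := fun hx => hs hx
  simp only [Set.mem_union, Set.mem_sdiff]
  tauto

/-- **Closure of free factors.** -/
theorem closure_step (Φ : H →* MulAut A) (S R X : Set A) (hB : Bas (S ∪ R) ⊤) (hX : X.Finite)
    (hS : ∀ h, ∀ y ∈ S, Φ h y ∈ closure S) (hXi : ∀ h, ∀ x ∈ X, Φ h x ∈ closure (S ∪ X)) :
    ∃ T R' : Set A, T.Finite ∧ Bas (S ∪ T ∪ R') ⊤ ∧ X ⊆ closure (S ∪ T) ∧
      ∀ h, ∀ y ∈ closure (S ∪ T), Φ h y ∈ closure (S ∪ T) := by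
  classical
  have hfr : IsFreeGroup A := bas_free_top hB
  have hp : Fact (Nat.Prime 2) := ⟨Nat.prime_two⟩
  have htf := tf_of_free A
  have hli := lip_of_free A 2
  have hfree : ∀ K : Subgroup A, K.FG → ∃ S, Bas S K := by
    intro K _
    exact exists_bas_of_free inferInstance
  let P : ℕ → Prop := fun n => ∃ T R' : Set A, T.Finite ∧ T.ncard = n ∧ Disjoint S T ∧
    Bas (S ∪ T ∪ R') ⊤ ∧ X ⊆ closure (S ∪ T)
  have hP : ∃ n, P n := by
    obtain ⟨T, hT1, hT2, hT3⟩ := exists_finite_sub (S := S) (R := R) hX (by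
      intro x _
      rw [hB.2]; trivial)
    refine ⟨(T \ S).ncard, T \ S, R, hT2.subset Set.sdiff_subset, rfl, Set.disjoint_sdiff_right,
      ?_, ?_⟩
    · have e1 : S ∪ (T \ S) ∪ R = S ∪ R := by
        ext x
        simp only [Set.mem_union, Set.mem_sdiff]
        constructor
        · rintro ((h | h) | h)
          · exact Or.inl h
          · exact Or.inr (hT1 h.1)
          · exact Or.inr h
        · rintro (h | h)
          · exact Or.inl (Or.inl h)
          · exact Or.inr h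
      rw [e1]; exact hB
    · rw [Set.union_sdiff_self]
      exact hT3
  obtain ⟨n, ⟨T, R', hT1, hT2, hT3, hT4, hT5⟩, hmin⟩ : ∃ n, P n ∧ ∀ m, P m → n ≤ m :=
    ⟨Nat.find hP, Nat.find_spec hP, fun m hm => Nat.find_min' hP hm⟩
  refine ⟨T, R', hT1, hT4, hT5, ?_⟩
  by_contra hcon
  push Not at hcon
  obtain ⟨h, y, hy1, hy2⟩ := hcon
  -- the other free factor
  let σ : A ≃* A := (Φ h).symm
  have hσ : ∀ a, Φ h (σ a) = a := fun a => (Φ h).apply_symm_apply a
  have hσ' : ∀ a, σ (Φ h a) = a := fun a => (Φ h).symm_apply_apply a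
  have hB2 := bas_image hT4 σ
  obtain ⟨D, hD, hDk⟩ := exists_der_ker hB2 (S := σ '' (S ∪ T))
    (Set.image_mono Set.subset_union_left)
  have hker : ∀ a, a ∈ dker D hD ↔ Φ h a ∈ closure (S ∪ T) := by
    intro a
    rw [mem_dker, hDk]
    have h3 := MonoidHom.map_closure σ.toMonoidHom (S ∪ T)
    have h4 : (σ.toMonoidHom '' (S ∪ T)) = σ '' (S ∪ T) := rfl
    rw [h4] at h3
    rw [← h3]
    constructor
    · rintro ⟨b, hb, rfl⟩
      have : Φ h (σ.toMonoidHom b) = b := hσ b
      rw [this]; exact hb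
    · intro ha
      exact ⟨Φ h a, ha, hσ' a⟩
  have hSk : ∀ s ∈ S, s ∈ dker D hD := by
    intro s hs
    rw [hker]
    exact closure_mono Set.subset_union_left (hS h s hs)
  have hXk : ∀ x ∈ X, x ∈ dker D hD := by
    intro x hx
    rw [hker]
    have h1 := hXi h x hx
    have h2 : closure (S ∪ X) ≤ closure (S ∪ T) := by
      rw [closure_le]
      rintro z (hz | hz)
      · exact subset_closure (Or.inl hz)
      · exact hT5 hz
    exact h2 h1
  obtain ⟨t, ht, htk⟩ : ∃ t ∈ T, t ∉ dker D hD := by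
    by_contra hcon
    push Not at hcon
    apply hy2
    have h1 : closure (S ∪ T) ≤ dker D hD := by
      rw [closure_le]
      rintro z (hz | hz)
      · exact hSk z hz
      · exact hcon z hz
    exact (hker y).1 (h1 hy1)
  -- finite part of the basis
  obtain ⟨S0, hS01, hS02, hS03⟩ := exists_finite_sub (S := T) (R := S) hX (by
    rw [Set.union_comm]; exact hT5)
  rw [Set.union_comm] at hS03
  let K := closure (S0 ∪ T)
  have hKfg : K.FG := ⟨(hS02.union hT1).toFinset, by simp [K]⟩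
  obtain ⟨k1, T1, k2⟩ := ker_factor htf hli (MM_free A) hfree hD _ K hKfg rfl
  let K2 := dker D hD ⊓ K
  have hS0B : S0 ⊆ S ∪ T ∪ R' := fun x hx => Or.inl (Or.inl (hS01 hx))
  obtain ⟨D0, hD0, hD0k⟩ := exists_der_ker hT4 hS0B
  obtain ⟨-, T2, k3⟩ := ker_factor htf hli (MM_free A) hfree hD0 _ K2 k1 rfl
  have hS0K2 : closure S0 ≤ K2 := by
    rw [closure_le]
    intro s hs
    exact ⟨hSk s (hS01 hs), subset_closure (Or.inl hs)⟩
  have hd0 : dker D0 hD0 ⊓ K2 = closure S0 := by
    apply le_antisymm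
    · rintro a ⟨ha, -⟩
      exact (hD0k a).1 ha
    · intro a ha
      exact ⟨(hD0k a).2 ha, hS0K2 ha⟩
  have b1 : Bas (S0 ∪ T2) K2 := k3 S0 (by rw [hd0]; exact bas_sub hT4 hS0B)
  have b2 : Bas (S0 ∪ T2 ∪ T1) K := k2 _ b1
  have b3 : Bas (S0 ∪ T) K := bas_sub hT4 (by
    rintro x (hx | hx)
    · exact hS0B hx
    · exact Or.inl (Or.inr hx))
  -- exchange
  have b4 : Bas ((S ∪ T ∪ R') \ (S0 ∪ T) ∪ (S0 ∪ T2 ∪ T1)) ⊤ := by
    apply bas_exchange (Q := S0 ∪ T)
    · have : (S ∪ T ∪ R') \ (S0 ∪ T) ∪ (S0 ∪ T) = S ∪ T ∪ R' := by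
        apply Set.sdiff_union_of_subset
        rintro x (hx | hx)
        · exact hS0B hx
        · exact Or.inl (Or.inr hx)
      rw [this]; exact hT4
    · exact Set.disjoint_sdiff_left
    · exact b2
  have e4 := set_aux (R' := R') (T2 := T2) (T1 := T1) hT3 hS01
  rw [e4] at b4
  -- counting
  obtain ⟨e⟩ := bas_equiv b3 b2
  have f1 : (S0 ∪ T).Finite := hS02.union hT1
  have f2 : (S0 ∪ T2 ∪ T1).Finite := by
    have : Finite ↥(S0 ∪ T) := f1
    exact Set.finite_coe_iff.1 (Finite.of_equiv _ e)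
  have hcard : (S0 ∪ T).ncard = (S0 ∪ T2 ∪ T1).ncard := by
    rw [← Nat.card_coe_set_eq, ← Nat.card_coe_set_eq]
    exact Nat.card_congr e
  have hT2f : (T2 \ S).Finite := f2.subset (by
    intro x hx
    exact Or.inl (Or.inr hx.1))
  have hne : S0 ∪ T2 ≠ S0 ∪ T2 ∪ T1 := by
    intro h1
    apply htk
    have h2 : K2 = K := by
      rw [← b1.2, h1, b2.2]
    have h3 : t ∈ K := subset_closure (Or.inr ht)
    rw [← h2] at h3
    exact h3.1
  have hlt : (S0 ∪ T2).ncard < (S0 ∪ T2 ∪ T1).ncard := by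
    apply Set.ncard_lt_ncard _ f2
    exact Set.ssubset_iff_subset_ne.2 ⟨Set.subset_union_left, hne⟩
  have f3 : (S0 ∪ T2).Finite := f2.subset Set.subset_union_left
  have h5 : S0.ncard + (T2 \ S).ncard ≤ (S0 ∪ T2).ncard := by
    have hdis : Disjoint S0 (T2 \ S) := by
      rw [Set.disjoint_left]
      intro x hx hx2
      exact hx2.2 (hS01 hx)
    rw [← Set.ncard_union_eq hdis hS02 hT2f]
    apply Set.ncard_le_ncard _ f3
    rintro x (hx | hx)
    · exact Or.inl hx
    · exact Or.inr hx.1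
  have h6 : (S0 ∪ T).ncard ≤ S0.ncard + T.ncard := Set.ncard_union_le _ _
  have h7 := hmin (T2 \ S).ncard ⟨T2 \ S, T1 ∪ (R' \ (S0 ∪ T)), hT2f, rfl,
    Set.disjoint_sdiff_right, b4, by
      intro x hx
      have h8 : x ∈ K2 := ⟨hXk x hx, hS03 hx⟩
      rw [← b1.2] at h8
      rw [Set.union_sdiff_self]
      exact closure_mono (Set.union_subset_union_left _ hS01) h8⟩
  omega

end main

end Pool.Agent.Zk56.LR
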