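import Mathlib

/-!
# Nested generating families of cuts (Dunwoody)

For a connected graph `X` and a number `N` there is a canonical nested family `EE X N` of cuts with at
most `N` edges in the coboundary which generates the Boolean algebra generated by all such cuts.
-/

set_option autoImplicit false

namespace Pool.Agent.Zk56.LR

open Set

variable {V : Type}

/-- directed coboundary -/
def bd (X : SimpleGraph V) (A : Set V) : Set (V × V) := {p | X.Adj p.1 p.2 ∧ p.1 ∈ A ∧ p.2 ∉ A}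

/-- Boolean algebra generated by a family -/
inductive BA (G : Set (Set V)) : Set V → Prop
  | base {A : Set V} : A ∈ G → BA G A
  | empty : BA G ∅
  | compl {A : Set V} : BA G A → BA G Aᶜ
  | inter {A B : Set V} : BA G A → BA G B → BA G (A ∩ B)

theorem BA.union {G : Set (Set V)} {A B : Set V} (hA : BA G A) (hB : BA G B) : BA G (A ∪ B) := by
  have := (hA.compl.inter hB.compl).compl
  rwa [← Set.compl_union, compl_compl] at this

theorem BA.of_compl {G : Set (Set V)} {A : Set V} (hA : BA G Aᶜ) : BA G A := by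
  have := hA.compl
  rwa [compl_compl] at this

theorem BA.trans {G G' : Set (Set V)} (h : ∀ A ∈ G, BA G' A) {A : Set V} (hA : BA G A) : BA G' A := by
  induction hA with
  | base h1 => exact h _ h1
  | empty => exact BA.empty
  | compl _ ih => exact ih.compl
  | inter _ _ ih1 ih2 => exact ih1.inter ih2

theorem BA.mono {G G' : Set (Set V)} (h : G ⊆ G') {A : Set V} (hA : BA G A) : BA G' A :=
  hA.trans fun _ h1 => BA.base (h h1)

/-- the sets with fewer than `n` edges in the coboundary -/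
def Sm (X : SimpleGraph V) (n : ℕ) : Set (Set V) := {C | (bd X C).Finite ∧ (bd X C).ncard < n}

/-- thin sets -/
def Thin (X : SimpleGraph V) (n : ℕ) (C : Set V) : Prop :=
  (bd X C).Finite ∧ (bd X C).ncard = n ∧ ¬ BA (Sm X n) C

/-- crossing sets -/
def Cross (A B : Set V) : Prop :=
  (A ∩ B).Nonempty ∧ (A ∩ Bᶜ).Nonempty ∧ (Aᶜ ∩ B).Nonempty ∧ (Aᶜ ∩ Bᶜ).Nonempty

/-- thin sets of level at most `N` -/
def TT (X : SimpleGraph V) (N : ℕ) : Set (Set V) := {D | ∃ n ≤ N, Thin X n D}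

/-- thin sets crossing a given set -/
def DD (X : SimpleGraph V) (N : ℕ) (C : Set V) : Set (Set V) := {D | D ∈ TT X N ∧ Cross D C}

/-- number of thin sets crossing a given set -/
noncomputable def mu (X : SimpleGraph V) (N : ℕ) (C : Set V) : ℕ := (DD X N C).ncard

/-- generators of smaller complexity -/
def RR (X : SimpleGraph V) (N n m : ℕ) : Set (Set V) := Sm X n ∪ {C | Thin X n C ∧ mu X N C < m}

/-- the nested family -/
def EE (X : SimpleGraph V) (N : ℕ) : Set (Set V) :=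
  {A | ∃ n ≤ N, Thin X n A ∧ ¬ BA (RR X N n (mu X N A)) A}

section basic

variable (X : SimpleGraph V)

theorem bd_compl (A : Set V) : bd X Aᶜ = Prod.swap '' bd X A := by
  ext ⟨a, b⟩
  constructor
  · rintro ⟨h1, h2, h3⟩
    exact ⟨(b, a), ⟨h1.symm, not_not.1 h3, h2⟩, rfl⟩
  · rintro ⟨⟨c, d⟩, ⟨h1, h2, h3⟩, h4⟩
    simp only [Prod.swap_prod_mk, Prod.mk.injEq] at h4
    obtain ⟨rfl, rfl⟩ := h4
    exact ⟨h1.symm, h3, not_not.2 h2⟩

theorem bd_compl_ncard (A : Set V) : (bd X Aᶜ).ncard = (bd X A).ncard := by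
  rw [bd_compl]
  exact Set.ncard_image_of_injective _ Prod.swap_injective

theorem bd_compl_finite {A : Set V} (h : (bd X A).Finite) : (bd X Aᶜ).Finite := by
  rw [bd_compl]
  exact h.image _

theorem bd_inter_subset (A B : Set V) : bd X (A ∩ B) ⊆ bd X A ∪ bd X B := by
  rintro ⟨a, b⟩ ⟨h1, h2, h3⟩
  by_cases hb : b ∈ A
  · exact Or.inr ⟨h1, h2.2, fun h => h3 ⟨hb, h⟩⟩
  · exact Or.inl ⟨h1, h2.1, hb⟩

theorem bd_union_subset (A B : Set V) : bd X (A ∪ B) ⊆ bd X A ∪ bd X B := by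
  rintro ⟨a, b⟩ ⟨h1, h2 | h2, h3⟩
  · exact Or.inl ⟨h1, h2, fun h => h3 (Or.inl h)⟩
  · exact Or.inr ⟨h1, h2, fun h => h3 (Or.inr h)⟩

theorem submod {A B : Set V} (hA : (bd X A).Finite) (hB : (bd X B).Finite) :
    (bd X (A ∩ B)).ncard + (bd X (A ∪ B)).ncard ≤ (bd X A).ncard + (bd X B).ncard := by
  have h1 := Set.ncard_union_add_ncard_inter (bd X A) (bd X B) hA hB
  have hf := hA.union hB
  have h2 := Set.ncard_union_add_ncard_inter (bd X (A ∩ B)) (bd X (A ∪ B))
    (hf.subset (bd_inter_subset X A B)) (hf.subset (bd_union_subset X A B))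
  rw [← h1, ← h2]
  apply Nat.add_le_add
  · exact Set.ncard_le_ncard (Set.union_subset (bd_inter_subset X A B) (bd_union_subset X A B)) hf
  · apply Set.ncard_le_ncard _ (hA.subset Set.inter_subset_left)
    rintro ⟨a, b⟩ ⟨⟨h1, h2, h3⟩, ⟨_, h5, h6⟩⟩
    exact ⟨⟨h1, h2.1, fun h => h6 (Or.inl h)⟩, ⟨h1, h2.2, fun h => h6 (Or.inr h)⟩⟩

theorem submod' {A B : Set V} (hA : (bd X A).Finite) (hB : (bd X B).Finite) :
    (bd X (A ∩ B)).ncard + (bd X (Aᶜ ∩ Bᶜ)).ncard ≤ (bd X A).ncard + (bd X B).ncard := by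
  have h := submod X hA hB
  rw [← Set.compl_union, bd_compl_ncard]
  exact h

theorem bd_inter_finite {A B : Set V} (hA : (bd X A).Finite) (hB : (bd X B).Finite) :
    (bd X (A ∩ B)).Finite := (hA.union hB).subset (bd_inter_subset X A B)

/-- internal connectedness -/
def Cn (D : Set V) : Prop :=
  ∀ B ⊆ D, B.Nonempty → (∀ a ∈ B, ∀ b ∈ D, X.Adj a b → b ∈ B) → B = D

theorem bd_nonempty (hX : X.Connected) {A : Set V} (h1 : A.Nonempty) (h2 : Aᶜ.Nonempty) :
    (bd X A).Nonempty := by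
  obtain ⟨a, ha⟩ := h1
  obtain ⟨b, hb⟩ := h2
  obtain ⟨p⟩ := hX.preconnected a b
  obtain ⟨d, -, hd1, hd2⟩ := p.exists_boundary_dart A ha hb
  exact ⟨(d.fst, d.snd), d.adj, hd1, hd2⟩

end basic

/-- Finitely many tight cuts of bounded size contain a given edge. -/
theorem fin_tight (n : ℕ) : ∀ (X : SimpleGraph V) (x y : V), X.Adj x y →
    {D : Set V | x ∈ D ∧ y ∉ D ∧ Cn X D ∧ Cn X Dᶜ ∧ (bd X D).Finite ∧ (bd X D).ncard ≤ n}.Finite := by
  induction n with
  | zero =>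
    intro X x y hxy
    convert Set.finite_empty
    rw [Set.eq_empty_iff_forall_notMem]
    rintro D ⟨h1, h2, h3, h4, h5, h6⟩
    have h7 : bd X D = ∅ := (Set.ncard_eq_zero h5).1 (Nat.le_zero.1 h6)
    have h8 : (x, y) ∈ bd X D := ⟨hxy, h1, h2⟩
    rw [h7] at h8
    exact h8
  | succ n ih =>
    intro X x y hxy
    let X' : SimpleGraph V := X.deleteEdges {s(x, y)}
    have hX' : ∀ a b, X'.Adj a b ↔ X.Adj a b ∧ ¬ s(a, b) = s(x, y) := by
      intro a b
      simp [X', SimpleGraph.deleteEdges_adj]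
    -- tightness passes to `X'`
    have hcn : ∀ D : Set V, ¬ (x ∈ D ∧ y ∈ D) → Cn X D → Cn X' D := by
      intro D hD hc B hB hne hcl
      apply hc B hB hne
      intro a ha b hb hab
      apply hcl a ha b hb
      rw [hX']
      refine ⟨hab, ?_⟩
      intro h
      rw [Sym2.eq_iff] at h
      rcases h with ⟨rfl, rfl⟩ | ⟨rfl, rfl⟩
      · exact hD ⟨hB ha, hb⟩
      · exact hD ⟨hb, hB ha⟩
    have hbd : ∀ D : Set V, x ∈ D → y ∉ D → bd X' D = bd X D \ {(x, y)} := by
      intro D hx hy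
      ext ⟨a, b⟩
      constructor
      · rintro ⟨h1, h2, h3⟩
        rw [hX'] at h1
        refine ⟨⟨h1.1, h2, h3⟩, ?_⟩
        intro h
        rw [Set.mem_singleton_iff, Prod.mk.injEq] at h
        exact h1.2 (by simp only at *; rw [h.1, h.2])
      · rintro ⟨⟨h1, h2, h3⟩, h4⟩
        refine ⟨?_, h2, h3⟩
        rw [hX']
        refine ⟨h1, ?_⟩
        intro h
        simp only at h
        rw [Sym2.eq_iff] at h
        rcases h with ⟨rfl, rfl⟩ | ⟨rfl, rfl⟩
        · exact h4 rfl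
        · exact hy h2
    by_cases hr : X'.Reachable x y
    · obtain ⟨p⟩ := hr
      have hfin : (⋃ d ∈ {d | d ∈ p.darts}, {D : Set V | d.fst ∈ D ∧ d.snd ∉ D ∧ Cn X' D ∧
          Cn X' Dᶜ ∧ (bd X' D).Finite ∧ (bd X' D).ncard ≤ n}).Finite := by
        apply Set.Finite.biUnion (List.finite_toSet _)
        intro d _
        exact ih X' d.fst d.snd d.adj
      apply hfin.subset
      rintro D ⟨h1, h2, h3, h4, h5, h6⟩
      obtain ⟨d, hd, hd1, hd2⟩ := p.exists_boundary_dart D h1 h2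
      simp only [Set.mem_iUnion]
      refine ⟨d, hd, hd1, hd2, hcn D (fun h => h2 h.2) h3, hcn Dᶜ (fun h => h.1 h1) h4, ?_, ?_⟩
      · rw [hbd D h1 h2]
        exact h5.subset Set.sdiff_subset
      · rw [hbd D h1 h2]
        have h7 : (x, y) ∈ bd X D := ⟨hxy, h1, h2⟩
        have h8 := Set.ncard_sdiff_singleton_lt_of_mem h7 h5
        omega
    · apply (Set.finite_singleton {v | X'.Reachable x v}).subset
      rintro D ⟨h1, h2, h3, h4, h5, h6⟩
      rw [Set.mem_singleton_iff]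
      have e1 : D ∩ {v | X'.Reachable x v} = D := by
        apply h3 _ Set.inter_subset_left ⟨x, h1, SimpleGraph.Reachable.refl x⟩
        rintro a ⟨ha1, ha2⟩ b hb hab
        refine ⟨hb, ?_⟩
        have h7 : X'.Adj a b := by
          rw [hX']
          refine ⟨hab, ?_⟩
          intro h
          rw [Sym2.eq_iff] at h
          rcases h with ⟨rfl, rfl⟩ | ⟨rfl, rfl⟩
          · exact h2 hb
          · exact h2 ha1
        exact SimpleGraph.Reachable.trans ha2 h7.reachable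
      have e2 : Dᶜ ∩ {v | X'.Reachable x v} = ∅ := by
        by_contra hne
        have h8 : Dᶜ ∩ {v | X'.Reachable x v} = Dᶜ := by
          apply h4 _ Set.inter_subset_left (Set.nonempty_iff_ne_empty.2 hne)
          rintro a ⟨ha1, ha2⟩ b hb hab
          refine ⟨hb, ?_⟩
          have h7 : X'.Adj a b := by
            rw [hX']
            refine ⟨hab, ?_⟩
            intro h
            rw [Sym2.eq_iff] at h
            rcases h with ⟨rfl, rfl⟩ | ⟨rfl, rfl⟩
            · exact ha1 h1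
            · exact hb h1
          exact SimpleGraph.Reachable.trans ha2 h7.reachable
        have h9 : y ∈ Dᶜ ∩ {v | X'.Reachable x v} := by
          rw [h8]; exact h2
        exact hr h9.2
      ext v
      constructor
      · intro hv
        rw [← e1] at hv
        exact hv.2
      · intro hv
        by_contra hvD
        have : v ∈ Dᶜ ∩ {v | X'.Reachable x v} := ⟨hvD, hv⟩
        rw [e2] at this
        exact this

section thin

variable {X : SimpleGraph V}

theorem Sm_compl {n : ℕ} {C : Set V} (h : C ∈ Sm X n) : Cᶜ ∈ Sm X n := by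
  refine ⟨bd_compl_finite X h.1, ?_⟩
  rw [bd_compl_ncard]
  exact h.2

theorem Thin.compl {n : ℕ} {C : Set V} (h : Thin X n C) : Thin X n Cᶜ := by
  refine ⟨bd_compl_finite X h.1, ?_, fun h1 => h.2.2 h1.of_compl⟩
  rw [bd_compl_ncard]
  exact h.2.1

theorem Thin.nonempty {n : ℕ} {C : Set V} (h : Thin X n C) : C.Nonempty := by
  rw [Set.nonempty_iff_ne_empty]
  rintro rfl
  exact h.2.2 BA.empty

theorem Thin.cn (hX : X.Connected) {n : ℕ} {D : Set V} (h : Thin X n D) : Cn X D := by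
  intro B hB hne hcl
  by_contra hBD
  have hne2 : (D \ B).Nonempty := by
    rw [Set.nonempty_iff_ne_empty]
    intro h1
    exact hBD (Set.Subset.antisymm hB (Set.sdiff_eq_empty.1 h1))
  have s1 : bd X B ⊆ bd X D := by
    rintro ⟨a, b⟩ ⟨h1, h2, h3⟩
    exact ⟨h1, hB h2, fun h4 => h3 (hcl a h2 b h4 h1)⟩
  have s2 : bd X (D \ B) ⊆ bd X D := by
    rintro ⟨a, b⟩ ⟨h1, h2, h3⟩
    refine ⟨h1, h2.1, fun h4 => ?_⟩
    by_cases hb : b ∈ B
    · exact h2.2 (hcl b hb a h2.1 h1.symm)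
    · exact h3 ⟨h4, hb⟩
  have n1 : (bd X B).Nonempty := by
    apply bd_nonempty X hX hne
    obtain ⟨d, hd⟩ := hne2
    exact ⟨d, hd.2⟩
  have n2 : (bd X (D \ B)).Nonempty := by
    apply bd_nonempty X hX hne2
    obtain ⟨d, hd⟩ := hne
    exact ⟨d, fun h => h.2 hd⟩
  have hdis : Disjoint (bd X B) (bd X (D \ B)) := by
    rw [Set.disjoint_left]
    rintro ⟨a, b⟩ ⟨_, h2, _⟩ ⟨_, h5, _⟩
    exact h5.2 h2
  have f1 := h.1.subset s1
  have f2 := h.1.subset s2
  have hc : (bd X B).ncard + (bd X (D \ B)).ncard ≤ n := by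
    rw [← h.2.1, ← Set.ncard_union_eq hdis f1 f2]
    exact Set.ncard_le_ncard (Set.union_subset s1 s2) h.1
  have c1 : 0 < (bd X B).ncard := (Set.ncard_pos f1).2 n1
  have c2 : 0 < (bd X (D \ B)).ncard := (Set.ncard_pos f2).2 n2
  apply h.2.2
  have : D = B ∪ (D \ B) := (Set.union_sdiff_cancel hB).symm
  rw [this]
  have m1 : B ∈ Sm X n := ⟨f1, by omega⟩
  have m2 : D \ B ∈ Sm X n := ⟨f2, by omega⟩
  exact (BA.base m1).union (BA.base m2)

theorem TT_cut_finite (hX : X.Connected) (N : ℕ) (x y : V) :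
    {D | D ∈ TT X N ∧ x ∈ D ∧ y ∉ D}.Finite := by
  obtain ⟨p⟩ := hX.preconnected x y
  have hfin : (⋃ d ∈ {d | d ∈ p.darts}, {D : Set V | d.fst ∈ D ∧ d.snd ∉ D ∧ Cn X D ∧
      Cn X Dᶜ ∧ (bd X D).Finite ∧ (bd X D).ncard ≤ N}).Finite := by
    apply Set.Finite.biUnion (List.finite_toSet _)
    intro d _
    exact fin_tight N X d.fst d.snd d.adj
  apply hfin.subset
  rintro D ⟨⟨n, hn, hD⟩, h1, h2⟩
  obtain ⟨d, hd, hd1, hd2⟩ := p.exists_boundary_dart D h1 h2
  simp only [Set.mem_iUnion]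
  exact ⟨d, hd, hd1, hd2, hD.cn hX, hD.compl.cn hX, hD.1, by rw [hD.2.1]; exact hn⟩

theorem DD_finite (hX : X.Connected) (N : ℕ) {C : Set V} (hC : (bd X C).Finite) :
    (DD X N C).Finite := by
  have hS : ((fun p : V × V => p.1) '' bd X C).Finite := hC.image _
  have hfin : (⋃ x ∈ (fun p : V × V => p.1) '' bd X C, ⋃ y ∈ (fun p : V × V => p.1) '' bd X C,
      {D | D ∈ TT X N ∧ x ∈ D ∧ y ∉ D}).Finite := by
    apply hS.biUnion
    intro x _
    apply hS.biUnion
    intro y _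
    exact TT_cut_finite hX N x y
  apply hfin.subset
  rintro D ⟨hD, c1, c2, c3, c4⟩
  obtain ⟨n, hn, hD'⟩ := hD
  have key : ∀ D' : Set V, Cn X D' → (D' ∩ C).Nonempty → (D' ∩ Cᶜ).Nonempty →
      ∃ p ∈ bd X C, p.1 ∈ D' := by
    intro D' hcn g1 g2
    by_contra hno
    push Not at hno
    have : D' ∩ C = D' := by
      apply hcn _ Set.inter_subset_left g1
      rintro a ⟨ha1, ha2⟩ b hb hab
      refine ⟨hb, ?_⟩
      by_contra hbC
      exact hno (a, b) ⟨hab, ha2, hbC⟩ ha1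
    obtain ⟨z, hz1, hz2⟩ := g2
    rw [← this] at hz1
    exact hz2 hz1.2
  obtain ⟨p, hp, hpD⟩ := key D (hD'.cn hX) c1 c2
  obtain ⟨q, hq, hqD⟩ := key Dᶜ (hD'.compl.cn hX) c3 c4
  simp only [Set.mem_iUnion]
  exact ⟨p.1, ⟨p, hp, rfl⟩, q.1, ⟨q, hq, rfl⟩, ⟨n, hn, hD'⟩, hpD, hqD⟩

theorem TT_compl {N : ℕ} {D : Set V} (h : D ∈ TT X N) : Dᶜ ∈ TT X N := by
  obtain ⟨n, hn, hD⟩ := h
  exact ⟨n, hn, hD.compl⟩

theorem Cross.compl_right {A B : Set V} (h : Cross A B) : Cross A Bᶜ := by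
  obtain ⟨h1, h2, h3, h4⟩ := h
  refine ⟨h2, ?_, h4, ?_⟩ <;> rwa [compl_compl]

theorem Cross.symm {A B : Set V} (h : Cross A B) : Cross B A := by
  obtain ⟨h1, h2, h3, h4⟩ := h
  refine ⟨?_, ?_, ?_, ?_⟩
  · rwa [Set.inter_comm]
  · rwa [Set.inter_comm]
  · rwa [Set.inter_comm]
  · rwa [Set.inter_comm]

theorem Cross.compl_left {A B : Set V} (h : Cross A B) : Cross Aᶜ B := h.symm.compl_right.symm

theorem DD_compl (N : ℕ) (C : Set V) : DD X N Cᶜ = DD X N C := by
  ext D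
  constructor
  · rintro ⟨h1, h2⟩
    refine ⟨h1, ?_⟩
    have := h2.compl_right
    rwa [compl_compl] at this
  · rintro ⟨h1, h2⟩
    exact ⟨h1, h2.compl_right⟩

theorem mu_compl (N : ℕ) (C : Set V) : mu X N Cᶜ = mu X N C := by
  unfold mu
  rw [DD_compl]

/-- crossing a corner implies crossing one of the two sets -/
theorem cross_corner {A B D : Set V} (hAB : Cross A B) (h : Cross D (A ∩ B)) :
    Cross D A ∨ Cross D B := by
  obtain ⟨⟨x, hx1, hx2, hx3⟩, ⟨y, hy1, hy2⟩, ⟨z, hz1, hz2, hz3⟩, ⟨w, hw1, hw2⟩⟩ := h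
  obtain ⟨-, -, -, ⟨u, hu1, hu2⟩⟩ := hAB
  by_contra hno
  push Not at hno
  obtain ⟨n1, n2⟩ := hno
  by_cases a1 : (D ∩ Aᶜ).Nonempty
  · by_cases a2 : (Dᶜ ∩ Aᶜ).Nonempty
    · exact n1 ⟨⟨x, hx1, hx2⟩, a1, ⟨z, hz1, hz2⟩, a2⟩
    · -- Dᶜ ⊆ A
      by_cases b1 : (D ∩ Bᶜ).Nonempty
      · by_cases b2 : (Dᶜ ∩ Bᶜ).Nonempty
        · exact n2 ⟨⟨x, hx1, hx3⟩, b1, ⟨z, hz1, hz3⟩, b2⟩
        · -- Dᶜ ⊆ A ∩ B
          apply hw2
          constructor
          · by_contra hh; exact a2 ⟨w, hw1, hh⟩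
          · by_contra hh; exact b2 ⟨w, hw1, hh⟩
      · -- Dᶜ ⊆ A, D ⊆ B
        by_cases hu : u ∈ D
        · exact b1 ⟨u, hu, hu2⟩
        · exact a2 ⟨u, hu, hu1⟩
  · -- D ⊆ A
    by_cases b1 : (D ∩ Bᶜ).Nonempty
    · by_cases b2 : (Dᶜ ∩ Bᶜ).Nonempty
      · exact n2 ⟨⟨x, hx1, hx3⟩, b1, ⟨z, hz1, hz3⟩, b2⟩
      · -- D ⊆ A, Dᶜ ⊆ B
        by_cases hu : u ∈ D
        · exact a1 ⟨u, hu, hu1⟩
        · exact b2 ⟨u, hu, hu2⟩
    · apply hy2
      constructor
      · by_contra hh; exact a1 ⟨y, hy1, hh⟩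
      · by_contra hh; exact b1 ⟨y, hy1, hh⟩

theorem cross_irrefl (A : Set V) : ¬ Cross A A := by
  rintro ⟨-, ⟨x, hx1, hx2⟩, -, -⟩
  exact hx2 hx1

theorem mu_lt (hX : X.Connected) {N : ℕ} {A B : Set V} (hA : A ∈ TT X N) (hB : B ∈ TT X N)
    (hAB : Cross A B) : mu X N (A ∩ B) + mu X N (Aᶜ ∩ Bᶜ) < mu X N A + mu X N B := by
  have fA : (bd X A).Finite := by obtain ⟨n, _, h⟩ := hA; exact h.1
  have fB : (bd X B).Finite := by obtain ⟨n, _, h⟩ := hB; exact h.1
  have d1 := DD_finite hX N fA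
  have d2 := DD_finite hX N fB
  have d3 := DD_finite hX N (bd_inter_finite X fA fB)
  have d4 := DD_finite hX N (bd_inter_finite X (bd_compl_finite X fA) (bd_compl_finite X fB))
  unfold mu
  rw [← Set.ncard_union_add_ncard_inter _ _ d1 d2, ← Set.ncard_union_add_ncard_inter _ _ d3 d4]
  apply Nat.add_lt_add_of_lt_of_le
  · apply Set.ncard_lt_ncard _ (d1.union d2)
    rw [Set.ssubset_iff_of_subset]
    · refine ⟨A, Or.inr ⟨hA, hAB⟩, ?_⟩
      rintro (⟨-, h⟩ | ⟨-, h⟩)
      · obtain ⟨-, -, ⟨x, hx1, hx2, -⟩, -⟩ := h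
        exact hx1 hx2
      · obtain ⟨⟨x, hx1, hx2, -⟩, -⟩ := h
        exact hx2 hx1
    · rintro D (⟨h1, h2⟩ | ⟨h1, h2⟩)
      · rcases cross_corner hAB h2 with h3 | h3
        · exact Or.inl ⟨h1, h3⟩
        · exact Or.inr ⟨h1, h3⟩
      · rcases cross_corner hAB.compl_left.compl_right h2 with h3 | h3
        · refine Or.inl ⟨h1, ?_⟩
          have := h3.compl_right
          rwa [compl_compl] at this
        · refine Or.inr ⟨h1, ?_⟩
          have := h3.compl_right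
          rwa [compl_compl] at this
  · apply Set.ncard_le_ncard _ (d1.subset Set.inter_subset_left)
    rintro D ⟨⟨h0, ⟨x, hx1, hx2, hx3⟩, -, ⟨z, hz1, hz2, hz3⟩, -⟩,
      ⟨-, ⟨x', hx1', hx2', hx3'⟩, -, ⟨z', hz1', hz2', hz3'⟩, -⟩⟩
    exact ⟨⟨h0, ⟨x, hx1, hx2⟩, ⟨x', hx1', hx2'⟩, ⟨z, hz1, hz2⟩, ⟨z', hz1', hz2'⟩⟩,
      ⟨h0, ⟨x, hx1, hx3⟩, ⟨x', hx1', hx3'⟩, ⟨z, hz1, hz3⟩, ⟨z', hz1', hz3'⟩⟩⟩

theorem RR_compl {N n m : ℕ} {C : Set V} (h : C ∈ RR X N n m) : Cᶜ ∈ RR X N n m := by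
  rcases h with h | ⟨h1, h2⟩
  · exact Or.inl (Sm_compl h)
  · exact Or.inr ⟨h1.compl, by rw [mu_compl]; exact h2⟩

theorem Sm_mono {n n' : ℕ} (h : n ≤ n') : Sm X n ⊆ Sm X n' := by
  rintro C ⟨h1, h2⟩
  exact ⟨h1, by omega⟩

theorem EE_compl {N : ℕ} {A : Set V} (h : A ∈ EE X N) : Aᶜ ∈ EE X N := by
  obtain ⟨n, hn, h1, h2⟩ := h
  refine ⟨n, hn, h1.compl, fun h3 => h2 ?_⟩
  rw [mu_compl] at h3
  exact h3.of_compl

theorem EE_TT {N : ℕ} {A : Set V} (h : A ∈ EE X N) : A ∈ TT X N := by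
  obtain ⟨n, hn, h1, h2⟩ := h
  exact ⟨n, hn, h1⟩

theorem EE_gen {N : ℕ} : ∀ (n : ℕ), n ≤ N → ∀ C : Set V, (bd X C).Finite → (bd X C).ncard = n →
    BA (EE X N) C := by
  intro n
  induction n using Nat.strong_induction_on with
  | _ n ih =>
    intro hn
    have hsm : ∀ C ∈ Sm X n, BA (EE X N) C := by
      rintro C ⟨h1, h2⟩
      exact ih _ h2 (by omega) C h1 rfl
    have key : ∀ m : ℕ, ∀ C : Set V, Thin X n C → mu X N C = m → BA (EE X N) C := by
      intro m
      induction m using Nat.strong_induction_on with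
      | _ m ih2 =>
        intro C hC hm
        by_cases hE : BA (RR X N n (mu X N C)) C
        · apply hE.trans
          rintro A (hA | ⟨hA1, hA2⟩)
          · exact hsm A hA
          · exact ih2 _ (by omega) A hA1 rfl
        · exact BA.base ⟨n, hn, hC, hE⟩
    intro C h1 h2
    by_cases h3 : BA (Sm X n) C
    · exact h3.trans hsm
    · exact key _ C ⟨h1, h2, h3⟩ rfl

/-- the asymmetric part of the nestedness -/
theorem nested_aux (hX : X.Connected) {N n k : ℕ} {A B : Set V} (hn : n ≤ N) (hk : k ≤ N)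
    (hA : Thin X n A) (hA2 : ¬ BA (RR X N n (mu X N A)) A)
    (hB : Thin X k B) (hB2 : ¬ BA (RR X N k (mu X N B)) B)
    (hAB : Cross A B)
    (hBR : BA (RR X N n (mu X N A)) B)
    (hcase : ¬ BA (RR X N n (mu X N A)) (A ∩ B)) : False := by
  -- `R = RR X N n (mu A)`
  have c1 : ¬ BA (RR X N n (mu X N A)) (Aᶜ ∩ B) := by
    intro h
    apply hcase
    have h2 := hBR.inter h.compl
    have e : B ∩ (Aᶜ ∩ B)ᶜ = A ∩ B := by
      ext x; simp only [Set.mem_inter_iff, Set.mem_compl_iff]; tauto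
    rwa [e] at h2
  have big : ∀ C : Set V, (bd X C).Finite → ¬ BA (RR X N n (mu X N A)) C → n ≤ (bd X C).ncard := by
    intro C hC h
    by_contra hlt
    exact h (BA.base (Or.inl ⟨hC, by omega⟩))
  have f1 := bd_inter_finite X hA.1 hB.1
  have f2 := bd_inter_finite X (bd_compl_finite X hA.1) hB.1
  have f3 := bd_inter_finite X hA.1 (bd_compl_finite X hB.1)
  have f4 := bd_inter_finite X (bd_compl_finite X hA.1) (bd_compl_finite X hB.1)
  have b1 := big _ f1 hcase
  have b2 := big _ f2 c1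
  have s1 := submod' X hA.1 hB.1
  have s2 := submod' X hA.1 (bd_compl_finite X hB.1)
  rw [compl_compl, bd_compl_ncard, hA.2.1, hB.2.1] at s2
  rw [hA.2.1, hB.2.1] at s1
  have hsplit : ¬ BA (RR X N k (mu X N B)) (Aᶜ ∩ Bᶜ) ∨ ¬ BA (RR X N k (mu X N B)) (A ∩ Bᶜ) := by
    by_contra hcon
    push Not at hcon
    apply hB2
    have h2 := hcon.1.union hcon.2
    have e : Aᶜ ∩ Bᶜ ∪ A ∩ Bᶜ = Bᶜ := by
      ext x; simp only [Set.mem_inter_iff, Set.mem_compl_iff, Set.mem_union]; tauto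
    rw [e] at h2
    exact h2.of_compl
  have big' : ∀ C : Set V, (bd X C).Finite → ¬ BA (RR X N k (mu X N B)) C → k ≤ (bd X C).ncard := by
    intro C hC h
    by_contra hlt
    exact h (BA.base (Or.inl ⟨hC, by omega⟩))
  have thA : ∀ C : Set V, (bd X C).Finite → ¬ BA (RR X N n (mu X N A)) C → (bd X C).ncard = n →
      mu X N A ≤ mu X N C := by
    intro C hC h hc
    by_contra hlt
    apply h
    apply BA.base
    refine Or.inr ⟨⟨hC, hc, fun h5 => h (h5.mono Set.subset_union_left)⟩, by omega⟩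
  have thB : ∀ C : Set V, (bd X C).Finite → ¬ BA (RR X N k (mu X N B)) C → (bd X C).ncard = k →
      mu X N B ≤ mu X N C := by
    intro C hC h hc
    by_contra hlt
    apply h
    apply BA.base
    refine Or.inr ⟨⟨hC, hc, fun h5 => h (h5.mono Set.subset_union_left)⟩, by omega⟩
  have tA : A ∈ TT X N := ⟨n, hn, hA⟩
  have tB : B ∈ TT X N := ⟨k, hk, hB⟩
  rcases hsplit with h | h
  · have b3 := big' _ f4 h
    have g1 := thA _ f1 hcase (by omega)
    have g2 := thB _ f4 h (by omega)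
    have := mu_lt hX tA tB hAB
    omega
  · have b3 := big' _ f3 h
    have g1 := thA _ f2 c1 (by omega)
    have g2 := thB _ f3 h (by omega)
    have := mu_lt hX tA (TT_compl tB) hAB.compl_right
    rw [compl_compl, mu_compl] at this
    omega

theorem nested_aux2 (hX : X.Connected) {N n k : ℕ} {A B : Set V} (hn : n ≤ N) (hk : k ≤ N)
    (hA : Thin X n A) (hA2 : ¬ BA (RR X N n (mu X N A)) A)
    (hB : Thin X k B) (hB2 : ¬ BA (RR X N k (mu X N B)) B)
    (hAB : Cross A B)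
    (hBR : BA (RR X N n (mu X N A)) B) : False := by
  by_cases hcase : BA (RR X N n (mu X N A)) (A ∩ B)
  · -- use the complement of `B`
    apply nested_aux hX hn hk hA hA2 hB.compl (B := Bᶜ)
      (fun h => hB2 (by rw [mu_compl] at h; exact h.of_compl)) hAB.compl_right hBR.compl
    intro h
    apply hA2
    have h2 := hcase.union h
    have e : A ∩ B ∪ A ∩ Bᶜ = A := by
      ext x; simp only [Set.mem_inter_iff, Set.mem_compl_iff, Set.mem_union]; tauto
    rwa [e] at h2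
  · exact nested_aux hX hn hk hA hA2 hB hB2 hAB hBR hcase

/-- **The family is nested.** -/
theorem EE_nested (hX : X.Connected) {N : ℕ} {A B : Set V} (hA : A ∈ EE X N) (hB : B ∈ EE X N) :
    ¬ Cross A B := by
  intro hAB
  obtain ⟨n, hn, hA1, hA2⟩ := hA
  obtain ⟨k, hk, hB1, hB2⟩ := hB
  rcases lt_trichotomy n k with h | h | h
  · exact nested_aux2 hX hk hn hB1 hB2 hA1 hA2 hAB.symm
      (BA.base (Or.inl ⟨hA1.1, by rw [hA1.2.1]; exact h⟩))
  · subst h
    rcases lt_trichotomy (mu X N A) (mu X N B) with h | h | h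
    · exact nested_aux2 hX hk hn hB1 hB2 hA1 hA2 hAB.symm (BA.base (Or.inr ⟨hA1, h⟩))
    · -- equal complexity
      have tA : A ∈ TT X N := ⟨n, hn, hA1⟩
      have tB : B ∈ TT X N := ⟨n, hk, hB1⟩
      rw [← h] at hB2
      have f1 := bd_inter_finite X hA1.1 hB1.1
      have f2 := bd_inter_finite X (bd_compl_finite X hA1.1) hB1.1
      have f3 := bd_inter_finite X hA1.1 (bd_compl_finite X hB1.1)
      have f4 := bd_inter_finite X (bd_compl_finite X hA1.1) (bd_compl_finite X hB1.1)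
      have s1 := submod' X hA1.1 hB1.1
      have s2 := submod' X hA1.1 (bd_compl_finite X hB1.1)
      rw [compl_compl, bd_compl_ncard, hA1.2.1, hB1.2.1] at s2
      rw [hA1.2.1, hB1.2.1] at s1
      have m1 := mu_lt hX tA tB hAB
      have m2 := mu_lt hX tA (TT_compl tB) hAB.compl_right
      rw [compl_compl, mu_compl] at m2
      have big : ∀ C : Set V, (bd X C).Finite → ¬ BA (RR X N n (mu X N A)) C →
          n ≤ (bd X C).ncard := by
        intro C hC h
        by_contra hlt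
        exact h (BA.base (Or.inl ⟨hC, by omega⟩))
      have thA : ∀ C : Set V, (bd X C).Finite → ¬ BA (RR X N n (mu X N A)) C →
          (bd X C).ncard = n → mu X N A ≤ mu X N C := by
        intro C hC h hc
        by_contra hlt
        apply h
        apply BA.base
        refine Or.inr ⟨⟨hC, hc, fun h5 => h (h5.mono Set.subset_union_left)⟩, by omega⟩
      have opp1 : BA (RR X N n (mu X N A)) (A ∩ B) ∨ BA (RR X N n (mu X N A)) (Aᶜ ∩ Bᶜ) := by
        by_contra hcon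
        push Not at hcon
        have g1 := big _ f1 hcon.1
        have g2 := big _ f4 hcon.2
        have := thA _ f1 hcon.1 (by omega)
        have := thA _ f4 hcon.2 (by omega)
        omega
      have opp2 : BA (RR X N n (mu X N A)) (A ∩ Bᶜ) ∨ BA (RR X N n (mu X N A)) (Aᶜ ∩ B) := by
        by_contra hcon
        push Not at hcon
        have g1 := big _ f3 hcon.1
        have g2 := big _ f2 hcon.2
        have := thA _ f3 hcon.1 (by omega)
        have := thA _ f2 hcon.2 (by omega)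
        omega
      have e1 : A ∩ B ∪ A ∩ Bᶜ = A := by
        ext x; simp only [Set.mem_inter_iff, Set.mem_compl_iff, Set.mem_union]; tauto
      have e2 : A ∩ B ∪ Aᶜ ∩ B = B := by
        ext x; simp only [Set.mem_inter_iff, Set.mem_compl_iff, Set.mem_union]; tauto
      have e3 : Aᶜ ∩ Bᶜ ∪ A ∩ Bᶜ = Bᶜ := by
        ext x; simp only [Set.mem_inter_iff, Set.mem_compl_iff, Set.mem_union]; tauto
      have e4 : Aᶜ ∩ Bᶜ ∪ Aᶜ ∩ B = Aᶜ := by
        ext x; simp only [Set.mem_inter_iff, Set.mem_compl_iff, Set.mem_union]; tauto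
      rcases opp1 with o1 | o1 <;> rcases opp2 with o2 | o2
      · exact hA2 (by have := o1.union o2; rwa [e1] at this)
      · exact hB2 (by have := o1.union o2; rwa [e2] at this)
      · exact hB2 (by have := o1.union o2; rw [e3] at this; exact this.of_compl)
      · exact hA2 (by have := o1.union o2; rw [e4] at this; exact this.of_compl)
    · exact nested_aux2 hX hn hk hA1 hA2 hB1 hB2 hAB (BA.base (Or.inr ⟨hB1, h⟩))
  · exact nested_aux2 hX hn hk hA1 hA2 hB1 hB2 hAB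
      (BA.base (Or.inl ⟨hB1.1, by rw [hB1.2.1]; exact h⟩))

end thin

section invariance

variable {X : SimpleGraph V} (σ : V ≃ V) (hσ : ∀ a b, X.Adj (σ a) (σ b) ↔ X.Adj a b)

include hσ

theorem bd_image (C : Set V) : bd X (σ '' C) = (fun p : V × V => (σ p.1, σ p.2)) '' bd X C := by
  ext ⟨a, b⟩
  constructor
  · rintro ⟨h1, ⟨a', h2, h2'⟩, h3⟩
    simp only at h1 h2' h3
    refine ⟨(a', σ.symm b), ⟨?_, h2, ?_⟩, ?_⟩
    · simp only
      rw [← hσ, Equiv.apply_symm_apply, h2']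
      exact h1
    · intro h4
      exact h3 ⟨_, h4, σ.apply_symm_apply b⟩
    · simp only [Equiv.apply_symm_apply, Prod.mk.injEq, and_true]
      exact h2'
  · rintro ⟨⟨c, d⟩, ⟨h1, h2, h3⟩, h4⟩
    simp only [Prod.mk.injEq] at h4 h1 h2 h3
    obtain ⟨rfl, rfl⟩ := h4
    refine ⟨(hσ c d).2 h1, ⟨c, h2, rfl⟩, ?_⟩
    rintro ⟨e, he, he2⟩
    rw [σ.injective he2] at he
    exact h3 he

theorem bd_image_ncard (C : Set V) : (bd X (σ '' C)).ncard = (bd X C).ncard := by
  rw [bd_image σ hσ]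
  apply Set.ncard_image_of_injective
  rintro ⟨a, b⟩ ⟨c, d⟩ h
  simp only [Prod.mk.injEq, EmbeddingLike.apply_eq_iff_eq] at h
  rw [h.1, h.2]

theorem bd_image_finite {C : Set V} (h : (bd X C).Finite) : (bd X (σ '' C)).Finite := by
  rw [bd_image σ hσ]
  exact h.image _

omit hσ in
theorem BA_image {G : Set (Set V)} {G' : Set (Set V)} (h : ∀ A ∈ G, σ '' A ∈ G') {A : Set V}
    (hA : BA G A) : BA G' (σ '' A) := by
  induction hA with
  | base h1 => exact BA.base (h _ h1)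
  | empty => rw [Set.image_empty]; exact BA.empty
  | compl _ ih =>
    rw [Set.image_compl_eq σ.bijective]
    exact ih.compl
  | inter _ _ ih1 ih2 =>
    rw [Set.image_inter σ.injective]
    exact ih1.inter ih2

theorem Sm_image {n : ℕ} {C : Set V} (h : C ∈ Sm X n) : σ '' C ∈ Sm X n :=
  ⟨bd_image_finite σ hσ h.1, by rw [bd_image_ncard σ hσ]; exact h.2⟩

omit hσ in
theorem symm_adj (hσ : ∀ a b, X.Adj (σ a) (σ b) ↔ X.Adj a b) (a b : V) :
    X.Adj (σ.symm a) (σ.symm b) ↔ X.Adj a b := by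
  rw [← hσ, Equiv.apply_symm_apply, Equiv.apply_symm_apply]

omit hσ in
theorem symm_image_image (C : Set V) : σ.symm '' (σ '' C) = C := by
  rw [← Set.image_comp]
  simp

theorem Thin_image {n : ℕ} {C : Set V} (h : Thin X n C) : Thin X n (σ '' C) := by
  refine ⟨bd_image_finite σ hσ h.1, by rw [bd_image_ncard σ hσ]; exact h.2.1, ?_⟩
  intro h1
  apply h.2.2
  have h2 := BA_image σ.symm (G' := Sm X n) (fun A hA => Sm_image σ.symm (symm_adj σ hσ) hA) h1
  rwa [symm_image_image] at h2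

omit hσ in
theorem Cross_image {A B : Set V} (h : Cross A B) : Cross (σ '' A) (σ '' B) := by
  obtain ⟨h1, h2, h3, h4⟩ := h
  have e := Set.image_compl_eq (s := A) σ.bijective
  have e' := Set.image_compl_eq (s := B) σ.bijective
  refine ⟨?_, ?_, ?_, ?_⟩
  · rw [← Set.image_inter σ.injective]; exact h1.image _
  · rw [← e', ← Set.image_inter σ.injective]; exact h2.image _
  · rw [← e, ← Set.image_inter σ.injective]; exact h3.image _
  · rw [← e, ← e', ← Set.image_inter σ.injective]; exact h4.image _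

theorem DD_image (N : ℕ) (C : Set V) : DD X N (σ '' C) = (fun D => σ '' D) '' DD X N C := by
  ext D
  constructor
  · rintro ⟨⟨n, hn, h1⟩, h2⟩
    refine ⟨σ.symm '' D, ⟨⟨n, hn, Thin_image σ.symm (symm_adj σ hσ) h1⟩, ?_⟩, ?_⟩
    · have := Cross_image σ.symm h2
      rwa [symm_image_image] at this
    · exact symm_image_image σ.symm D
  · rintro ⟨D', ⟨⟨n, hn, h1⟩, h2⟩, rfl⟩
    exact ⟨⟨n, hn, Thin_image σ hσ h1⟩, Cross_image σ h2⟩

theorem mu_image (N : ℕ) (C : Set V) : mu X N (σ '' C) = mu X N C := by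
  unfold mu
  rw [DD_image σ hσ]
  exact Set.ncard_image_of_injective _ (Set.image_injective.2 σ.injective)

theorem RR_image {N n m : ℕ} {C : Set V} (h : C ∈ RR X N n m) : σ '' C ∈ RR X N n m := by
  rcases h with h | ⟨h1, h2⟩
  · exact Or.inl (Sm_image σ hσ h)
  · exact Or.inr ⟨Thin_image σ hσ h1, by rw [mu_image σ hσ]; exact h2⟩

/-- **The family is invariant.** -/
theorem EE_image {N : ℕ} {A : Set V} (h : A ∈ EE X N) : σ '' A ∈ EE X N := by
  obtain ⟨n, hn, h1, h2⟩ := h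
  refine ⟨n, hn, Thin_image σ hσ h1, ?_⟩
  intro h3
  apply h2
  rw [mu_image σ hσ] at h3
  have h4 := BA_image σ.symm (G' := RR X N n (mu X N A))
    (fun A hA => RR_image σ.symm (symm_adj σ hσ) hA) h3
  rwa [symm_image_image] at h4

end invariance

end Pool.Agent.Zk56.LR
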