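import Pool.Agent.Zk56.LR.Rel1
import Pool.Agent.Helper122.Induct

/-!
# Relative extension of crossed homomorphisms
-/

set_option autoImplicit false

namespace Pool.Agent.Zk56.LR

open Pool.Agent.Helper122.Cuts (tl tl_apply tl_add IsDer FreeAct TF finite_smul_mem eq_one_of_tl_eq)

/-- coset graph -/
def cosg {L : Type} [Group L] (Z : Subgroup L) (T : Set L) : SimpleGraph (L ⧸ Z) where
  Adj a b := a ≠ b ∧ ∃ l : L, ∃ t ∈ T, (a = (l : L ⧸ Z) ∧ b = ((l * t : L) : L ⧸ Z)) ∨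
    (b = (l : L ⧸ Z) ∧ a = ((l * t : L) : L ⧸ Z))
  symm := ⟨by
    rintro a b ⟨h1, l, t, ht, h2⟩
    exact ⟨h1.symm, l, t, ht, h2.symm⟩⟩
  loopless := ⟨by
    rintro a ⟨h1, -⟩
    exact h1 rfl⟩

theorem cosg_smul {L : Type} [Group L] (Z : Subgroup L) (T : Set L) (g : L) (a b : L ⧸ Z) :
    (cosg Z T).Adj (g • a) (g • b) ↔ (cosg Z T).Adj a b := by
  have key : ∀ (g : L) (a b : L ⧸ Z), (cosg Z T).Adj a b → (cosg Z T).Adj (g • a) (g • b) := by
    rintro g a b ⟨h1, l, t, ht, h2⟩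
    refine ⟨fun h => h1 (MulAction.injective g h), g * l, t, ht, ?_⟩
    rcases h2 with ⟨rfl, rfl⟩ | ⟨rfl, rfl⟩
    · left
      exact ⟨rfl, by rw [mul_assoc]; rfl⟩
    · right
      exact ⟨rfl, by rw [mul_assoc]; rfl⟩
  refine ⟨fun h => ?_, key g a b⟩
  have := key g⁻¹ _ _ h
  rwa [inv_smul_smul, inv_smul_smul] at this

section

variable {L : Type} [Group L] (Fp Z : Subgroup L)

theorem cosg_connected (hZ : ∀ l : L, ∃ e ∈ Fp, ∃ z ∈ Z, l = e * z) (T : Set L)
    (hgen : ∀ e ∈ Fp, e ∈ Subgroup.closure (T ∪ ((Z ⊓ Fp : Subgroup L) : Set L))) :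
    (cosg Z T).Connected := by
  have key : ∀ g ∈ Subgroup.closure (T ∪ ((Z ⊓ Fp : Subgroup L) : Set L)), ∀ x : L,
      (cosg Z T).Reachable (x : L ⧸ Z) ((x * g : L) : L ⧸ Z) := by
    intro g hg
    induction hg using Subgroup.closure_induction with
    | mem u hu =>
      intro x
      by_cases h : (x : L ⧸ Z) = ((x * u : L) : L ⧸ Z)
      · rw [← h]
      · rcases hu with hu | hu
        · exact SimpleGraph.Adj.reachable ⟨h, x, u, hu, Or.inl ⟨rfl, rfl⟩⟩
        · exfalso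
          apply h
          exact (QuotientGroup.mk_mul_of_mem x hu.1).symm
    | one => intro x; rw [mul_one]
    | mul a b _ _ ha hb =>
      intro x
      rw [← mul_assoc]
      exact (ha x).trans (hb _)
    | inv a _ ha =>
      intro x
      have := ha (x * a⁻¹)
      rw [inv_mul_cancel_right] at this
      exact this.symm
  have h1 : ∀ v : L ⧸ Z, (cosg Z T).Reachable ((1 : L) : L ⧸ Z) v := by
    intro v
    obtain ⟨l, rfl⟩ := QuotientGroup.mk_surjective v
    obtain ⟨e, he, z, hz, rfl⟩ := hZ l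
    rw [QuotientGroup.mk_mul_of_mem e hz]
    have := key e (hgen e he) 1
    rwa [one_mul] at this
  have : Nonempty (L ⧸ Z) := ⟨((1 : L) : L ⧸ Z)⟩
  exact SimpleGraph.Connected.mk (fun x y => (h1 x).symm.trans (h1 y))

theorem tl_zero' {A M : Type} [Group A] [MulAction A M] (a : A) : tl a (0 : M →₀ ZMod 2) = 0 := by
  simp [tl]

theorem tl_sub'' {A M : Type} [Group A] [MulAction A M] (a : A) (x y : M →₀ ZMod 2) :
    tl a (x - y) = tl a x - tl a y := by
  ext e; simp [tl_apply]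

/-- **Relative extension.** -/
theorem relext [hN : Fp.Normal] [Fp.FiniteIndex] (hZ : ∀ l : L, ∃ e ∈ Fp, ∃ z ∈ Z, l = e * z)
    {M : Type} [MulAction Fp M] (D : Fp → (M →₀ ZMod 2)) (hD : IsDer D) (hfr : FreeAct Fp M)
    (hker : ∀ e : Fp, D e = 0 ↔ (e : L) ∈ Z) (T : Set L) (hT : T.Finite) (hTF : T ⊆ Fp)
    (hgen : ∀ e ∈ Fp, e ∈ Subgroup.closure (T ∪ ((Z ⊓ Fp : Subgroup L) : Set L)))
    (htf : TF Fp) {S : Type} (θ : L →* Equiv.Perm S) (c : L → FreeGroup S)
    (hc : ∀ a ∈ Z, ∀ b ∈ Z, c (a * b) = c a * FreeGroup.map (θ a) (c b)) :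
    ∃ c' : L → FreeGroup S, IsCr θ c' ∧ ∀ z ∈ Z, c' z = c z := by
  classical
  -- representatives in `Fp`
  have hr0 : ∀ v : L ⧸ Z, ∃ e : Fp, ((e : L) : L ⧸ Z) = v := by
    intro v
    obtain ⟨l, rfl⟩ := QuotientGroup.mk_surjective v
    obtain ⟨e, he, z, hz, rfl⟩ := hZ l
    exact ⟨⟨e, he⟩, (QuotientGroup.mk_mul_of_mem e hz).symm⟩
  choose r hr using hr0
  let Dt : L ⧸ Z → (M →₀ ZMod 2) := fun v => D (r v)
  have hDt : ∀ e : Fp, Dt ((e : L) : L ⧸ Z) = D e := by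
    intro e
    have h1 := hr ((e : L) : L ⧸ Z)
    have h2 : ((r ((e : L) : L ⧸ Z))⁻¹ * e : Fp).1 ∈ Z := QuotientGroup.eq.1 h1
    have h3 := (hker _).2 h2
    have h4 := hD (r ((e : L) : L ⧸ Z)) ((r ((e : L) : L ⧸ Z))⁻¹ * e)
    rw [mul_inv_cancel_left, h3, tl_zero', add_zero] at h4
    exact h4.symm
  -- representatives of `L ⧸ Fp` in `Z`
  have hz0 : ∀ q : L ⧸ Fp, ∃ z ∈ Z, ((z : L) : L ⧸ Fp) = q := by
    intro q
    obtain ⟨l, rfl⟩ := QuotientGroup.mk_surjective q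
    obtain ⟨e, he, z, hz, rfl⟩ := hZ l
    refine ⟨z, hz, ?_⟩
    rw [QuotientGroup.eq]
    have := hN.conj_mem e he z⁻¹
    rw [inv_inv] at this
    rwa [mul_assoc] at this
  choose zq hzq1 hzq2 using hz0
  have hs : ∀ (q : L ⧸ Fp) (t : T), zq q * t * (zq q)⁻¹ ∈ Fp := fun q t =>
    hN.conj_mem _ (hTF t.2) _
  let s : (L ⧸ Fp) → T → Fp := fun q t => ⟨zq q * t * (zq q)⁻¹, hs q t⟩
  obtain ⟨X, hXdef⟩ : ∃ X, X = cosg Z T := ⟨_, rfl⟩
  have hX : X.Connected := by rw [hXdef]; exact cosg_connected Fp Z hZ T hgen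
  have hact : ∀ (g : L) a b, X.Adj (g • a) (g • b) ↔ X.Adj a b := by
    rw [hXdef]; exact cosg_smul Z T
  have hedge : ∀ l : L, ∀ t : T, ∃ (e : Fp) (q : L ⧸ Fp), (l : L ⧸ Z) = ((e : L) : L ⧸ Z) ∧
      ((l * t : L) : L ⧸ Z) = (((e * s q t : Fp) : L) : L ⧸ Z) := by
    intro l t
    obtain ⟨z, hz⟩ : ∃ z, z = zq (l : L ⧸ Fp) := ⟨_, rfl⟩
    have hzZ : z ∈ Z := by rw [hz]; exact hzq1 _
    have h1 : l * z⁻¹ ∈ Fp := by
      have h2 : z⁻¹ * l ∈ Fp := by
        rw [hz]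
        exact QuotientGroup.eq.1 (hzq2 _)
      have h3 := hN.conj_mem _ h2 z
      rwa [mul_inv_cancel_left] at h3
    refine ⟨⟨l * z⁻¹, h1⟩, (l : L ⧸ Fp), ?_, ?_⟩
    · exact (QuotientGroup.mk_mul_of_mem l (Z.inv_mem hzZ)).symm
    · simp only [s, Subgroup.coe_mul]
      rw [← hz]
      have h2 : l * z⁻¹ * (z * (t : L) * z⁻¹) = l * t * z⁻¹ := by group
      rw [h2]
      exact (QuotientGroup.mk_mul_of_mem (l * t) (Z.inv_mem hzZ)).symm
  -- cuts
  let C : M → Set (L ⧸ Z) := fun m => {v | Dt v m ≠ 0}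
  have hquo : Finite (L ⧸ Fp) := Subgroup.finite_quotient_of_finiteIndex
  have hTf : Finite T := hT
  obtain ⟨U, hU⟩ : ∃ U : Set M, U = ⋃ (q : L ⧸ Fp), ⋃ (t : T), ((D (s q t)).support : Set M) :=
    ⟨_, rfl⟩
  have hUf : U.Finite := by
    rw [hU]
    exact Set.finite_iUnion fun q => Set.finite_iUnion fun t => Finset.finite_toSet _
  have hUf' : Finite U := hUf
  let Y := (L ⧸ Fp) × T × Bool × U
  have hYf : Finite Y := inferInstance
  obtain ⟨N, hNdef⟩ : ∃ N, N = Nat.card Y := ⟨_, rfl⟩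
  have hbd : ∀ m, (bd X (C m)).Finite ∧ (bd X (C m)).ncard ≤ N := by
    intro m
    let Φ : Y → (L ⧸ Z) × (L ⧸ Z) := fun y =>
      if h : ∃ e : Fp, e⁻¹ • m = (y.2.2.2 : M) then
        (if y.2.2.1 = true then (((h.choose : L) : L ⧸ Z),
          (((h.choose * s y.1 y.2.1 : Fp) : L) : L ⧸ Z))
        else ((((h.choose * s y.1 y.2.1 : Fp) : L) : L ⧸ Z), ((h.choose : L) : L ⧸ Z)))
      else (((1 : L) : L ⧸ Z), ((1 : L) : L ⧸ Z))
    have huniq : ∀ e e' : Fp, e⁻¹ • m = e'⁻¹ • m → e = e' := by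
      intro e e' h
      have h1 : (e' * e⁻¹) • m = m := by
        rw [mul_smul, h, smul_inv_smul]
      have h2 := hfr _ _ h1
      rw [mul_inv_eq_one] at h2
      exact h2.symm
    have hsub : bd X (C m) ⊆ Set.range Φ := by
      have key : ∀ (e : Fp) (q : L ⧸ Fp) (t : T),
          ¬ (Dt ((e : L) : L ⧸ Z) m = 0 ↔ Dt (((e * s q t : Fp) : L) : L ⧸ Z) m = 0) →
          (e⁻¹ • m) ∈ U := by
        intro e q t h
        rw [hDt, hDt, hD.apply] at h
        rw [hU]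
        simp only [Set.mem_iUnion]
        refine ⟨q, t, ?_⟩
        rw [Finset.mem_coe, Finsupp.mem_support_iff]
        intro h2
        rw [h2, add_zero] at h
        exact h Iff.rfl
      rintro ⟨a, b⟩ ⟨h1, h2, h3⟩
      rw [hXdef] at h1
      obtain ⟨-, l, t, ht, h4⟩ := h1
      simp only at h4
      have h2' : Dt a m ≠ 0 := h2
      have h3' : Dt b m = 0 := not_not.1 h3
      obtain ⟨e, q, he1, he2⟩ := hedge l ⟨t, ht⟩
      rcases h4 with ⟨rfl, rfl⟩ | ⟨rfl, rfl⟩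
      · rw [he1] at h2'
        simp only at he2
        rw [he2] at h3'
        have h5 := key e q ⟨t, ht⟩ (by tauto)
        refine ⟨(q, ⟨t, ht⟩, true, ⟨_, h5⟩), ?_⟩
        have h6 : ∃ e' : Fp, e'⁻¹ • m = e⁻¹ • m := ⟨e, rfl⟩
        simp only [Φ, dif_pos h6, if_true]
        have h7 := huniq _ _ h6.choose_spec
        rw [h7, he1, he2]
      · rw [he1] at h3'
        simp only at he2
        rw [he2] at h2'
        have h5 := key e q ⟨t, ht⟩ (by tauto)
        refine ⟨(q, ⟨t, ht⟩, false, ⟨_, h5⟩), ?_⟩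
        have h6 : ∃ e' : Fp, e'⁻¹ • m = e⁻¹ • m := ⟨e, rfl⟩
        simp only [Φ, dif_pos h6, Bool.false_eq_true, if_false]
        have h7 := huniq _ _ h6.choose_spec
        rw [h7, he1, he2]
    have hrf := Set.finite_range Φ
    refine ⟨hrf.subset hsub, (Set.ncard_le_ncard hsub hrf).trans ?_⟩
    rw [← Set.image_univ, hNdef]
    refine (Set.ncard_image_le Set.finite_univ).trans ?_
    rw [Set.ncard_univ]
  have hBA : ∀ m, BA (EE X N) (C m) := fun m => EE_gen _ (hbd m).2 _ (hbd m).1 rfl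
  -- points outside `Z` are separated from the base point
  have hsep : ∀ l : L, l ∉ Z → ∃ m, (l : L ⧸ Z) ∈ C m ∧ ((1 : L) : L ⧸ Z) ∉ C m := by
    intro l hl
    obtain ⟨e, he, z, hz, rfl⟩ := hZ l
    have h1 : D ⟨e, he⟩ ≠ 0 := by
      rw [Ne, hker]
      intro h
      exact hl (Z.mul_mem h hz)
    obtain ⟨m, hm⟩ : ∃ m, D ⟨e, he⟩ m ≠ 0 := by
      by_contra hcon
      push Not at hcon
      exact h1 (Finsupp.ext hcon)
    refine ⟨m, ?_, ?_⟩
    · show Dt _ m ≠ 0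
      rw [QuotientGroup.mk_mul_of_mem e hz]
      have := hDt ⟨e, he⟩
      simp only at this
      rw [this]
      exact hm
    · show ¬ (Dt _ m ≠ 0)
      have := hDt 1
      rw [hD.one] at this
      have h2 : Dt ((1 : L) : L ⧸ Z) = 0 := this
      rw [h2]
      simp
  by_cases hne : Nonempty (WP X N)
  swap
  · have hall : ∀ l : L, l ∈ Z := by
      intro l
      by_contra hl
      obtain ⟨m, h1, h2⟩ := hsep l hl
      exact hne (nonempty_WP (hBA m) ⟨_, h1⟩ ⟨_, h2⟩)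
    exact ⟨c, fun a b => hc a (hall a) b (hall b), fun z _ => rfl⟩
  let _ := wpAct N hact
  let _ := nodeAct (L := L) (st := wst (X := X) (N := N)) (wp_le hact) (wp_st hact)
  have hP := poc_EE (N := N) hX
  -- the principal node
  let x0 : L ⧸ Z := ((1 : L) : L ⧸ Z)
  obtain ⟨v, hv⟩ : ∃ v : Set (WP X N), v = {e | x0 ∈ e.1} := ⟨_, rfl⟩
  have hvm : ∀ e : WP X N, e ∈ v ↔ x0 ∈ e.1 := by
    intro e; rw [hv]; rfl
  have hvst : ∀ f : WP X N, wst f ∈ v ↔ f ∉ v := by
    intro f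
    rw [hvm, hvm]
    rfl
  obtain ⟨f0, hf0⟩ : ∃ f0, v = node wst f0 := by
    obtain ⟨e1, he1⟩ : ∃ e1, e1 ∈ v := by
      obtain ⟨e⟩ := hne
      by_cases h : e ∈ v
      · exact ⟨e, h⟩
      · exact ⟨wst e, (hvst e).2 h⟩
    obtain ⟨y, hy⟩ := wp_compl_nonempty e1
    have hfin : {f : WP X N | f ∈ v ∧ f ≤ e1}.Finite := by
      apply (wp_cut_finite (N := N) hX x0 y).subset
      rintro f ⟨h1, h2⟩
      exact ⟨(hvm f).1 h1, fun h3 => hy (h2 h3)⟩
    obtain ⟨f, hf⟩ := hfin.exists_minimal ⟨e1, he1, le_rfl⟩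
    refine ⟨f, eq_node_of_min hP hvst ?_ hf.prop.1 ?_⟩
    · intro a ha b hab
      rw [hvm] at ha ⊢
      exact hab ha
    · intro g hg hgf
      exact le_antisymm hgf (hf.le_of_le ⟨hg, hgf.trans hf.prop.2⟩ hgf)
  let v0 : Node (wst (X := X) (N := N)) := ⟨v, f0, hf0⟩
  -- the stabiliser of the principal node
  have hsm : ∀ (g : L) (e : WP X N) (x : L ⧸ Z), g • x ∈ (g • e).1 ↔ x ∈ e.1 := by
    intro g e x
    constructor
    · rintro ⟨y, hy, hy2⟩
      rwa [← MulAction.injective g hy2]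
    · intro h
      exact ⟨x, h, rfl⟩
  have hgx : ∀ g : L, g • x0 = (g : L ⧸ Z) := by
    intro g
    show ((g * 1 : L) : L ⧸ Z) = _
    rw [mul_one]
  have hstab : ∀ g : L, g • v0 = v0 ↔ g ∈ Z := by
    intro g
    constructor
    · intro h
      by_contra hg
      obtain ⟨m, h1, h2⟩ := hsep g hg
      have h3 : ∀ e : WP X N, (g : L ⧸ Z) ∈ e.1 ↔ x0 ∈ e.1 := by
        intro e
        have h4 : e ∈ (g • v0).1 ↔ e ∈ v0.1 := by rw [h]
        have h5 : e ∈ v0.1 ↔ x0 ∈ e.1 := hvm e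
        have h6 : e ∈ (g • v0).1 ↔ (g : L ⧸ Z) ∈ e.1 := by
          constructor
          · rintro ⟨e', he', rfl⟩
            have h7 : x0 ∈ e'.1 := (hvm e').1 he'
            rw [← hgx]
            exact (hsm g e' x0).2 h7
          · intro h7
            refine ⟨g⁻¹ • e, ?_, smul_inv_smul g e⟩
            apply (hvm _).2
            rw [← hsm g, smul_inv_smul, hgx]
            exact h7
        rw [← h6, h4, h5]
      have h4 : ∀ C' : Set (L ⧸ Z), BA (EE X N) C' → ((g : L ⧸ Z) ∈ C' ↔ x0 ∈ C') := by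
        intro C' hC'
        induction hC' with
        | @base A hA => exact h3 ⟨A, hA⟩
        | empty => exact Iff.rfl
        | compl _ ih => exact not_congr ih
        | inter _ _ ih1 ih2 => exact and_congr ih1 ih2
      exact h2 ((h4 _ (hBA m)).1 h1)
    · intro hg
      apply Subtype.ext
      show (fun x => g • x) '' v = v
      have hgx0 : g • x0 = x0 := by
        rw [hgx]
        show _ = ((1 : L) : L ⧸ Z)
        rw [eq_comm, QuotientGroup.eq]
        simpa using hg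
      ext e
      constructor
      · rintro ⟨e', he', rfl⟩
        rw [hvm] at he' ⊢
        simp only
        rw [← hgx0]
        exact (hsm g e' x0).2 he'
      · intro he
        refine ⟨g⁻¹ • e, ?_, smul_inv_smul g e⟩
        rw [hvm] at he ⊢
        rw [← hsm g, smul_inv_smul, hgx0]
        exact he
  -- stabilisers of walls are finite
  have htriv : ∀ (x y : L ⧸ Z), x ≠ y → ∀ g ∈ Fp, g • x = x → g • y = y → g = 1 := by
    intro x y hxy g hg h1 h2
    have e1 : ∀ w : L ⧸ Z, g • w = w → D ⟨g, hg⟩ = D (r w) - tl (⟨g, hg⟩ : Fp) (D (r w)) := by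
      intro w hw
      have h3 : (((⟨g, hg⟩ * r w : Fp) : L) : L ⧸ Z) = w := by
        have : (((⟨g, hg⟩ * r w : Fp) : L) : L ⧸ Z) = g • (((r w : Fp) : L) : L ⧸ Z) := rfl
        rw [this, hr, hw]
      have h4 := hDt (⟨g, hg⟩ * r w)
      rw [h3, hD] at h4
      have h5 : Dt w = D (r w) := rfl
      rw [h5] at h4
      exact eq_sub_of_add_eq h4.symm
    have h3 := e1 x h1
    rw [e1 y h2] at h3
    have h4 : tl (⟨g, hg⟩ : Fp) (D (r x) - D (r y)) = D (r x) - D (r y) := by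
      rw [tl_sub'']
      have h5 : tl (⟨g, hg⟩ : Fp) (D (r x)) = D (r x) - (D (r y) - tl (⟨g, hg⟩ : Fp) (D (r y))) := by
        rw [h3]; abel
      rw [h5]; abel
    have h5 : D (r x) - D (r y) ≠ 0 := by
      intro h6
      apply hxy
      have h7 := hD (r x) ((r x)⁻¹ * r y)
      rw [mul_inv_cancel_left, ← sub_eq_zero.1 h6] at h7
      have h8 : tl (r x) (D ((r x)⁻¹ * r y)) = 0 := by
        have := congrArg (fun u => u - D (r x)) h7
        simp only [sub_self, add_sub_cancel_left] at this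
        exact this.symm
      have h9 : D ((r x)⁻¹ * r y) = 0 := by
        have := congrArg (tl (r x)⁻¹) h8
        rw [Pool.Agent.Helper122.Cuts.tl_tl, inv_mul_cancel, Pool.Agent.Helper122.Cuts.tl_one,
          tl_zero'] at this
        exact this
      have h10 := (hker _).1 h9
      rw [← hr x, ← hr y]
      exact QuotientGroup.eq.2 h10
    have h6 := eq_one_of_tl_eq htf hfr _ h5 _ h4
    exact congrArg Subtype.val h6
  have hwfin : ∀ e : WP X N, Finite (MulAction.stabilizer L e) := by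
    intro e
    have hbf : Finite (bd X e.1) := EE_bd_finite e.2
    obtain ⟨⟨x, y⟩, hxy⟩ := EE_bd_nonempty hX e.2
    have hmem : ∀ a : MulAction.stabilizer L e, ((a : L) • x, (a : L) • y) ∈ bd X e.1 := by
      intro a
      have ha : (a : L) • e = e := a.2
      obtain ⟨h1, h2, h3⟩ := hxy
      refine ⟨(hact _ _ _).2 h1, ?_, ?_⟩
      · have := (hsm a e x).2 h2
        rwa [ha] at this
      · intro h4
        apply h3
        have h5 : (a : L) • y ∈ ((a : L) • e).1 := by rw [ha]; exact h4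
        exact (hsm a e y).1 h5
    apply Finite.of_injective (fun a : MulAction.stabilizer L e =>
      ((⟨((a : L) • x, (a : L) • y), hmem a⟩ : bd X e.1), ((a : L) : L ⧸ Fp)))
    intro a b hab
    simp only [Prod.mk.injEq, Subtype.mk.injEq] at hab
    obtain ⟨⟨h1, h2⟩, h3⟩ := hab
    have h4 : ((a : L)⁻¹ * b) ∈ Fp := QuotientGroup.eq.1 h3
    have h5 : ((a : L)⁻¹ * b) • x = x := by rw [mul_smul, ← h1, inv_smul_smul]
    have h6 : ((a : L)⁻¹ * b) • y = y := by rw [mul_smul, ← h2, inv_smul_smul]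
    have h7 := htriv x y hxy.1.ne _ h4 h5 h6
    exact Subtype.ext (inv_mul_eq_one.1 h7)
  -- the cocycle
  obtain ⟨α, hα1, hα2⟩ := exists_alpha v0 Z hstab θ c (by
    intro a ha b hb
    rw [hc a ha b hb, permAut_apply])
  obtain ⟨w, hw⟩ := exists_w (L := L) (nd (wst (X := X) (N := N))) (by
    intro a e
    exact (Subtype.ext (node_smul (wp_le hact) (wp_st hact) a e)).symm) θ α hα1 hwfin
  obtain ⟨ν, c', -, hc1, hc2⟩ := crossed_of_walls (L := L) hP (wp_le hact) (wp_st hact)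
    (permAut θ) α hα1 w hw v0
  refine ⟨c', fun a b => by rw [hc1, permAut_apply], ?_⟩
  intro z hz
  have h1 : z • v0 = v0 := (hstab z).2 hz
  have h2 : ∀ u : Node (wst (X := X) (N := N)), v0 = u →
      ∃ p : (stree hP).Walk v0 u, wval ν p = 1 := by
    rintro u rfl
    exact ⟨.nil, rfl⟩
  obtain ⟨p, hp⟩ := h2 _ h1.symm
  have h3 := hc2 z p
  rw [hp, one_mul] at h3
  rw [h3]
  exact hα2 z hz

end

end Pool.Agent.Zk56.LR
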