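import Pool.Agent.Zk56.LR.Clos
import Pool.Agent.Zk56.LR.Rel2

/-!
# Extension of crossed homomorphisms from a free factor to the whole group
-/

set_option autoImplicit false

namespace Pool.Agent.Zk56.LR

open Pool.Agent.Helper122.Cuts Subgroup

variable {Γ : Type} [Group Γ] {F : Subgroup Γ} [hFn : F.Normal] {H : Subgroup Γ}

/-- conjugation -/
noncomputable def cj (F : Subgroup Γ) [F.Normal] (H : Subgroup Γ) : H →* MulAut F :=
  (MulAut.conjNormal (H := F)).comp H.subtype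

theorem cj_apply (h : H) (x : F) : ((cj F H h x : F) : Γ) = h * x * (h : Γ)⁻¹ := by
  unfold cj
  simp [MulAut.conjNormal_apply]

/-- invariant subgroups of `F` -/
def Inv (H : Subgroup Γ) (E : Subgroup F) : Prop := ∀ h : H, ∀ y ∈ E, cj F H h y ∈ E

/-- the product set -/
def LS (H : Subgroup Γ) (E : Subgroup F) : Set Γ := {g | ∃ e ∈ E, ∃ h ∈ H, g = (e : Γ) * h}

theorem LS_mono {E E' : Subgroup F} (h : E ≤ E') : LS H E ⊆ LS H E' := by
  rintro g ⟨e, he, h', hh', rfl⟩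
  exact ⟨e, h he, h', hh', rfl⟩

theorem LS_of_mem {E : Subgroup F} {e : F} (he : e ∈ E) : (e : Γ) ∈ LS H E :=
  ⟨e, he, 1, H.one_mem, (mul_one _).symm⟩

theorem LS_of_memH {E : Subgroup F} {h : Γ} (hh : h ∈ H) : h ∈ LS H E :=
  ⟨1, E.one_mem, h, hh, (one_mul _).symm⟩

theorem LS_mul {E : Subgroup F} (hE : Inv H E) {a b : Γ} (ha : a ∈ LS H E) (hb : b ∈ LS H E) :
    a * b ∈ LS H E := by
  obtain ⟨e, he, h, hh, rfl⟩ := ha
  obtain ⟨e', he', h', hh', rfl⟩ := hb
  refine ⟨e * cj F H ⟨h, hh⟩ e', E.mul_mem he (hE _ _ he'), h * h', H.mul_mem hh hh', ?_⟩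
  rw [Subgroup.coe_mul, cj_apply]
  group

theorem LS_inv {E : Subgroup F} (hE : Inv H E) {a : Γ} (ha : a ∈ LS H E) : a⁻¹ ∈ LS H E := by
  obtain ⟨e, he, h, hh, rfl⟩ := ha
  refine ⟨cj F H (⟨h, hh⟩⁻¹) e⁻¹, hE _ _ (E.inv_mem he), h⁻¹, H.inv_mem hh, ?_⟩
  rw [cj_apply]
  simp only [InvMemClass.coe_inv, mul_inv_rev, inv_inv]
  group

/-- the product subgroup -/
def LG (H : Subgroup Γ) (E : Subgroup F) (hE : Inv H E) : Subgroup Γ where
  carrier := LS H E
  one_mem' := LS_of_memH H.one_mem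
  mul_mem' := LS_mul hE
  inv_mem' := LS_inv hE

theorem mem_LG {E : Subgroup F} {hE : Inv H E} {g : Γ} : g ∈ LG H E hE ↔ g ∈ LS H E := Iff.rfl

theorem LS_inter {E : Subgroup F} (h0 : ∀ x : F, (x : Γ) ∈ H → x ∈ E) {x : F}
    (hx : (x : Γ) ∈ LS H E) : x ∈ E := by
  obtain ⟨e, he, h, hh, hxe⟩ := hx
  have h1 : h ∈ F := by
    have : h = (e : Γ)⁻¹ * x := by rw [hxe]; group
    rw [this]
    exact F.mul_mem (F.inv_mem e.2) x.2
  have h2 := h0 ⟨h, h1⟩ hh
  have h3 : x = e * ⟨h, h1⟩ := Subtype.ext hxe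
  rw [h3]
  exact E.mul_mem he h2

/-- crossed homomorphisms on a product set -/
def CrOn {Ω : Type} (θ : Γ →* Equiv.Perm Ω) (L : Set Γ) (c : Γ → FreeGroup Ω) : Prop :=
  ∀ a ∈ L, ∀ b ∈ L, c (a * b) = c a * FreeGroup.map (θ a) (c b)

theorem cr_step [F.FiniteIndex] {Ω : Type} (θ : Γ →* Equiv.Perm Ω) (S R X0 : Set F)
    (hB : Bas (S ∪ R) ⊤) (hX0 : X0.Finite) (hS : Inv H (closure S))
    (h0 : ∀ x : F, (x : Γ) ∈ H → x ∈ closure S) (c : Γ → FreeGroup Ω)
    (hc : CrOn θ (LS H (closure S)) c) :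
    ∃ T R' : Set F, T.Finite ∧ Bas (S ∪ T ∪ R') ⊤ ∧ X0 ⊆ closure (S ∪ T) ∧
      Inv H (closure (S ∪ T)) ∧ ∃ c' : Γ → FreeGroup Ω, CrOn θ (LS H (closure (S ∪ T))) c' ∧
        ∀ g ∈ LS H (closure S), c' g = c g := by
  classical
  have hfree : IsFreeGroup F := bas_free_top hB
  have hquo : Finite (Γ ⧸ F) := Subgroup.finite_quotient_of_finiteIndex
  -- coset representatives
  have hq : ∀ q : Γ ⧸ F, ∃ h : H, ((∃ h' : H, ((h' : Γ) : Γ ⧸ F) = q) → ((h : Γ) : Γ ⧸ F) = q) := by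
    intro q
    by_cases h : ∃ h' : H, ((h' : Γ) : Γ ⧸ F) = q
    · obtain ⟨h', hh'⟩ := h
      exact ⟨h', fun _ => hh'⟩
    · exact ⟨1, fun h' => absurd h' h⟩
  choose hr hr2 using hq
  obtain ⟨X, hX⟩ : ∃ X : Set F, X = ⋃ q : Γ ⧸ F, (fun x => cj F H (hr q) x) '' X0 := ⟨_, rfl⟩
  have hXf : X.Finite := by
    rw [hX]
    exact Set.finite_iUnion fun q => hX0.image _
  have hX1 : ∀ (h : H), ∀ x ∈ X0, cj F H h x ∈ closure (S ∪ X) := by
    intro h x hx
    obtain ⟨q, hqd⟩ : ∃ q : Γ ⧸ F, q = ((h : Γ) : Γ ⧸ F) := ⟨_, rfl⟩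
    have h1 : ((hr q : Γ) : Γ ⧸ F) = ((h : Γ) : Γ ⧸ F) := by
      rw [← hqd]
      exact hr2 q ⟨h, hqd.symm⟩
    have h2 : ((h * (hr q)⁻¹ : H) : Γ) ∈ F := by
      have h3 : (hr q : Γ)⁻¹ * h ∈ F := QuotientGroup.eq.1 h1
      have h4 := hFn.conj_mem _ h3 (hr q : Γ)
      rw [mul_inv_cancel_left] at h4
      exact h4
    obtain ⟨f, hf⟩ : ∃ f : F, (f : Γ) = ((h * (hr q)⁻¹ : H) : Γ) := ⟨⟨_, h2⟩, rfl⟩
    have h3 : f ∈ closure S := h0 f (by rw [hf]; exact SetLike.coe_mem _)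
    have h4 : cj F H h x = f * cj F H (hr q) x * f⁻¹ := by
      apply Subtype.ext
      rw [Subgroup.coe_mul, Subgroup.coe_mul, cj_apply, cj_apply, Subgroup.coe_inv, hf]
      simp only [Subgroup.coe_mul, InvMemClass.coe_inv]
      group
    rw [h4]
    have h5 : cj F H (hr q) x ∈ closure (S ∪ X) := by
      apply Subgroup.subset_closure
      right
      rw [hX, Set.mem_iUnion]
      exact ⟨q, x, hx, rfl⟩
    have h6 : f ∈ closure (S ∪ X) := closure_mono Set.subset_union_left h3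
    exact mul_mem (mul_mem h6 h5) (inv_mem h6)
  obtain ⟨T, R', hT, hB', hXT, hinv⟩ := closure_step (cj F H) S R X hB hXf
    (fun h y hy => hS h y (subset_closure hy)) (by
      intro h x hx
      rw [hX, Set.mem_iUnion] at hx
      obtain ⟨q, x0, hx0, rfl⟩ := hx
      simp only
      rw [← MulAut.mul_apply, ← map_mul]
      exact hX1 _ x0 hx0)
  have hSXT : closure (S ∪ X) ≤ closure (S ∪ T) := by
    rw [closure_le]
    rintro z (hz | hz)
    · exact subset_closure (Or.inl hz)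
    · exact hXT hz
  have hX0T : X0 ⊆ closure (S ∪ T) := by
    intro x hx
    have h1 := hX1 1 x hx
    rw [map_one, MulAut.one_apply] at h1
    exact hSXT h1
  have hST : closure S ≤ closure (S ∪ T) := closure_mono Set.subset_union_left
  refine ⟨T, R', hT, hB', hX0T, hinv, ?_⟩
  -- relative extension
  have hE' : Inv H (closure (S ∪ T)) := hinv
  let L : Subgroup Γ := LG H (closure (S ∪ T)) hE'
  let Z : Subgroup L := (LG H (closure S) hS).subgroupOf L
  let Fp : Subgroup L := F.subgroupOf L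
  have hZmem : ∀ l : L, l ∈ Z ↔ (l : Γ) ∈ LS H (closure S) := fun l => Iff.rfl
  have hFmem : ∀ l : L, l ∈ Fp ↔ (l : Γ) ∈ F := fun l => Iff.rfl
  obtain ⟨D, hD, hDk⟩ := exists_der_ker hB' (S := S) (fun x hx => Or.inl (Or.inl hx))
  let j : Fp →* F :=
    { toFun := fun e => ⟨((e : L) : Γ), e.2⟩
      map_one' := rfl
      map_mul' := fun a b => rfl }
  have hj : Function.Injective j := by
    intro a b hab
    have h1 := congrArg (fun x : F => (x : Γ)) hab
    exact Subtype.ext (Subtype.ext h1)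
  let act : MulAction Fp (MM F) := MulAction.compHom (MM F) j
  obtain ⟨c', hc'1, hc'2⟩ := relext Fp Z (M := MM F) (by
      rintro ⟨l, e, he, h, hh, hl⟩
      refine ⟨⟨e, LS_of_mem he⟩, e.2, ⟨h, LS_of_memH hh⟩, LS_of_memH hh, ?_⟩
      exact Subtype.ext hl) (fun e => D (j e)) (by
      intro a b
      show D (j (a * b)) = D (j a) + _
      rw [map_mul, hD]
      rfl) (by
      intro a m h
      have h1 : j a • m = m := h
      have h2 := MM_free F _ _ h1
      apply hj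
      rw [h2, map_one]) (by
      intro e
      rw [hDk, hZmem]
      constructor
      · intro h
        exact LS_of_mem h
      · intro h
        exact LS_inter h0 (x := j e) h) {l | ∃ t ∈ T, (l : Γ) = t} (by
      apply Set.Finite.of_finite_image (f := fun l : L => (l : Γ)) _
        (Subtype.val_injective.injOn)
      apply (hT.image (fun t : F => (t : Γ))).subset
      rintro _ ⟨l, ⟨t, ht, hl⟩, rfl⟩
      exact ⟨t, ht, hl.symm⟩) (by
      rintro l ⟨t, ht, hl⟩
      show (l : Γ) ∈ F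
      rw [hl]; exact t.2) (by
      intro e he
      have key : ∀ x (_ : x ∈ closure (S ∪ T)), ∀ hx : (x : Γ) ∈ L,
          (⟨x, hx⟩ : L) ∈ closure ({l : L | ∃ t ∈ T, (l : Γ) = t} ∪ ((Z ⊓ Fp : Subgroup L) : Set L))
          := by
        intro x hxc
        induction hxc using Subgroup.closure_induction with
        | mem x hx =>
          intro hxL
          apply Subgroup.subset_closure
          rcases hx with hx | hx
          · exact Or.inr ⟨LS_of_mem (subset_closure hx), x.2⟩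
          · exact Or.inl ⟨x, hx, rfl⟩
        | one => intro hx; exact Subgroup.one_mem _
        | mul a b ha hb iha ihb =>
          intro hx
          have e1 : (⟨((a * b : F) : Γ), hx⟩ : L) = ⟨a, LS_of_mem ha⟩ * ⟨b, LS_of_mem hb⟩ := rfl
          rw [e1]
          exact mul_mem (iha _) (ihb _)
        | inv a ha iha =>
          intro hx
          have e1 : (⟨((a⁻¹ : F) : Γ), hx⟩ : L) = ⟨a, LS_of_mem ha⟩⁻¹ := rfl
          rw [e1]
          exact inv_mem (iha _)
      have h1 : (⟨(e : Γ), he⟩ : F) ∈ closure (S ∪ T) :=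
        LS_inter (fun x hx => hST (h0 x hx)) (x := ⟨(e : Γ), he⟩) e.2
      exact key _ h1 e.2) (by
      intro g n hn hg
      apply hj
      rw [map_one]
      apply tf_of_free F (j g) n hn
      rw [← map_pow, hg, map_one]) (θ.comp L.subtype) (fun l => c (l : Γ)) (by
      intro a ha b hb
      exact hc _ ha _ hb)
  refine ⟨fun g => if hg : g ∈ L then c' ⟨g, hg⟩ else 1, ?_, ?_⟩
  · intro a ha b hb
    have ha' : a ∈ L := ha
    have hb' : b ∈ L := hb
    have hab' : a * b ∈ L := L.mul_mem ha' hb'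
    simp only
    rw [dif_pos ha', dif_pos hb', dif_pos hab']
    exact hc'1 ⟨a, ha'⟩ ⟨b, hb'⟩
  · intro g hg
    have hg' : g ∈ L := LS_mono hST hg
    simp only
    rw [dif_pos hg']
    exact hc'2 ⟨g, hg'⟩ hg

/-- gluing -/
theorem glue {Ω ι : Type} (θ : Γ →* Equiv.Perm Ω) (E : ι → Subgroup F) (hE : ∀ i, Inv H (E i))
    (c : ι → Γ → FreeGroup Ω)
    (hdir : ∀ i j, ∃ k, E i ≤ E k ∧ E j ≤ E k ∧ (∀ g ∈ LS H (E i), c k g = c i g) ∧
      ∀ g ∈ LS H (E j), c k g = c j g) (hc : ∀ i, CrOn θ (LS H (E i)) (c i)) :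
    ∃ c' : Γ → FreeGroup Ω, (∀ i, ∀ g ∈ LS H (E i), c' g = c i g) ∧
      ∀ a b, (∃ i, a ∈ LS H (E i)) → (∃ i, b ∈ LS H (E i)) →
        c' (a * b) = c' a * FreeGroup.map (θ a) (c' b) := by
  classical
  obtain ⟨c', h1⟩ : ∃ c' : Γ → FreeGroup Ω, ∀ i, ∀ g ∈ LS H (E i), c' g = c i g := by
    refine ⟨fun g => if h : ∃ i, g ∈ LS H (E i) then c h.choose g else 1, ?_⟩
    intro i g hg
    have h : ∃ i, g ∈ LS H (E i) := ⟨i, hg⟩
    simp only
    rw [dif_pos h]
    obtain ⟨k, -, -, h3, h4⟩ := hdir h.choose i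
    rw [← h3 g h.choose_spec, h4 g hg]
  refine ⟨c', h1, ?_⟩
  rintro a b ⟨i, hi⟩ ⟨j, hj⟩
  obtain ⟨k, k1, k2, -, -⟩ := hdir i j
  have ha := LS_mono k1 hi
  have hb := LS_mono k2 hj
  have hab := LS_mul (hE k) ha hb
  rw [h1 k a ha, h1 k b hb, h1 k _ hab]
  exact hc k a ha b hb

theorem inv_iSup {ι : Type} (E : ι → Subgroup F) (hE : ∀ i, Inv H (E i)) : Inv H (⨆ i, E i) := by
  intro h y hy
  have h1 : (⨆ i, E i) ≤ (⨆ i, E i).comap (cj F H h).toMonoidHom := by
    rw [iSup_le_iff]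
    intro i x hx
    exact le_iSup E i (hE i h x hx)
  exact h1 hy

theorem mem_LS_iSup {ι : Type} [Nonempty ι] (E : ι → Subgroup F) (hdir : Directed (· ≤ ·) E)
    {g : Γ} (hg : g ∈ LS H (⨆ i, E i)) : ∃ i, g ∈ LS H (E i) := by
  obtain ⟨e, he, h, hh, rfl⟩ := hg
  obtain ⟨i, hi⟩ := (Subgroup.mem_iSup_of_directed hdir).1 he
  exact ⟨i, e, hi, h, hh, rfl⟩

/-- sequences -/
theorem exists_seq {α : Type} (P : α → Prop) (r : α → α → Prop)
    (hstep : ∀ a, P a → ∃ b, P b ∧ r a b) (a0 : α) (h0 : P a0) :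
    ∃ f : ℕ → α, f 0 = a0 ∧ ∀ n, P (f n) ∧ r (f n) (f (n + 1)) := by
  choose! g hg1 hg2 using hstep
  let f : ℕ → α := fun n => g^[n] a0
  have hf : ∀ n, f (n + 1) = g (f n) := fun n => Function.iterate_succ_apply' g n a0
  have hP : ∀ n, P (f n) := by
    intro n
    induction n with
    | zero => exact h0
    | succ n ih => rw [hf]; exact hg1 _ ih
  exact ⟨f, rfl, fun n => ⟨hP n, by rw [hf]; exact hg2 _ (hP n)⟩⟩

/-- the extension to a closed set containing a given element -/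
theorem cr_omega [F.FiniteIndex] {Ω : Type} (θ : Γ →* Equiv.Perm Ω) (B U : Set F)
    (hB : Bas B ⊤) (hUB : U ⊆ B) (b : F) (hb : b ∈ B) (hU : Inv H (closure U))
    (h0 : ∀ x : F, (x : Γ) ∈ H → x ∈ closure U) (c : Γ → FreeGroup Ω)
    (hc : CrOn θ (LS H (closure U)) c) :
    ∃ U' : Set F, U ⊆ U' ∧ U' ⊆ B ∧ b ∈ U' ∧ Inv H (closure U') ∧ ∃ c' : Γ → FreeGroup Ω,
      CrOn θ (LS H (closure U')) c' ∧ ∀ g ∈ LS H (closure U), c' g = c g := by
  classical
  -- states
  let Q := Set F × Set F × Set F × (Γ → FreeGroup Ω)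
  let P : Q → Prop := fun q => Bas (q.1 ∪ q.2.1) ⊤ ∧ Inv H (closure q.1) ∧ U ⊆ q.1 ∧
    q.2.2.1 ⊆ B ∧ q.2.2.1.Finite ∧ closure q.1 ≤ closure (U ∪ q.2.2.1) ∧
    CrOn θ (LS H (closure q.1)) q.2.2.2
  let r : Q → Q → Prop := fun q q' => q.1 ⊆ q'.1 ∧ q.2.2.1 ⊆ q'.2.2.1 ∧
    q.2.2.1 ⊆ closure q'.1 ∧ ∀ g ∈ LS H (closure q.1), q'.2.2.2 g = q.2.2.2 g
  have hstep : ∀ q, P q → ∃ q', P q' ∧ r q q' := by
    rintro ⟨S, R, A, c⟩ ⟨p1, p2, p3, p4, p5, p6, p7⟩
    simp only at p1 p2 p3 p4 p5 p6 p7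
    obtain ⟨T, R', t1, t2, t3, t4, c', t5, t6⟩ := cr_step θ S R A p1 p5 p2
      (fun x hx => closure_mono p3 (h0 x hx)) c p7
    obtain ⟨A', a1, a2, a3⟩ := exists_finite_sub (S := U) (R := B) t1 (by
      intro x _
      have h1 : closure B ≤ closure (U ∪ B) := closure_mono Set.subset_union_right
      apply h1
      rw [hB.2]; trivial)
    refine ⟨(S ∪ T, R', A ∪ A', c'), ⟨t2, t4, p3.trans Set.subset_union_left,
      Set.union_subset p4 a1, p5.union a2, ?_, t5⟩, Set.subset_union_left, Set.subset_union_left,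
      t3, t6⟩
    simp only
    rw [closure_le]
    rintro x (hx | hx)
    · have h1 := p6 (Subgroup.subset_closure hx)
      exact closure_mono (Set.union_subset_union_right _ Set.subset_union_left) h1
    · exact closure_mono (Set.union_subset_union_right _ Set.subset_union_right) (a3 hx)
  obtain ⟨f, hf0, hf⟩ := exists_seq P r hstep (U, B, {b}, c) ⟨by
      rw [Set.union_eq_self_of_subset_left hUB]; exact hB, hU, subset_rfl, by simpa using hb,
      Set.finite_singleton b, closure_mono Set.subset_union_left, hc⟩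
  have hmono : ∀ n m, n ≤ m → (f n).1 ⊆ (f m).1 ∧ ∀ g ∈ LS H (closure (f n).1),
      (f m).2.2.2 g = (f n).2.2.2 g := by
    intro n m hnm
    induction m, hnm using Nat.le_induction with
    | base => exact ⟨subset_rfl, fun g _ => rfl⟩
    | succ m hm ih =>
      obtain ⟨r1, r2, r3, r4⟩ := (hf m).2
      refine ⟨ih.1.trans r1, fun g hg => ?_⟩
      rw [r4 g (LS_mono (closure_mono ih.1) hg), ih.2 g hg]
  have hinv : ∀ n, Inv H (closure (f n).1) := fun n => (hf n).1.2.1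
  obtain ⟨c', hc'1, hc'2⟩ := glue θ (fun n => closure (f n).1) hinv (fun n => (f n).2.2.2) (by
      intro i j
      refine ⟨max i j, closure_mono (hmono _ _ (le_max_left i j)).1,
        closure_mono (hmono _ _ (le_max_right i j)).1, (hmono _ _ (le_max_left i j)).2,
        (hmono _ _ (le_max_right i j)).2⟩) (fun n => (hf n).1.2.2.2.2.2.2)
  have hdir : Directed (· ≤ ·) (fun n => closure (f n).1) := by
    intro i j
    exact ⟨max i j, closure_mono (hmono _ _ (le_max_left i j)).1,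
        closure_mono (hmono _ _ (le_max_right i j)).1⟩
  have hcl : closure (U ∪ ⋃ n, (f n).2.2.1) = ⨆ n, closure (f n).1 := by
    apply le_antisymm
    · rw [closure_le]
      rintro x (hx | hx)
      · have h1 : closure (f 0).1 ≤ ⨆ n, closure (f n).1 := le_iSup (fun n => closure (f n).1) 0
        exact h1 (Subgroup.subset_closure ((hf 0).1.2.2.1 hx))
      · rw [Set.mem_iUnion] at hx
        obtain ⟨n, hn⟩ := hx
        have h1 : closure (f (n + 1)).1 ≤ ⨆ n, closure (f n).1 :=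
          le_iSup (fun n => closure (f n).1) (n + 1)
        exact h1 ((hf n).2.2.2.1 hn)
    · rw [iSup_le_iff]
      intro n
      refine (hf n).1.2.2.2.2.2.1.trans (closure_mono ?_)
      exact Set.union_subset_union_right _ (Set.subset_iUnion (fun n => (f n).2.2.1) n)
  refine ⟨U ∪ ⋃ n, (f n).2.2.1, Set.subset_union_left, ?_, ?_, ?_, c', ?_, ?_⟩
  · exact Set.union_subset hUB (Set.iUnion_subset fun n => (hf n).1.2.2.2.1)
  · right
    rw [Set.mem_iUnion]
    refine ⟨0, ?_⟩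
    rw [hf0]
    rfl
  · rw [hcl]
    exact inv_iSup _ hinv
  · intro x hx y hy
    rw [hcl] at hx hy
    exact hc'2 x y (mem_LS_iSup _ hdir hx) (mem_LS_iSup _ hdir hy)
  · intro g hg
    have h1 := hc'1 0 g (by rw [hf0]; exact hg)
    rw [h1, hf0]

/-- **Extension to the whole group.** -/
theorem cr_all [F.FiniteIndex] {Ω : Type} (θ : Γ →* Equiv.Perm Ω) (B U : Set F)
    (hB : Bas B ⊤) (hUB : U ⊆ B) (hU : Inv H (closure U))
    (h0 : ∀ x : F, (x : Γ) ∈ H → x ∈ closure U) (c : Γ → FreeGroup Ω)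
    (hc : CrOn θ (LS H (closure U)) c) :
    ∃ c' : Γ → FreeGroup Ω, CrOn θ (LS H (⊤ : Subgroup F)) c' ∧
      ∀ g ∈ LS H (closure U), c' g = c g := by
  classical
  let Q := {q : Set F × (Γ → FreeGroup Ω) // U ⊆ q.1 ∧ q.1 ⊆ B ∧ Inv H (closure q.1) ∧
    CrOn θ (LS H (closure q.1)) q.2 ∧ ∀ g ∈ LS H (closure U), q.2 g = c g}
  let r : Q → Q → Prop := fun q q' => q.1.1 ⊆ q'.1.1 ∧
    ∀ g ∈ LS H (closure q.1.1), q'.1.2 g = q.1.2 g
  have hrefl : ∀ q, r q q := fun q => ⟨subset_rfl, fun g _ => rfl⟩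
  have htrans : ∀ {a b c : Q}, r a b → r b c → r a c := by
    intro a b c h1 h2
    refine ⟨h1.1.trans h2.1, fun g hg => ?_⟩
    rw [h2.2 g (LS_mono (closure_mono h1.1) hg), h1.2 g hg]
  let q0 : Q := ⟨(U, c), subset_rfl, hUB, hU, hc, fun g _ => rfl⟩
  obtain ⟨m, hm⟩ := exists_maximal_of_chains_bounded (r := r) (by
      intro C hC
      by_cases hne : C.Nonempty
      swap
      · rw [Set.not_nonempty_iff_eq_empty] at hne
        refine ⟨q0, ?_⟩
        rw [hne]
        intro a ha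
        exact absurd ha (Set.notMem_empty a)
      have hne' : Nonempty C := hne.to_subtype
      have htot : ∀ i j : C, r i j ∨ r j i := by
        intro i j
        by_cases hij : (i : Q) = j
        · left
          rw [hij]
          exact hrefl _
        · exact hC i.2 j.2 hij
      have hdir : Directed (· ≤ ·) (fun i : C => closure (i : Q).1.1) := by
        intro i j
        rcases htot i j with h | h
        · exact ⟨j, closure_mono h.1, le_rfl⟩
        · exact ⟨i, le_rfl, closure_mono h.1⟩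
      obtain ⟨c', hc'1, hc'2⟩ := glue θ (fun i : C => closure (i : Q).1.1)
        (fun i => (i : Q).2.2.2.1) (fun i => (i : Q).1.2) (by
          intro i j
          rcases htot i j with h | h
          · exact ⟨j, closure_mono h.1, le_rfl, h.2, fun g _ => rfl⟩
          · exact ⟨i, le_rfl, closure_mono h.1, fun g _ => rfl, h.2⟩)
        (fun i => (i : Q).2.2.2.2.1)
      have hcl : closure (⋃ i : C, (i : Q).1.1) = ⨆ i : C, closure (i : Q).1.1 :=
        Subgroup.closure_iUnion _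
      obtain ⟨i0⟩ := hne'
      refine ⟨⟨(⋃ i : C, (i : Q).1.1, c'), ?_, ?_, ?_, ?_, ?_⟩, ?_⟩
      · exact (i0 : Q).2.1.trans (Set.subset_iUnion (fun i : C => (i : Q).1.1) i0)
      · exact Set.iUnion_subset fun i => (i : Q).2.2.1
      · simp only
        rw [hcl]
        exact inv_iSup _ (fun i : C => (i : Q).2.2.2.1)
      · simp only
        rw [hcl]
        intro x hx y hy
        have : Nonempty C := ⟨i0⟩
        exact hc'2 x y (mem_LS_iSup _ hdir hx) (mem_LS_iSup _ hdir hy)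
      · intro g hg
        simp only
        rw [hc'1 i0 g (LS_mono (closure_mono (i0 : Q).2.1) hg)]
        exact (i0 : Q).2.2.2.2.2 g hg
      · intro a ha
        exact ⟨Set.subset_iUnion (fun i : C => (i : Q).1.1) ⟨a, ha⟩, hc'1 ⟨a, ha⟩⟩)
    (fun {a b c} => htrans)
  obtain ⟨⟨V, cV⟩, v1, v2, v3, v4, v5⟩ := m
  simp only at v1 v2 v3 v4 v5
  have hV : V = B := by
    apply Set.Subset.antisymm v2
    intro b hb
    obtain ⟨U', u1, u2, u3, u4, c', u5, u6⟩ := cr_omega θ B V hB v2 b hb v3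
      (fun x hx => closure_mono v1 (h0 x hx)) cV v4
    have h1 := hm ⟨(U', c'), v1.trans u1, u2, u4, u5, fun g hg => by
      simp only
      rw [u6 g (LS_mono (closure_mono v1) hg), v5 g hg]⟩ ⟨u1, u6⟩
    exact h1.1 u3
  refine ⟨cV, ?_, v5⟩
  rw [hV, hB.2] at v4
  exact v4

end Pool.Agent.Zk56.LR
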