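import Pool.Agent.Zk56.LR.StepA

/-!
# Crossed homomorphisms of finitely generated virtually free groups, injective on the free subgroup
-/

set_option autoImplicit false

namespace Pool.Agent.Zk56.LR

/-- the Cayley graph -/
def cay {L : Type} [Group L] (U : Set L) : SimpleGraph L where
  Adj x y := x ≠ y ∧ ∃ u ∈ U, y = x * u ∨ x = y * u
  symm := ⟨by
    rintro x y ⟨h1, u, hu, h2⟩
    exact ⟨h1.symm, u, hu, h2.symm⟩⟩
  loopless := ⟨by
    rintro x ⟨h1, -⟩
    exact h1 rfl⟩

theorem cay_smul {L : Type} [Group L] (U : Set L) (g a b : L) :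
    (cay U).Adj (g • a) (g • b) ↔ (cay U).Adj a b := by
  simp only [cay, smul_eq_mul, mul_assoc, ne_eq, mul_right_inj]

theorem cay_connected {L : Type} [Group L] (U : Set L) (hU : Subgroup.closure U = ⊤) :
    (cay U).Connected := by
  have key : ∀ g : L, ∀ x : L, (cay U).Reachable x (x * g) := by
    intro g
    have hg : g ∈ Subgroup.closure U := by rw [hU]; trivial
    induction hg using Subgroup.closure_induction with
    | mem u hu =>
      intro x
      by_cases h : x = x * u
      · rw [← h]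
      · exact SimpleGraph.Adj.reachable ⟨h, u, hu, Or.inl rfl⟩
    | one => intro x; rw [mul_one]
    | mul a b _ _ ha hb =>
      intro x
      rw [← mul_assoc]
      exact (ha x).trans (hb _)
    | inv a _ ha =>
      intro x
      have := ha (x * a⁻¹)
      rw [inv_mul_cancel_right] at this
      exact this.symm
  have : Nonempty L := ⟨1⟩
  refine SimpleGraph.Connected.mk (fun x y => ?_)
  have := key (x⁻¹ * y) x
  rwa [mul_inv_cancel_left] at this

theorem stepA (L : Type) [Group L] (F : Subgroup L) [hN : F.Normal] [F.FiniteIndex] {κ : Type}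
    [Finite κ] (φ : FreeGroup κ ≃* F) :
    ∃ (S : Type) (θ : L →* Equiv.Perm S) (c : L → FreeGroup S), (∀ f ∈ F, θ f = 1) ∧
      IsCr θ c ∧ ∀ f ∈ F, c f = 1 → f = 1 := by
  classical
  by_cases hκ : IsEmpty κ
  · refine ⟨Empty, 1, fun _ => 1, fun f _ => rfl, fun a b => by simp, fun f hf _ => ?_⟩
    have h1 : φ.symm ⟨f, hf⟩ = 1 := Subsingleton.elim _ _
    have h2 : (⟨f, hf⟩ : F) = 1 := by
      rw [← φ.apply_symm_apply ⟨f, hf⟩, h1, map_one]
    exact congrArg Subtype.val h2
  rw [not_isEmpty_iff] at hκ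
  obtain ⟨k0⟩ := hκ
  have hquo : Finite (L ⧸ F) := Subgroup.finite_quotient_of_finiteIndex
  -- right coset representatives
  let τ : L → L := fun x => Quotient.out (QuotientGroup.mk x : L ⧸ F)
  have hτmk : ∀ x, (QuotientGroup.mk (τ x) : L ⧸ F) = QuotientGroup.mk x := fun x =>
    QuotientGroup.out_eq' _
  have hτ : ∀ x, x * (τ x)⁻¹ ∈ F := by
    intro x
    have h1 : (τ x)⁻¹ * x ∈ F := QuotientGroup.eq.1 (hτmk x)
    have h2 := hN.conj_mem _ h1 (τ x)
    rwa [mul_inv_cancel_left] at h2
  let w : L → FreeGroup κ := fun x => φ.symm ⟨x * (τ x)⁻¹, hτ x⟩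
  have hw : ∀ x, ((φ (w x) : F) : L) * τ x = x := by
    intro x
    simp only [w, MulEquiv.apply_symm_apply, inv_mul_cancel_right]
  have hwchar : ∀ x y, ((φ y : F) : L) * τ x = x → w x = y := by
    intro x y h
    simp only [w]
    rw [MulEquiv.symm_apply_eq]
    apply Subtype.ext
    simp only
    rw [← h, mul_assoc]
    have h3 : τ (((φ y : F) : L) * τ x) = τ x := by rw [h]
    rw [h3, mul_inv_cancel, mul_one]
  have hτF : ∀ (f : F) x, τ ((f : L) * x) = τ x := by
    intro f x
    simp only [τ]
    congr 1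
    rw [QuotientGroup.eq]
    have := hN.conj_mem _ (F.inv_mem f.2) x⁻¹
    rw [inv_inv] at this
    rw [mul_inv_rev]
    exact this
  have hwF : ∀ y x, w (((φ y : F) : L) * x) = y * w x := by
    intro y x
    apply hwchar
    rw [hτF, map_mul, Subgroup.coe_mul, mul_assoc, hw]
  -- points with given words
  let pt : FreeGroup κ → L := fun z => ((φ (z * (w 1)⁻¹) : F) : L)
  have hpt : ∀ z, w (pt z) = z := by
    intro z
    have := hwF (z * (w 1)⁻¹) 1
    rw [mul_one, inv_mul_cancel_right] at this
    exact this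
  have hptmul : ∀ y z, ((φ y : F) : L) * pt z = pt (y * z) := by
    intro y z
    simp only [pt]
    rw [← Subgroup.coe_mul, ← map_mul, mul_assoc]
  -- generators
  obtain ⟨U, hUdef⟩ : ∃ U : Set L, U = Set.range (fun k : κ => ((φ (FreeGroup.of k) : F) : L)) ∪
    Set.range (fun q : L ⧸ F => Quotient.out q) := ⟨_, rfl⟩
  have hUf : U.Finite := by
    rw [hUdef]; exact (Set.finite_range _).union (Set.finite_range _)
  have hU : Subgroup.closure U = ⊤ := by
    rw [Subgroup.eq_top_iff']
    intro x
    rw [← hw x]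
    apply Subgroup.mul_mem
    · have h1 : w x ∈ Subgroup.closure (Set.range (FreeGroup.of : κ → FreeGroup κ)) := by
        rw [FreeGroup.closure_range_of]; trivial
      have h2 := Subgroup.mem_map_of_mem (F.subtype.comp φ.toMonoidHom) h1
      rw [MonoidHom.map_closure] at h2
      apply Subgroup.closure_mono _ h2
      rw [hUdef]
      rintro _ ⟨_, ⟨k, rfl⟩, rfl⟩
      exact Or.inl ⟨k, rfl⟩
    · apply Subgroup.subset_closure
      rw [hUdef]
      exact Or.inr ⟨_, rfl⟩
  obtain ⟨X, hXdef⟩ : ∃ X, X = cay U := ⟨_, rfl⟩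
  have hX : X.Connected := by rw [hXdef]; exact cay_connected U hU
  have hact : ∀ (g : L) a b, X.Adj (g • a) (g • b) ↔ X.Adj a b := by
    rw [hXdef]; exact cay_smul U
  -- the cuts
  let A : κ × Bool → Set L := fun l => {x | (w x).toWord.head? = some l}
  -- finiteness
  have hB : ∀ g : L, {x : L | (w (x * g)).toWord.head? ≠ (w x).toWord.head?}.Finite := by
    intro g
    let ψ : L ⧸ F → FreeGroup κ := fun q => w (Quotient.out q * g) * (w (Quotient.out q))⁻¹
    have h1 : ∀ x, w (x * g) = w x * (w (τ x * g)) := by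
      intro x
      have h2 := hwF (w x) (τ x * g)
      rw [← mul_assoc, hw] at h2
      exact h2
    have hf : (⋃ q : L ⧸ F, (fun z : FreeGroup κ => ((φ z : F) : L) * Quotient.out q) ''
        {z | (z * (w (Quotient.out q * g))).toWord.head? ≠ z.toWord.head?}).Finite :=
      Set.finite_iUnion fun q => (head_change_finite _).image _
    apply hf.subset
    intro x hx
    rw [Set.mem_iUnion]
    refine ⟨QuotientGroup.mk x, w x, ?_, hw x⟩
    have hx' : (w (x * g)).toWord.head? ≠ (w x).toWord.head? := hx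
    rw [h1] at hx'
    exact hx'
  have hAfin : ∀ l, (bd X (A l)).Finite := by
    intro l
    have hf : (⋃ u ∈ U, ((fun x => (x, x * u)) '' {x : L | (w (x * u)).toWord.head? ≠
        (w x).toWord.head?} ∪ (fun x => (x, x * u⁻¹)) '' {x : L | (w (x * u⁻¹)).toWord.head? ≠
        (w x).toWord.head?})).Finite :=
      hUf.biUnion fun u _ => ((hB u).image _).union ((hB u⁻¹).image _)
    apply hf.subset
    rintro ⟨x, y⟩ ⟨h1, h2, h3⟩
    rw [hXdef] at h1
    obtain ⟨-, u, hu, h4⟩ := h1
    simp only [Set.mem_iUnion]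
    refine ⟨u, hu, ?_⟩
    have hne : (w y).toWord.head? ≠ (w x).toWord.head? := by
      intro h5
      apply h3
      show (w y).toWord.head? = some l
      rw [h5]
      exact h2
    simp only at h4 hne
    rcases h4 with h4 | h4
    · left
      rw [h4] at hne ⊢
      exact ⟨x, hne, rfl⟩
    · right
      have h6 : y = x * u⁻¹ := by rw [h4, mul_inv_cancel_right]
      rw [h6] at hne ⊢
      exact ⟨x, hne, rfl⟩
  obtain ⟨N, hN'⟩ : ∃ N, ∀ l, (bd X (A l)).ncard ≤ N := by
    obtain ⟨N, hN'⟩ := (Set.finite_range fun l => (bd X (A l)).ncard).bddAbove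
    exact ⟨N, fun l => hN' ⟨l, rfl⟩⟩
  have hBA : ∀ (g : L) l, BA (EE X N) ((fun x => g • x) '' A l) := by
    intro g l
    have h1 := bd_image_ncard (MulAction.toPerm g) (hact g) (A l)
    have h2 := bd_image_finite (MulAction.toPerm g) (hact g) (hAfin l)
    exact EE_gen _ (h1.le.trans (hN' l)) _ h2 rfl
  have hne : Nonempty (WP X N) := by
    have h1 := hBA 1 (k0, true)
    have h2 : (fun x : L => (1 : L) • x) '' A (k0, true) = A (k0, true) := by simp
    rw [h2] at h1
    refine nonempty_WP h1 ⟨pt (FreeGroup.of k0), ?_⟩ ⟨pt 1, ?_⟩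
    · show (w _).toWord.head? = _
      rw [hpt, FreeGroup.toWord_of]
      rfl
    · show ¬ (w _).toWord.head? = _
      rw [hpt, FreeGroup.toWord_one]
      simp
  -- walls have trivial stabilisers
  have htf : ∀ f ∈ F, ∀ n : ℕ, 0 < n → f ^ n = 1 → f = 1 := by
    intro f hf n hn h
    have h1 : (φ.symm ⟨f, hf⟩) ^ n = 1 := by
      rw [← map_pow]
      have : (⟨f, hf⟩ : F) ^ n = 1 := Subtype.ext h
      rw [this, map_one]
    have h2 : φ.symm ⟨f, hf⟩ = 1 := by
      exact (pow_eq_one_iff_left (by omega)).1 h1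
    have h3 : (⟨f, hf⟩ : F) = 1 := by
      rw [← φ.apply_symm_apply ⟨f, hf⟩, h2, map_one]
    exact congrArg Subtype.val h3
  let _ := wpAct N hact
  have hstab : ∀ f ∈ F, ∀ e : WP X N, f • e = e → f = 1 := by
    intro f hf e he
    obtain ⟨x, y, k, hk, -, h1, -⟩ := wall_stab hX hact f e he
    rw [smul_eq_mul, mul_eq_right] at h1
    exact htf f hf k hk h1
  have hP := poc_EE (N := N) hX
  obtain ⟨S, θ, c, h1, h2, h3⟩ := crossed_of_graph (N := N) hX hact F (by
    intro f hf e he
    have he' : f • e = wst e := he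
    have h1 : (f ^ 2) • e = e := by
      rw [pow_two, mul_smul, he']
      have h2 : wst (f • e) = f • wst e := wp_st hact f e
      rw [← h2, he', hP.inv]
    have h2 := htf f hf 2 (by norm_num) (hstab _ (F.pow_mem hf 2) e h1)
    rw [h2, one_smul] at he'
    apply hP.ne e
    rw [← he']) (by
    intro f hf v hv
    by_contra hf1
    have hx : φ.symm ⟨f, hf⟩ ≠ 1 := by
      intro h
      apply hf1
      have h3 : (⟨f, hf⟩ : F) = 1 := by
        rw [← φ.apply_symm_apply ⟨f, hf⟩, h, map_one]
      exact congrArg Subtype.val h3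
    obtain ⟨u, x0, l, hu, hpos, hneg⟩ := exists_skewer _ hx
    have hfx : ((φ (u * x0 * u⁻¹) : F) : L) = f := by
      rw [← hu, φ.apply_symm_apply]
    have hfm : ∀ m : ℕ, ((φ (u * x0 ^ m * u⁻¹) : F) : L) = f ^ m := by
      intro m
      rw [← conj_pow, map_pow, Subgroup.coe_pow, hfx]
    have hfm' : ∀ m : ℕ, ((φ (u * (x0 ^ m)⁻¹ * u⁻¹) : F) : L) = (f ^ m)⁻¹ := by
      intro m
      rw [← hfm, ← Subgroup.coe_inv, ← map_inv]
      congr 3
      group
    have hmem : ∀ z, pt (u * z) ∈ (fun x => ((φ u : F) : L) • x) '' A l ↔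
        z.toWord.head? = some l := by
      intro z
      rw [← hptmul]
      constructor
      · rintro ⟨x, hx, hx2⟩
        simp only [smul_eq_mul, mul_right_inj] at hx2
        rw [hx2] at hx
        have : (w (pt z)).toWord.head? = some l := hx
        rwa [hpt] at this
      · intro h
        refine ⟨pt z, ?_, rfl⟩
        show (w (pt z)).toWord.head? = some l
        rw [hpt]; exact h
    refine no_fixed_node hX hact f ?_ (hBA ((φ u : F) : L) l) (p := pt u) ?_ ?_ v hv
    · intro e k he
      have h1 := hstab _ (F.zpow_mem hf k) e he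
      by_contra hk
      rcases Int.natAbs_eq k with h | h
      · apply hf1
        apply htf f hf k.natAbs (by omega)
        rw [← zpow_natCast, ← h, h1]
      · apply hf1
        apply htf f hf k.natAbs (by omega)
        have : ((k.natAbs : ℕ) : ℤ) = -k := by omega
        rw [← zpow_natCast, this, zpow_neg, h1, inv_one]
    · intro m hm
      rw [smul_eq_mul, ← hfm, hptmul, inv_mul_cancel_right, hmem]
      exact hpos m hm
    · intro m
      rw [smul_eq_mul, ← hfm', hptmul, inv_mul_cancel_right, hmem]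
      exact hneg m)
  exact ⟨S, θ, c, h1, h2, h3⟩

end Pool.Agent.Zk56.LR
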