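import Pool.Agent.Zk56.LR.Ext
import Pool.Agent.Zk56.LR.StepA2
import Pool.Agent.Zk56.LR.Bounce

/-!
# Virtually free groups have the local retractions property (LR)
-/

set_option autoImplicit false

namespace Pool.Agent.Zk56.LR

open Pool.Agent.Helper122.Cuts Subgroup

theorem lr_main2 {Γ : Type} [Group Γ] (F H : Subgroup Γ) [hFn : F.Normal] [F.FiniteIndex]
    [hfree : IsFreeGroup F] (hFH : ∀ g : Γ, ∃ f ∈ F, ∃ h ∈ H, g = f * h) (hH : H.FG) :
    ∃ K : Subgroup Γ, K.FiniteIndex ∧ H ≤ K ∧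
          ∃ ρ : K →* Γ, (∀ k : K, ρ k ∈ H) ∧
            ∀ h : Γ, ∀ hk : h ∈ K, h ∈ H → ρ ⟨h, hk⟩ = h := by
  classical
  obtain ⟨B0, hB0⟩ : ∃ B0 : Set F, Bas B0 (⊤ : Subgroup F) := exists_bas_of_free inferInstance
  -- the intersection is finitely generated
  have hH0 : (H.subgroupOf F).FG := by
    have h1 : Group.FG H := (Group.fg_iff_subgroup_fg H).2 hH
    have h2 : Group.FG (F.subgroupOf H) := inferInstance
    rw [← Group.fg_iff_subgroup_fg]
    let f : F.subgroupOf H →* H.subgroupOf F :=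
      { toFun := fun x => ⟨⟨((x : H) : Γ), x.2⟩, (x : H).2⟩
        map_one' := rfl
        map_mul' := fun a b => rfl }
    apply Group.fg_of_surjective (f := f)
    rintro ⟨⟨x, hx⟩, hx2⟩
    exact ⟨⟨⟨x, hx2⟩, hx⟩, rfl⟩
  obtain ⟨X0, hX0⟩ := hH0
  obtain ⟨T, R', hT, hB, hXT, hinv⟩ := closure_step (cj F H) ∅ B0 (X0 : Set F)
    (by rw [Set.empty_union]; exact hB0) X0.finite_toSet
    (fun h y hy => absurd hy (Set.notMem_empty y)) (by
      intro h x hx
      rw [Set.empty_union, hX0]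
      have h1 : x ∈ H.subgroupOf F := by
        rw [← hX0]; exact Subgroup.subset_closure hx
      show ((cj F H h x : F) : Γ) ∈ H
      rw [cj_apply]
      exact H.mul_mem (H.mul_mem h.2 h1) (H.inv_mem h.2))
  rw [Set.empty_union] at hB hXT hinv
  have hInv : Inv H (closure T) := hinv
  have h0 : ∀ x : F, (x : Γ) ∈ H → x ∈ closure T := by
    intro x hx
    have h1 : x ∈ H.subgroupOf F := hx
    rw [← hX0] at h1
    have h2 : closure (X0 : Set F) ≤ closure T := by
      rw [closure_le]; exact hXT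
    exact h2 h1
  -- the finitely generated case
  let L : Subgroup Γ := LG H (closure T) hInv
  let Fp : Subgroup L := F.subgroupOf L
  have hbT : Bas T (closure T) := bas_sub hB Set.subset_union_left
  obtain ⟨e, -⟩ := hbT.retr
  let ψ : closure T ≃* Fp :=
    { toFun := fun x => ⟨⟨((x : F) : Γ), LS_of_mem x.2⟩, (x : F).2⟩
      invFun := fun x => ⟨⟨((x : L) : Γ), x.2⟩, LS_inter h0 (x : L).2⟩
      left_inv := fun x => rfl
      right_inv := fun x => rfl
      map_mul' := fun a b => rfl }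
  have hTf : Finite T := hT
  obtain ⟨Ω, θ1, c1, hθ1, hc1, hinj⟩ := stepA L Fp (e.symm.trans ψ)
  -- extension of the permutation representation
  let π : L →* Γ ⧸ F := (QuotientGroup.mk' F).comp L.subtype
  have hπ : Function.Surjective π := by
    intro q
    obtain ⟨g, rfl⟩ := QuotientGroup.mk_surjective q
    obtain ⟨f, hf, h, hh, rfl⟩ := hFH g
    refine ⟨⟨h, LS_of_memH hh⟩, ?_⟩
    show ((h : Γ) : Γ ⧸ F) = ((f * h : Γ) : Γ ⧸ F)
    rw [QuotientGroup.eq]
    have h1 := hFn.conj_mem f hf h⁻¹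
    rwa [inv_inv, mul_assoc] at h1
  have hker : π.ker ≤ θ1.ker := by
    intro l hl
    rw [MonoidHom.mem_ker] at hl ⊢
    apply hθ1
    exact (QuotientGroup.eq_one_iff (l : Γ)).1 hl
  let θ : Γ →* Equiv.Perm Ω := (MonoidHom.liftOfSurjective π hπ ⟨θ1, hker⟩).comp
    (QuotientGroup.mk' F)
  have hθL : ∀ l : L, θ (l : Γ) = θ1 l := by
    intro l
    exact MonoidHom.liftOfRightInverse_comp_apply π _ (Function.rightInverse_surjInv hπ)
      ⟨θ1, hker⟩ l
  have hθF : ∀ f ∈ F, θ f = 1 := by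
    intro f hf
    have h1 : (QuotientGroup.mk' F) f = 1 := (QuotientGroup.eq_one_iff f).2 hf
    simp only [θ, MonoidHom.comp_apply]
    rw [h1, map_one]
  obtain ⟨c, hc, hcc⟩ := cr_all (H := H) θ (T ∪ R') T hB Set.subset_union_left hInv h0
    (fun g => if hg : g ∈ L then c1 ⟨g, hg⟩ else 1) (by
      intro a ha b hb
      have ha' : a ∈ L := ha
      have hb' : b ∈ L := hb
      have hab' : a * b ∈ L := L.mul_mem ha' hb'
      simp only
      rw [dif_pos ha', dif_pos hb', dif_pos hab']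
      have h1 := hc1 ⟨a, ha'⟩ ⟨b, hb'⟩
      rw [← hθL] at h1
      exact h1)
  have hall : ∀ g : Γ, g ∈ LS H (⊤ : Subgroup F) := by
    intro g
    obtain ⟨f, hf, h, hh, hg⟩ := hFH g
    exact ⟨⟨f, hf⟩, trivial, h, hh, hg⟩
  apply virt_retract (F := F) (θ := θ) (c := c) hθF (fun a b => hc a (hall a) b (hall b)) H hH
  intro f hfH hfF hcf
  have h1 : f ∈ L := LS_of_memH hfH
  have h2 := hcc f h1
  rw [dif_pos h1, hcf] at h2
  have h3 := hinj ⟨f, h1⟩ hfF h2.symm
  exact congrArg Subtype.val h3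

/-- **Property (LR) for virtually free groups.** -/
theorem lr_main (G : Type) [Group G] (F0 : Subgroup G) [hF0 : F0.FiniteIndex]
    [hfree : IsFreeGroup F0] (H : Subgroup G) (hH : H.FG) :
    ∃ K : Subgroup G, K.FiniteIndex ∧ H ≤ K ∧
          ∃ ρ : K →* G, (∀ k : K, ρ k ∈ H) ∧
            ∀ h : G, ∀ hk : h ∈ K, h ∈ H → ρ ⟨h, hk⟩ = h := by
  classical
  let F : Subgroup G := F0.normalCore
  have hFle : F ≤ F0 := Subgroup.normalCore_le F0
  have hFfree : IsFreeGroup F := by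
    have h2 : IsFreeGroup (F.subgroupOf F0) := inferInstance
    exact IsFreeGroup.ofMulEquiv (Subgroup.subgroupOfEquivOfLe hFle)
  have hFn : F.Normal := inferInstance
  have hFi : F.FiniteIndex := inferInstance
  let Γ : Subgroup G := F ⊔ H
  have hFΓ : F ≤ Γ := le_sup_left
  have hHΓ : H ≤ Γ := le_sup_right
  let F' : Subgroup Γ := F.subgroupOf Γ
  let H' : Subgroup Γ := H.subgroupOf Γ
  have hF'free : IsFreeGroup F' := IsFreeGroup.ofMulEquiv (Subgroup.subgroupOfEquivOfLe hFΓ).symm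
  have hF'n : F'.Normal := inferInstance
  have hF'i : F'.FiniteIndex := inferInstance
  have hH'fg : H'.FG := by
    rw [← Group.fg_iff_subgroup_fg] at hH ⊢
    exact Group.fg_of_surjective (f := (Subgroup.subgroupOfEquivOfLe hHΓ).symm.toMonoidHom)
      (Subgroup.subgroupOfEquivOfLe hHΓ).symm.surjective
  obtain ⟨K', hK'1, hK'2, ρ', hρ1, hρ2⟩ := lr_main2 F' H' (by
    rintro ⟨g, hg⟩
    have hg' : g ∈ ((F ⊔ H : Subgroup G) : Set G) := hg
    rw [Subgroup.normal_mul] at hg'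
    obtain ⟨f, hf, h, hh, rfl⟩ := hg'
    exact ⟨⟨f, hFΓ hf⟩, hf, ⟨h, hHΓ hh⟩, hh, rfl⟩) hH'fg
  have hΓi : Γ.FiniteIndex := Subgroup.finiteIndex_of_le hFΓ
  let e : K' ≃* K'.map Γ.subtype := K'.equivMapOfInjective Γ.subtype Γ.subtype_injective
  have he : ∀ k : K', ((e k : K'.map Γ.subtype) : G) = ((k : Γ) : G) := fun k => rfl
  refine ⟨K'.map Γ.subtype, ?_, ?_, Γ.subtype.comp (ρ'.comp e.symm.toMonoidHom), ?_, ?_⟩
  · constructor
    rw [Subgroup.index_map_subtype]
    exact mul_ne_zero hK'1.index_ne_zero hΓi.index_ne_zero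
  · intro h hh
    exact ⟨⟨h, hHΓ hh⟩, hK'2 (show (⟨h, hHΓ hh⟩ : Γ) ∈ H' from hh), rfl⟩
  · intro k
    exact hρ1 (e.symm k)
  · intro h hk hh
    obtain ⟨k, hk'⟩ := e.surjective ⟨h, hk⟩
    have h1 : e.symm.toMonoidHom ⟨h, hk⟩ = k := by
      rw [← hk']
      exact e.symm_apply_apply k
    have h2 : ((k : Γ) : G) = h := by
      rw [← he, hk']
    simp only [MonoidHom.comp_apply]
    rw [h1]
    have h3 : (k : Γ) ∈ H' := by
      show ((k : Γ) : G) ∈ H
      rw [h2]; exact hh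
    have h4 := hρ2 k k.2 h3
    have h5 : ρ' k = (k : Γ) := h4
    rw [h5]
    exact h2

end Pool.Agent.Zk56.LR
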