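import Mathlib

/-!
# Crossed homomorphisms of finite groups into free groups with permuted bases are principal
-/

set_option autoImplicit false

namespace Pool.Agent.Zk56.LR

open FreeGroup (toWord_mul toWord_inv isReduced_toWord invRev invRev_length mk_toWord toWord_mk toWord_eq_nil_iff mul_mk inv_mk norm_mk_le mk)

variable {S : Type} [DecidableEq S]

omit [DecidableEq S] in
theorem isReduced_append {L₁ L₂ : List (S × Bool)} (h1 : FreeGroup.IsReduced L₁) (h2 : FreeGroup.IsReduced L₂)
    (h : ∀ x ∈ L₁.getLast?, ∀ y ∈ L₂.head?, x.1 = y.1 → x.2 = y.2) : FreeGroup.IsReduced (L₁ ++ L₂) := by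
  unfold FreeGroup.IsReduced at *
  rw [List.isChain_append]
  exact ⟨h1, h2, h⟩

omit [DecidableEq S] in
theorem getLast?_invRev (L : List (S × Bool)) :
    (invRev L).getLast? = L.head?.map (fun x => (x.1, !x.2)) := by
  unfold invRev
  rw [List.getLast?_reverse, List.head?_map]

/-- no cancellation between `x⁻¹` and `y` when they start with different letters -/
theorem norm_inv_mul {x y : FreeGroup S} (hxy : x.toWord.head? ≠ y.toWord.head?) :
    FreeGroup.norm (x⁻¹ * y) = FreeGroup.norm x + FreeGroup.norm y := by
  unfold FreeGroup.norm
  rw [toWord_mul, toWord_inv]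
  have hred : FreeGroup.IsReduced (invRev x.toWord ++ y.toWord) := by
    apply isReduced_append
    · rw [← toWord_inv]; exact isReduced_toWord
    · exact isReduced_toWord
    · intro u hu v hv h1
      rw [getLast?_invRev] at hu
      simp only [Option.mem_def, Option.map_eq_some_iff] at hu hv
      obtain ⟨w, hw, rfl⟩ := hu
      by_contra h2
      apply hxy
      rw [hw, hv]
      simp only at h1 h2
      congr 1
      apply Prod.ext h1
      cases hw2 : w.2 <;> cases hv2 : v.2 <;> simp_all
  rw [hred.reduce_eq, List.length_append, invRev_length]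

theorem toWord_map_perm (σ : Equiv.Perm S) (x : FreeGroup S) :
    (FreeGroup.map σ x).toWord = x.toWord.map (fun y => (σ y.1, y.2)) := by
  have h1 : FreeGroup.map σ x = mk (x.toWord.map (fun y => (σ y.1, y.2))) := by
    conv_lhs => rw [← mk_toWord (x := x)]
    rw [FreeGroup.map.mk]
  rw [h1, toWord_mk]
  apply FreeGroup.IsReduced.reduce_eq
  have h2 : FreeGroup.IsReduced x.toWord := isReduced_toWord
  unfold FreeGroup.IsReduced at *
  rw [List.isChain_map]
  refine h2.imp ?_
  intro a b hab h
  exact hab (σ.injective h)

theorem norm_map_perm (σ : Equiv.Perm S) (x : FreeGroup S) : FreeGroup.norm (FreeGroup.map σ x) = FreeGroup.norm x := by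
  unfold FreeGroup.norm
  rw [toWord_map_perm, List.length_map]

/-- **Crossed homomorphisms of a finite group into a free group with permuted basis are
principal.** -/
theorem h1_free {C : Type} [Group C] [Finite C] (θ : C →* Equiv.Perm S) (m : ℕ) :
    ∀ c : C → FreeGroup S, (∀ a b, c (a * b) = c a * FreeGroup.map (θ a) (c b)) →
    (∀ a, FreeGroup.norm (c a) ≤ m) → ∃ w, ∀ a, c a = w * (FreeGroup.map (θ a) w)⁻¹ := by
  induction m using Nat.strong_induction_on with
  | _ m ih =>
    intro c hc hm
    by_cases htriv : ∀ a, c a = 1
    · exact ⟨1, fun a => by rw [htriv a]; simp⟩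
    push Not at htriv
    obtain ⟨a1, ha1⟩ := htriv
    -- an element of maximal norm
    obtain ⟨g, hg⟩ := Finite.exists_max (fun a => FreeGroup.norm (c a))
    have hg1 : c g ≠ 1 := by
      intro h
      have := hg a1
      rw [h, FreeGroup.norm_one, Nat.le_zero, FreeGroup.norm_eq_zero] at this
      exact ha1 this
    have hc1 : c 1 = 1 := by
      have := hc 1 1
      rw [mul_one] at this
      have h2 : FreeGroup.map (θ 1) (c 1) = c 1 := by
        rw [_root_.map_one]
        have : (⇑(1 : Equiv.Perm S)) = (id : S → S) := rfl
        rw [this, FreeGroup.map.id]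
      rw [h2] at this
      exact (left_eq_mul.1 this)
    have hcomp : ∀ (a b : C) (x : FreeGroup S),
        FreeGroup.map (θ (a * b)) x = FreeGroup.map (θ a) (FreeGroup.map (θ b) x) := by
      intro a b x
      rw [FreeGroup.map.comp, _root_.map_mul]
      rfl
    have hone : ∀ x : FreeGroup S, FreeGroup.map (θ 1) x = x := by
      intro x
      rw [_root_.map_one]
      have : (⇑(1 : Equiv.Perm S)) = (id : S → S) := rfl
      rw [this, FreeGroup.map.id]
    have hinv : ∀ a, c a⁻¹ = (FreeGroup.map (θ a⁻¹) (c a))⁻¹ := by
      intro a
      have := hc a⁻¹ a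
      rw [inv_mul_cancel, hc1] at this
      exact eq_inv_of_mul_eq_one_left this.symm
    obtain ⟨⟨s, b⟩, hs⟩ : ∃ x, (c g).toWord.head? = some x := by
      cases h : (c g).toWord with
      | nil => exact absurd (toWord_eq_nil_iff.1 h) hg1
      | cons y L => exact ⟨y, rfl⟩
    -- all nontrivial values start with the letter `(s, b)`
    have hfirst : ∀ h, c h ≠ 1 → (c h).toWord.head? = some (s, b) := by
      intro h hh
      by_contra hne
      have h1 : (c g).toWord.head? ≠ (c h).toWord.head? := by
        rw [hs]; exact fun h2 => hne h2.symm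
      have h2 := norm_inv_mul h1
      have h3 : c (g⁻¹ * h) = FreeGroup.map (θ g⁻¹) ((c g)⁻¹ * c h) := by
        rw [hc, hinv, ← _root_.map_inv, ← _root_.map_mul]
      have h4 := hg (g⁻¹ * h)
      rw [h3, norm_map_perm, h2] at h4
      have h5 : FreeGroup.norm (c h) ≠ 0 := fun h => hh (FreeGroup.norm_eq_zero.1 h)
      omega
    -- the stabiliser fixes the letter
    have hfix : ∀ h, c h = 1 → θ h s = s := by
      intro h hh
      have h1 : c (h * g) = FreeGroup.map (θ h) (c g) := by rw [hc, hh, one_mul]
      have h2 : c (h * g) ≠ 1 := by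
        rw [h1]
        intro h3
        apply hg1
        have := norm_map_perm (θ h) (c g)
        rw [h3, FreeGroup.norm_one] at this
        exact FreeGroup.norm_eq_zero.1 this.symm
      have h3 := hfirst _ h2
      rw [h1, toWord_map_perm, List.head?_map, hs] at h3
      simp only [Option.map_some, Option.some.injEq, Prod.mk.injEq, and_true] at h3
      exact h3
    -- the last letter
    have hlast : ∀ h, c h ≠ 1 → (c h).toWord.getLast? = some (θ h s, !b) := by
      intro h hh
      have h1 : c h⁻¹ ≠ 1 := by
        rw [hinv]
        intro h2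
        rw [inv_eq_one] at h2
        apply hh
        have := norm_map_perm (θ h⁻¹) (c h)
        rw [h2, FreeGroup.norm_one] at this
        exact FreeGroup.norm_eq_zero.1 this.symm
      have h2 := hfirst _ h1
      rw [hinv, toWord_inv, toWord_map_perm] at h2
      unfold invRev at h2
      rw [List.head?_reverse, List.getLast?_map, List.getLast?_map] at h2
      cases hl : (c h).toWord.getLast? with
      | none => rw [hl] at h2; simp at h2
      | some y =>
        rw [hl] at h2
        simp only [Option.map_some, Option.some.injEq, Prod.mk.injEq] at h2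
        congr 1
        apply Prod.ext
        · simp only
          rw [← h2.1, ← Equiv.Perm.mul_apply, ← _root_.map_mul, mul_inv_cancel, _root_.map_one]
          rfl
        · simp only
          rw [← h2.2, Bool.not_not]
    -- decomposition of the words
    have hdec : ∀ h, c h ≠ 1 → ∃ L, (c h).toWord = (s, b) :: (L ++ [(θ h s, !b)]) := by
      intro h hh
      have h1 := hfirst h hh
      have h2 := hlast h hh
      cases hw : (c h).toWord with
      | nil => rw [hw] at h1; simp at h1
      | cons y L =>
        rw [hw] at h1 h2
        simp only [List.head?_cons, Option.some.injEq] at h1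
        subst h1
        rcases List.eq_nil_or_concat L with rfl | ⟨L', z, rfl⟩
        · simp only [List.getLast?_singleton, Option.some.injEq, Prod.mk.injEq] at h2
          exfalso
          cases b <;> simp at h2
        · refine ⟨L', ?_⟩
          have h3 : ((s, b) :: (L' ++ [z])).getLast? = some z := by
            rw [← List.cons_append, List.getLast?_concat]
          rw [List.concat_eq_append, h3] at h2
          simp only [Option.some.injEq] at h2
          rw [List.concat_eq_append, h2]
    -- conjugate
    let A : FreeGroup S := mk [(s, b)]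
    have hA : ∀ h, FreeGroup.map (θ h) A = mk [(θ h s, b)] := by
      intro h
      simp only [A, FreeGroup.map.mk, List.map_cons, List.map_nil]
    let c' : C → FreeGroup S := fun a => A⁻¹ * c a * FreeGroup.map (θ a) A
    have hc' : ∀ a b, c' (a * b) = c' a * FreeGroup.map (θ a) (c' b) := by
      intro a b
      have e1 : c' (a * b) = A⁻¹ * (c a * FreeGroup.map (θ a) (c b)) *
          FreeGroup.map (θ a) (FreeGroup.map (θ b) A) := by
        rw [← hcomp, ← hc]
      rw [e1]
      simp only [c', _root_.map_mul, _root_.map_inv]
      group
    have hcancel : ∀ (t : S) (b : Bool), (mk [(t, !b)] : FreeGroup S) * mk [(t, b)] = 1 := by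
      intro t b
      have : (mk [(t, !b)] : FreeGroup S) = (mk [(t, b)])⁻¹ := by
        rw [inv_mk]; rfl
      rw [this, inv_mul_cancel]
    have hval : ∀ h, c' h = 1 ∨ (FreeGroup.norm (c' h) + 2 ≤ m) := by
      intro h
      by_cases hh : c h = 1
      · left
        simp only [c', hh, mul_one, hA, hfix h hh]
        exact inv_mul_cancel _
      · right
        obtain ⟨L, hL⟩ := hdec h hh
        have h1 : c h = A * mk L * mk [(θ h s, !b)] := by
          rw [← mk_toWord (x := c h), hL]
          simp only [A, mul_mk, List.cons_append, List.nil_append]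
        have h2 : c' h = mk L := by
          simp only [c']
          rw [h1, hA]
          calc A⁻¹ * (A * mk L * mk [(θ h s, !b)]) * mk [(θ h s, b)]
              = mk L * (mk [(θ h s, !b)] * mk [(θ h s, b)]) := by group
            _ = _ := by rw [hcancel, mul_one]
        have h3 : FreeGroup.norm (mk L : FreeGroup S) ≤ L.length := norm_mk_le
        have h4 := hm h
        unfold FreeGroup.norm at h4
        rw [hL] at h4
        simp only [List.length_cons, List.length_append, List.length_nil] at h4
        rw [h2]
        omega
    have hm2 : 1 ≤ m := by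
      have h1 := hm g
      have h2 : FreeGroup.norm (c g) ≠ 0 := fun h => hg1 (FreeGroup.norm_eq_zero.1 h)
      omega
    obtain ⟨w, hw⟩ := ih (m - 1) (by omega) c' hc' (fun a => by
      rcases hval a with h | h
      · rw [h, FreeGroup.norm_one]; omega
      · omega)
    refine ⟨A * w, fun a => ?_⟩
    have h1 := hw a
    simp only [c'] at h1
    have h2 : c a = A * (A⁻¹ * c a * FreeGroup.map (θ a) A) * (FreeGroup.map (θ a) A)⁻¹ := by group
    rw [h2, h1, _root_.map_mul]
    group

theorem h1_free' {S : Type} {C : Type} [Group C] [Finite C] (θ : C →* Equiv.Perm S)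
    (c : C → FreeGroup S) (hc : ∀ a b, c (a * b) = c a * FreeGroup.map (θ a) (c b)) :
    ∃ w, ∀ a, c a = w * (FreeGroup.map (θ a) w)⁻¹ := by
  classical
  obtain ⟨g, hg⟩ := Finite.exists_max (fun a => FreeGroup.norm (c a))
  exact h1_free θ _ c hc hg

end Pool.Agent.Zk56.LR
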