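import Pool.Agent.Zk56.LR.StepA

/-!
# Equivariant choices: the cocycle and the function on the walls
-/

set_option autoImplicit false

namespace Pool.Agent.Zk56.LR

variable {L P W S : Type} [Group L] [MulAction L P] [MulAction L W]

/-- equivariant choice on the walls -/
theorem exists_w (nd : P → W) (hnd : ∀ (a : L) e, nd (a • e) = a • nd e)
    (θ : L →* Equiv.Perm S) (α : L → W → FreeGroup S)
    (hα : ∀ a b v, α (a * b) v = α a (b • v) * permAut θ a (α b v))
    (hfin : ∀ e : P, Finite (MulAction.stabilizer L e)) :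
    ∃ w : P → FreeGroup S, ∀ (a : L) e, w (a • e) = α a (nd e) * permAut θ a (w e) := by
  classical
  -- solution on the stabilisers
  have h0 : ∀ e : P, ∃ w0 : FreeGroup S, ∀ a : L, a • e = e →
      α a (nd e) = w0 * (permAut θ a w0)⁻¹ := by
    intro e
    have := hfin e
    obtain ⟨w0, hw0⟩ := h1_free' (C := MulAction.stabilizer L e)
      (θ.comp (MulAction.stabilizer L e).subtype) (fun a => α (a : L) (nd e)) (by
        intro a b
        have h1 := hα (a : L) (b : L) (nd e)
        have h2 : (b : L) • nd e = nd e := by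
          rw [← hnd]
          congr 1
          exact b.2
        rw [h2] at h1
        exact h1)
    exact ⟨w0, fun a ha => hw0 ⟨a, ha⟩⟩
  choose w0 hw0 using h0
  -- representatives
  let r : P → P := fun e => (Quotient.out (Quotient.mk (MulAction.orbitRel L P) e) : P)
  have hr : ∀ e, ∃ g : L, g • r e = e := by
    intro e
    have h1 : (MulAction.orbitRel L P).r e (r e) := by
      apply Quotient.exact
      exact (Quotient.out_eq _).symm
    exact h1
  choose g hg using hr
  have hrr : ∀ (a : L) e, r (a • e) = r e := by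
    intro a e
    have h1 : (Quotient.mk (MulAction.orbitRel L P) (a • e)) =
        Quotient.mk (MulAction.orbitRel L P) e := by
      apply Quotient.sound
      exact ⟨a, rfl⟩
    simp only [r]
    rw [h1]
  refine ⟨fun e => α (g e) (nd (r e)) * permAut θ (g e) (w0 (r e)), ?_⟩
  intro a e
  simp only
  have e1 : g (a • e) • r e = a • e := by
    have := hg (a • e)
    rwa [hrr] at this
  obtain ⟨g', hg'⟩ : ∃ g', g' = g (a • e) := ⟨_, rfl⟩
  rw [hrr, ← hg']
  rw [← hg'] at e1
  obtain ⟨s, hs⟩ : ∃ s, s = g'⁻¹ * (a * g e) := ⟨_, rfl⟩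
  have hs1 : s • r e = r e := by
    rw [hs, mul_smul, mul_smul, hg, ← e1, inv_smul_smul]
  have hs2 : g' * s = a * g e := by rw [hs, mul_inv_cancel_left]
  have h1 := hw0 (r e) s hs1
  have h2 := hα g' s (nd (r e))
  have h3 : s • nd (r e) = nd (r e) := by rw [← hnd, hs1]
  rw [h3, hs2, h1] at h2
  have h4 := hα a (g e) (nd (r e))
  rw [← hnd, hg] at h4
  rw [h4] at h2
  -- combine
  have h5 : permAut θ g' (permAut θ s (w0 (r e))) = permAut θ a (permAut θ (g e) (w0 (r e))) := by
    rw [← MulAut.mul_apply, ← MulAut.mul_apply, ← map_mul, ← map_mul, hs2]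
  rw [map_mul, ← mul_assoc, h2, map_mul, map_inv, h5]
  group

/-- the cocycle on the nodes extending a crossed homomorphism on a stabiliser -/
theorem exists_alpha (v0 : W) (Z : Subgroup L) (hZ : ∀ g : L, g • v0 = v0 ↔ g ∈ Z)
    (θ : L →* Equiv.Perm S) (c : L → FreeGroup S)
    (hc : ∀ a ∈ Z, ∀ b ∈ Z, c (a * b) = c a * permAut θ a (c b)) :
    ∃ α : L → W → FreeGroup S, (∀ a b v, α (a * b) v = α a (b • v) * permAut θ a (α b v)) ∧
      ∀ z ∈ Z, α z v0 = c z := by
  classical
  have h0 : ∀ v : W, ∃ g : L, ((∃ l : L, l • v0 = v) → g • v0 = v) ∧ (v = v0 → g = 1) := by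
    intro v
    by_cases h : v = v0
    · exact ⟨1, fun _ => by rw [h, one_smul], fun _ => rfl⟩
    · by_cases h2 : ∃ l : L, l • v0 = v
      · obtain ⟨l, hl⟩ := h2
        exact ⟨l, fun _ => hl, fun h3 => absurd h3 h⟩
      · exact ⟨1, fun h3 => absurd h3 h2, fun h3 => absurd h3 h⟩
  choose g hg1 hg2 using h0
  refine ⟨fun a v => if ∃ l : L, l • v0 = v then permAut θ (g (a • v)) (c ((g (a • v))⁻¹ * a * g v))
    else 1, ?_, ?_⟩
  · intro a b v
    by_cases h : ∃ l : L, l • v0 = v
    · have hb : ∃ l : L, l • v0 = b • v := by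
        obtain ⟨l, hl⟩ := h
        exact ⟨b * l, by rw [mul_smul, hl]⟩
      have hab : ∃ l : L, l • v0 = (a * b) • v := by
        obtain ⟨l, hl⟩ := h
        exact ⟨(a * b) * l, by rw [mul_smul, hl]⟩
      simp only [if_pos h, if_pos hb]
      have e0 := hg1 v h
      have e1 := hg1 _ hb
      have e2 := hg1 _ hab
      rw [mul_smul] at e2 ⊢
      obtain ⟨g0, hg0⟩ : ∃ x, x = g v := ⟨_, rfl⟩
      obtain ⟨gb, hgb⟩ : ∃ x, x = g (b • v) := ⟨_, rfl⟩
      obtain ⟨ga, hga⟩ : ∃ x, x = g (a • b • v) := ⟨_, rfl⟩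
      rw [← hg0] at e0
      rw [← hgb] at e1
      rw [← hga] at e2
      rw [← hg0, ← hgb, ← hga]
      have m1 : ga⁻¹ * a * gb ∈ Z := by
        rw [← hZ, mul_smul, mul_smul, e1, ← e2, inv_smul_smul]
      have m2 : gb⁻¹ * b * g0 ∈ Z := by
        rw [← hZ, mul_smul, mul_smul, e0, ← e1, inv_smul_smul]
      have e3 : ga⁻¹ * (a * b) * g0 = (ga⁻¹ * a * gb) * (gb⁻¹ * b * g0) := by group
      rw [e3, hc _ m1 _ m2, map_mul]
      congr 1
      rw [← MulAut.mul_apply, ← MulAut.mul_apply, ← map_mul, ← map_mul]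
      congr 2
      group
    · have hb : ¬ ∃ l : L, l • v0 = b • v := by
        rintro ⟨l, hl⟩
        exact h ⟨b⁻¹ * l, by rw [mul_smul, hl, inv_smul_smul]⟩
      simp only [if_neg h, if_neg hb, map_one, mul_one]
  · intro z hz
    have h1 : ∃ l : L, l • v0 = v0 := ⟨1, one_smul _ _⟩
    simp only [if_pos h1]
    rw [(hZ z).2 hz, hg2 v0 rfl, inv_one, one_mul, mul_one, map_one, MulAut.one_apply]

end Pool.Agent.Zk56.LR
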