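import Pool.Agent.Zk56.LR.H1

/-!
# First letters in free groups
-/

set_option autoImplicit false

namespace Pool.Agent.Zk56.LR

open FreeGroup (toWord_mul toWord_inv isReduced_toWord invRev invRev_length mk_toWord toWord_mk
  toWord_eq_nil_iff mul_mk inv_mk norm_mk_le mk)

variable {κ : Type} [DecidableEq κ]

theorem single_head (x : FreeGroup κ) (a : κ × Bool)
    (h : (x * mk [a]).toWord.head? ≠ x.toWord.head?) : x = 1 ∨ x = (mk [a])⁻¹ := by
  by_cases hx : x.toWord = []
  · exact Or.inl (toWord_eq_nil_iff.1 hx)
  right
  have hw : (mk [a] : FreeGroup κ).toWord = [a] := by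
    rw [toWord_mk]; exact FreeGroup.reduce_singleton a
  by_cases hred : FreeGroup.IsReduced (x.toWord ++ [a])
  · exfalso
    apply h
    rw [toWord_mul, hw, hred.reduce_eq]
    cases hL : x.toWord with
    | nil => exact absurd hL hx
    | cons y L => simp
  · have h1 : ∃ z ∈ x.toWord.getLast?, z.1 = a.1 ∧ z.2 ≠ a.2 := by
      by_contra hcon
      push Not at hcon
      apply hred
      apply isReduced_append isReduced_toWord (by simp [FreeGroup.IsReduced])
      intro z hz y hy
      simp only [List.head?_cons, Option.mem_def, Option.some.injEq] at hy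
      subst hy
      exact hcon z hz
    obtain ⟨z, hz, hz1, hz2⟩ := h1
    have hza : (mk [z] : FreeGroup κ) = (mk [a])⁻¹ := by
      rw [inv_mk]
      congr 1
      show [z] = [(a.1, !a.2)]
      congr 1
      apply Prod.ext
      · exact hz1
      · cases hb : z.2 <;> cases hb' : a.2 <;> simp_all
    rcases List.eq_nil_or_concat x.toWord with h2 | ⟨L, y, h2⟩
    · exact absurd h2 hx
    · rw [List.concat_eq_append] at h2
      rw [h2, List.getLast?_concat, Option.mem_def, Option.some.injEq] at hz
      subst hz
      have hxm : x = mk L * mk [y] := by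
        rw [mul_mk, ← h2, mk_toWord]
      by_cases hL : L = []
      · rw [hxm, hL, hza]
        show 1 * _ = _
        rw [one_mul]
      · exfalso
        apply h
        have h3 : x * mk [a] = mk L := by
          rw [hxm, hza, inv_mul_cancel_right]
        have h4 : FreeGroup.IsReduced L := by
          have h5 : FreeGroup.IsReduced x.toWord := isReduced_toWord
          rw [h2] at h5
          unfold FreeGroup.IsReduced at h5 ⊢
          exact h5.left_of_append
        rw [h3, toWord_mk, h4.reduce_eq, h2]
        cases L with
        | nil => exact absurd rfl hL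
        | cons y L => simp

theorem head_change (l : List (κ × Bool)) : ∀ x : FreeGroup κ,
    (x * mk l).toWord.head? ≠ x.toWord.head? → ∃ p, p <+: l ∧ x = (mk p)⁻¹ := by
  induction l with
  | nil =>
    intro x h
    exfalso
    apply h
    have : (mk [] : FreeGroup κ) = 1 := rfl
    rw [this, mul_one]
  | cons a l ih =>
    intro x h
    have h1 : x * mk (a :: l) = (x * mk [a]) * mk l := by
      rw [mul_assoc, mul_mk]
      rfl
    by_cases h2 : (x * mk [a]).toWord.head? = x.toWord.head?
    · rw [h1, ← h2] at h
      obtain ⟨p, hp, hp2⟩ := ih _ h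
      refine ⟨a :: p, ?_, ?_⟩
      · rw [List.prefix_cons_inj]
        exact hp
      · have h3 : x = (mk p)⁻¹ * (mk [a])⁻¹ := by
          rw [← hp2, mul_inv_cancel_right]
        rw [h3, ← mul_inv_rev, mul_mk]
        rfl
    · rcases single_head x a h2 with h3 | h3
      · exact ⟨[], List.nil_prefix, by rw [h3]; exact inv_one.symm⟩
      · exact ⟨[a], by rw [List.prefix_cons_inj]; exact List.nil_prefix, h3⟩

theorem head_change_finite (y : FreeGroup κ) :
    {x : FreeGroup κ | (x * y).toWord.head? ≠ x.toWord.head?}.Finite := by
  have hf : ((fun p : List (κ × Bool) => (mk p : FreeGroup κ)⁻¹) '' {p | p ∈ y.toWord.inits}).Finite :=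
    (List.finite_toSet _).image _
  apply hf.subset
  intro x hx
  have h1 : (x * mk y.toWord).toWord.head? ≠ x.toWord.head? := by
    rw [mk_toWord]; exact hx
  obtain ⟨p, hp, hp2⟩ := head_change _ _ h1
  exact ⟨p, (List.mem_inits _ _).2 hp, hp2.symm⟩

/-- a nontrivial element of a free group is conjugate to an element whose positive powers start with
a fixed letter, while its negative powers do not -/
theorem exists_skewer (x : FreeGroup κ) (hx : x ≠ 1) : ∃ (u x0 : FreeGroup κ) (l : κ × Bool),
    x = u * x0 * u⁻¹ ∧ (∀ n : ℕ, 0 < n → (x0 ^ n).toWord.head? = some l) ∧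
      ∀ n : ℕ, ((x0 ^ n)⁻¹).toWord.head? ≠ some l := by
  have hred : FreeGroup.IsReduced x.toWord := isReduced_toWord
  obtain ⟨L0, hL0⟩ : ∃ L0, L0 = FreeGroup.reduceCyclically x.toWord := ⟨_, rfl⟩
  have hc : FreeGroup.IsCyclicallyReduced L0 := by
    rw [hL0]
    exact FreeGroup.reduceCyclically.isCyclicallyReduced hred
  have hconj := FreeGroup.reduceCyclically.conj_conjugator_reduceCyclically x.toWord
  rw [← hL0] at hconj
  have hx2 : x = mk (FreeGroup.reduceCyclically.conjugator x.toWord) * mk L0 *
      (mk (FreeGroup.reduceCyclically.conjugator x.toWord))⁻¹ := by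
    rw [inv_mk, mul_mk, mul_mk, hconj, mk_toWord]
  have hne : L0 ≠ [] := by
    rintro rfl
    apply hx
    rw [hx2]
    have : (mk [] : FreeGroup κ) = 1 := rfl
    rw [this, mul_one, mul_inv_cancel]
  obtain ⟨l, hl⟩ : ∃ l, L0.head? = some l := by
    cases L0 with
    | nil => exact absurd rfl hne
    | cons y L => exact ⟨y, rfl⟩
  have hw0 : (mk L0).toWord = L0 := by
    rw [toWord_mk, hc.isReduced.reduce_eq]
  have hpow : ∀ n : ℕ, (mk L0 ^ n).toWord = (List.replicate n L0).flatten := by
    intro n
    rw [FreeGroup.toWord_pow, hw0, (hc.flatten_replicate n).isReduced.reduce_eq]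
  refine ⟨_, mk L0, l, hx2, ?_, ?_⟩
  · intro n hn
    rw [hpow, List.head?_flatten_replicate (by omega), hl]
  · intro n h
    rw [toWord_inv, hpow] at h
    rcases Nat.eq_zero_or_pos n with rfl | hn
    · simp [invRev] at h
    · unfold FreeGroup.invRev at h
      rw [List.head?_reverse, List.getLast?_map,
        List.getLast?_flatten_replicate (by omega)] at h
      cases hz : L0.getLast? with
      | none => rw [hz] at h; simp at h
      | some z =>
        rw [hz] at h
        simp only [Option.map_some, Option.some.injEq] at h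
        have h1 := hc.2 z hz l hl (by rw [← h])
        rw [← h] at h1
        simp only at h1
        cases hb : z.2 <;> simp [hb] at h1

end Pool.Agent.Zk56.LR
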