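import Pool.Agent.Zk56.LR.Walls
import Pool.Agent.Zk56.LR.Words

/-!
# Crossed homomorphisms of finitely generated virtually free groups, injective on the free subgroup
-/

set_option autoImplicit false

namespace Pool.Agent.Zk56.LR

/-- the action on a free group through permutations of the basis -/
noncomputable def permAut {L S : Type} [Group L] (θ : L →* Equiv.Perm S) : L →* MulAut (FreeGroup S) where
  toFun a := FreeGroup.freeGroupCongr (θ a)
  map_one' := by
    apply MulEquiv.ext
    intro x
    rw [map_one]
    show FreeGroup.map id x = x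
    rw [FreeGroup.map.id]
  map_mul' a b := by
    apply MulEquiv.ext
    intro x
    rw [map_mul]
    show FreeGroup.map (⇑(θ a) ∘ ⇑(θ b)) x = FreeGroup.map (θ a) (FreeGroup.map (θ b) x)
    rw [FreeGroup.map.comp]

theorem permAut_apply {L S : Type} [Group L] (θ : L →* Equiv.Perm S) (a : L) (x : FreeGroup S) :
    permAut θ a x = FreeGroup.map (θ a) x := rfl

/-- crossed homomorphisms -/
def IsCr {L S : Type} [Group L] (θ : L →* Equiv.Perm S) (c : L → FreeGroup S) : Prop :=
  ∀ a b, c (a * b) = c a * FreeGroup.map (θ a) (c b)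

section graph

variable {V L : Type} [Group L] [MulAction L V] {X : SimpleGraph V} {N : ℕ}

theorem BA_empty_cases {C : Set V} (h : BA (∅ : Set (Set V)) C) : C = ∅ ∨ C = Set.univ := by
  induction h with
  | base h => exact absurd h (Set.notMem_empty _)
  | empty => exact Or.inl rfl
  | compl _ ih =>
    rcases ih with rfl | rfl
    · exact Or.inr Set.compl_empty
    · exact Or.inl Set.compl_univ
  | inter _ _ ih1 ih2 =>
    rcases ih1 with rfl | rfl
    · exact Or.inl (Set.empty_inter _)
    · rw [Set.univ_inter]; exact ih2

theorem nonempty_WP {C : Set V} (h : BA (EE X N) C) (h1 : C.Nonempty) (h2 : Cᶜ.Nonempty) :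
    Nonempty (WP X N) := by
  by_contra hcon
  have he : EE X N = ∅ := by
    rw [Set.eq_empty_iff_forall_notMem]
    intro e he
    exact hcon ⟨⟨e, he⟩⟩
  rw [he] at h
  rcases BA_empty_cases h with rfl | rfl
  · exact Set.not_nonempty_empty h1
  · rw [Set.compl_univ] at h2
    exact Set.not_nonempty_empty h2

/-- The crossed homomorphism of a group acting on a graph such that a normal subgroup acts freely
on the nodes of the structure tree. -/
theorem crossed_of_graph (hX : X.Connected)
    (hact : ∀ (g : L) a b, X.Adj (g • a) (g • b) ↔ X.Adj a b) (F : Subgroup L) [F.Normal]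
    [Nonempty (WP X N)]
    (hinv : ∀ f ∈ F, ∀ e : WP X N, (wpAct N hact).toSMul.smul f e ≠ wst e)
    (hfree : ∀ f ∈ F, ∀ v : Node (wst (X := X) (N := N)),
      @HSMul.hSMul L (Node (wst (X := X) (N := N))) _
      (@instHSMul _ _ (@nodeAct _ _ _ _ _ (wpAct N hact) (wp_le hact) (wp_st hact)).toSMul) f v
      = v → f = 1) :
    ∃ (S : Type) (θ : L →* Equiv.Perm S) (c : L → FreeGroup S), (∀ f ∈ F, θ f = 1) ∧
      IsCr θ c ∧ ∀ f ∈ F, c f = 1 → f = 1 := by
  let _ := wpAct N hact
  let _ := nodeAct (L := L) (st := wst (X := X) (N := N)) (wp_le hact) (wp_st hact)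
  have hP := poc_EE (N := N) hX
  let r : Setoid (WP X N) :=
    { r := fun e e' => ∃ f ∈ F, f • e = e'
      iseqv :=
        { refl := fun e => ⟨1, F.one_mem, one_smul _ e⟩
          symm := by
            rintro e e' ⟨f, hf, rfl⟩
            exact ⟨f⁻¹, F.inv_mem hf, inv_smul_smul f e⟩
          trans := by
            rintro e e' e'' ⟨f, hf, rfl⟩ ⟨g, hg, rfl⟩
            exact ⟨g * f, F.mul_mem hg hf, mul_smul g f e⟩ } }
  let S := Quotient r
  let _ : MulAction L S :=
    { smul := fun g => Quotient.map (fun e => g • e) (by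
        rintro e e' ⟨f, hf, rfl⟩
        refine ⟨g * f * g⁻¹, Subgroup.Normal.conj_mem inferInstance f hf g, ?_⟩
        rw [mul_smul, inv_smul_smul, mul_smul])
      one_smul := by
        intro s
        induction s using Quotient.inductionOn with
        | h e =>
          show (⟦(1 : L) • e⟧ : S) = ⟦e⟧
          rw [one_smul]
      mul_smul := by
        intro g h s
        induction s using Quotient.inductionOn with
        | h e =>
          show (⟦(g * h) • e⟧ : S) = ⟦g • h • e⟧
          rw [mul_smul] }
  let θ : L →* Equiv.Perm S := MulAction.toPermHom L S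
  have hθ : ∀ (g : L) (e : WP X N), θ g ⟦e⟧ = ⟦g • e⟧ := fun g e => rfl
  have hv0 : Nonempty (Node (wst (X := X) (N := N))) :=
    ⟨nd _ (Classical.arbitrary (WP X N))⟩
  obtain ⟨v0⟩ := hv0
  obtain ⟨ν, c, hν, hc1, hc2⟩ := crossed_of_walls (L := L) hP (wp_le hact) (wp_st hact)
    (permAut θ) (fun _ _ => 1) (fun a b v => by simp) (fun e => FreeGroup.of (⟦e⟧ : S))
    (fun a e => by
      rw [one_mul, permAut_apply, FreeGroup.map.of, hθ]) v0
  refine ⟨S, θ, c, ?_, ?_, ?_⟩
  · intro f hf
    apply Equiv.ext
    intro s
    induction s using Quotient.inductionOn with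
    | h e =>
      rw [hθ]
      apply Quotient.sound
      exact ⟨f⁻¹, F.inv_mem hf, inv_smul_smul f e⟩
  · intro a b
    rw [hc1, permAut_apply]
  · -- injectivity
    have hS1 : ∀ e : WP X N, (⟦e⟧ : S) ≠ ⟦wst e⟧ := by
      intro e h
      obtain ⟨f, hf, hfe⟩ := Quotient.exact h
      exact hinv f hf e hfe
    have key : ∀ (a b : Node (wst (X := X) (N := N))) (p : (stree hP).Walk a b), p.IsPath →
        ∃ l : List (S × Bool), wval ν p = FreeGroup.mk l ∧ FreeGroup.IsReduced l ∧
          (l = [] → a = b) ∧ ∀ x ∈ l.head?, ∃ e, x = ((⟦e⟧ : S), true) ∧ a = nd wst e ∧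
            nd wst (wst e) ∈ p.support := by
      intro a b p hp
      induction p with
      | nil => exact ⟨[], rfl, by simp [FreeGroup.IsReduced], fun _ => rfl, by simp⟩
      | @cons a v b h p ih =>
        rw [SimpleGraph.Walk.cons_isPath_iff] at hp
        obtain ⟨l, hl1, hl2, hl3, hl4⟩ := ih hp.1
        obtain ⟨e, rfl, rfl⟩ := h
        refine ⟨(⟦e⟧, true) :: (⟦wst e⟧, false) :: l, ?_, ?_, by simp, ?_⟩
        · show ν (nd wst e) (nd wst (wst e)) * wval ν p = _
          rw [hν, hl1]
          rfl
        · unfold FreeGroup.IsReduced at hl2 ⊢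
          rw [List.isChain_cons_cons]
          refine ⟨fun h => absurd h (hS1 e), ?_⟩
          cases l with
          | nil => simp
          | cons y l =>
            rw [List.isChain_cons_cons]
            refine ⟨?_, hl2⟩
            intro hy
            exfalso
            obtain ⟨e', he1, he2, he3⟩ := hl4 y rfl
            rw [he1] at hy
            simp only at hy
            obtain ⟨f, hf, hfe⟩ := Quotient.exact hy
            -- `f` fixes the node
            have h1 : f • nd (wst (X := X) (N := N)) (wst e) = nd wst (wst e) := by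
              have h2 : f • nd (wst (X := X) (N := N)) (wst e) = nd wst (f • wst e) :=
                Subtype.ext (node_smul (wp_le hact) (wp_st hact) f (wst e))
              rw [h2, hfe, he2]
            have h2 := hfree f hf _ h1
            rw [h2, one_smul] at hfe
            apply hp.2
            rw [← hfe, hP.inv] at he3
            exact he3
        · intro x hx
          simp only [List.head?_cons, Option.mem_def, Option.some.injEq] at hx
          refine ⟨e, hx.symm, rfl, ?_⟩
          exact List.mem_cons_of_mem _ p.start_mem_support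
    intro f hf hcf
    classical
    obtain ⟨p⟩ := (stree_isTree hP).connected.preconnected v0 (f • v0)
    obtain ⟨l, hl1, hl2, hl3, -⟩ := key _ _ p.bypass p.bypass_isPath
    have h1 := hc2 f p.bypass
    rw [hcf, mul_one, hl1] at h1
    have h2 : (1 : FreeGroup S).toWord = l := by
      rw [h1, FreeGroup.toWord_mk, hl2.reduce_eq]
    rw [FreeGroup.toWord_one] at h2
    exact hfree f hf v0 (hl3 h2.symm).symm

end graph

end Pool.Agent.Zk56.LR
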