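import Mathlib

/-!
# Structure trees of nested families

A partially ordered set with an order reversing involution, nested and with finite intervals, gives a
tree.
-/

set_option autoImplicit false

namespace Pool.Agent.Zk56.LR

/-- nested poset with complementation and finite intervals -/
structure Poc (P : Type) [PartialOrder P] (st : P → P) : Prop where
  inv : ∀ e, st (st e) = e
  anti : ∀ e f, e ≤ f → st f ≤ st e
  ne : ∀ e, ¬ e ≤ st e
  nest : ∀ e f, e ≤ f ∨ e ≤ st f ∨ st e ≤ f ∨ st e ≤ st f
  fin : ∀ e f : P, {g | e ≤ g ∧ g ≤ f}.Finite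

variable {P : Type} [PartialOrder P] {st : P → P}

/-- the initial node of `e` -/
def node (st : P → P) (e : P) : Set P := {f | e ≤ f ∨ (st e ≤ f ∧ f ≠ st e)}

theorem Poc.st_inj (h : Poc P st) {e f : P} (hef : st e = st f) : e = f := by
  rw [← h.inv e, hef, h.inv]

theorem Poc.le_st (h : Poc P st) {e f : P} (hef : e ≤ st f) : f ≤ st e := by
  have := h.anti _ _ hef
  rwa [h.inv] at this

theorem Poc.st_le (h : Poc P st) {e f : P} (hef : st e ≤ f) : st f ≤ e := by
  have := h.anti _ _ hef
  rwa [h.inv] at this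

theorem Poc.le_of_st (h : Poc P st) {e f : P} (hef : st e ≤ st f) : f ≤ e := by
  have := h.anti _ _ hef
  rwa [h.inv, h.inv] at this

theorem Poc.ne' (h : Poc P st) (e : P) : ¬ st e ≤ e := by
  intro h1
  apply h.ne (st e)
  rwa [h.inv]

theorem self_mem_node (e : P) : e ∈ node st e := Or.inl le_rfl

theorem Poc.st_notMem (h : Poc P st) (e : P) : st e ∉ node st e := by
  rintro (h1 | ⟨_, h1⟩)
  · exact h.ne e h1
  · exact h1 rfl

theorem Poc.mem_or (h : Poc P st) (e f : P) : f ∈ node st e ∨ st f ∈ node st e := by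
  rcases h.nest e f with h1 | h1 | h1 | h1
  · exact Or.inl (Or.inl h1)
  · exact Or.inr (Or.inl h1)
  · by_cases h2 : f = st e
    · right; left
      rw [h2, h.inv]
    · exact Or.inl (Or.inr ⟨h1, h2⟩)
  · by_cases h2 : st f = st e
    · left; left
      rw [h.st_inj h2]
    · exact Or.inr (Or.inr ⟨h1, h2⟩)

theorem Poc.not_both (h : Poc P st) (e f : P) (h1 : f ∈ node st e) (h2 : st f ∈ node st e) :
    False := by
  rcases h1 with h1 | ⟨h1, h1'⟩ <;> rcases h2 with h2 | ⟨h2, h2'⟩
  · exact h.ne e (h1.trans (h.le_st h2))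
  · have := h.le_of_st h2
    exact h2' (by rw [le_antisymm h1 this])
  · -- st e ≤ f, e ≤ st f
    have := h.le_st h2
    exact h1' (le_antisymm this h1)
  · have := h.le_of_st h2
    exact h.ne' e (h1.trans this)

theorem Poc.up (h : Poc P st) {e f g : P} (h1 : f ∈ node st e) (h2 : f ≤ g) : g ∈ node st e := by
  have _ := h
  rcases h1 with h1 | ⟨h1, h1'⟩
  · exact Or.inl (h1.trans h2)
  · refine Or.inr ⟨h1.trans h2, ?_⟩
    rintro rfl
    exact h1' (le_antisymm h2 h1)

theorem Poc.mem_iff (h : Poc P st) (e f : P) : st f ∈ node st e ↔ f ∉ node st e :=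
  ⟨fun h1 h2 => h.not_both e f h2 h1, fun h1 => (h.mem_or e f).resolve_left h1⟩

theorem Poc.node_st (h : Poc P st) {e f : P} (h1 : f ≠ e) (h2 : f ≠ st e) :
    f ∈ node st (st e) ↔ f ∈ node st e := by
  unfold node
  simp only [Set.mem_ofPred_eq, h.inv]
  tauto

/-- vertices of the structure tree -/
abbrev Node (st : P → P) : Type := {v : Set P // ∃ e, v = node st e}

/-- the node of an element -/
def nd (st : P → P) (e : P) : Node st := ⟨node st e, e, rfl⟩

theorem Node.mem_or (h : Poc P st) (v : Node st) (f : P) : f ∈ v.1 ∨ st f ∈ v.1 := by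
  obtain ⟨v, e, rfl⟩ := v
  exact h.mem_or e f

theorem Node.not_both (h : Poc P st) (v : Node st) (f : P) (h1 : f ∈ v.1) (h2 : st f ∈ v.1) :
    False := by
  obtain ⟨v, e, rfl⟩ := v
  exact h.not_both e f h1 h2

theorem Node.up (h : Poc P st) (v : Node st) {f g : P} (h1 : f ∈ v.1) (h2 : f ≤ g) : g ∈ v.1 := by
  obtain ⟨v, e, rfl⟩ := v
  exact h.up h1 h2

theorem Node.st_iff (h : Poc P st) (v : Node st) (f : P) : st f ∈ v.1 ↔ f ∉ v.1 := by
  obtain ⟨v, e, rfl⟩ := v
  exact h.mem_iff e f

/-- orientations are determined by a minimal element -/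
theorem eq_node_of_min (h : Poc P st) {v : Set P} (hor : ∀ f, st f ∈ v ↔ f ∉ v)
    (hup : ∀ f ∈ v, ∀ g, f ≤ g → g ∈ v) {f : P} (hf : f ∈ v) (hmin : ∀ g ∈ v, g ≤ f → g = f) :
    v = node st f := by
  have key : ∀ g ∈ v, g ∈ node st f := by
    intro g hg
    rcases h.nest g f with h1 | h1 | h1 | h1
    · rw [hmin g hg h1]; exact self_mem_node f
    · exact absurd hf ((hor f).1 (hup g hg _ h1))
    · refine Or.inr ⟨h.st_le h1, ?_⟩
      rintro rfl
      exact (hor f).1 hg hf
    · exact Or.inl (h.le_of_st h1)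
  apply Set.Subset.antisymm key
  intro g hg
  by_contra hgv
  have h1 := key _ ((hor g).2 hgv)
  exact h.not_both f g hg h1

/-- the structure tree -/
def stree (h : Poc P st) : SimpleGraph (Node st) where
  Adj v u := ∃ e, v = nd st e ∧ u = nd st (st e)
  symm := ⟨by
    rintro v u ⟨e, rfl, rfl⟩
    exact ⟨st e, rfl, by rw [h.inv]⟩⟩
  loopless := ⟨by
    rintro v ⟨e, rfl, h2⟩
    have h3 : e ∈ (nd st (st e)).1 := by rw [← h2]; exact self_mem_node e
    have h4 := h.st_notMem (st e)
    rw [h.inv] at h4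
    exact h4 h3⟩

theorem stree_adj (h : Poc P st) (e : P) : (stree h).Adj (nd st e) (nd st (st e)) := ⟨e, rfl, rfl⟩

/-- the wall crossed by an edge is unique -/
theorem adj_wall (h : Poc P st) {v u : Node st} {e : P} (h1 : v = nd st e)
    (h2 : u = nd st (st e)) {f : P} (hf : f ∈ v.1) (hfu : f ∉ u.1) : f = e := by
  by_contra hne
  have h3 : f ≠ st e := by
    rintro rfl
    apply hfu
    rw [h2]
    exact self_mem_node _
  subst h1 h2
  exact hfu ((h.node_st hne h3).2 hf)

theorem diff_finite (h : Poc P st) (v u : Node st) : {f | f ∈ v.1 ∧ f ∉ u.1}.Finite := by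
  obtain ⟨v, a, rfl⟩ := v
  obtain ⟨u, b, rfl⟩ := u
  apply (((h.fin a (st b)).union (h.fin a b)).union ((h.fin (st a) (st b)).union
    (h.fin (st a) b))).subset
  rintro f ⟨h1, h2⟩
  have h3 : st f ∈ node st b := (h.mem_iff b f).2 h2
  have h4 : f ≤ st b ∨ f ≤ b := by
    rcases h3 with h3 | ⟨h3, -⟩
    · exact Or.inl (h.le_st h3)
    · exact Or.inr (h.le_of_st h3)
  have h5 : a ≤ f ∨ st a ≤ f := by
    rcases h1 with h1 | ⟨h1, -⟩
    · exact Or.inl h1
    · exact Or.inr h1
  simp only [Set.mem_union, Set.mem_ofPred_eq]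
  tauto

theorem stree_reachable (h : Poc P st) (n : ℕ) : ∀ v u : Node st,
    {f | f ∈ v.1 ∧ f ∉ u.1}.ncard = n → (stree h).Reachable v u := by
  induction n with
  | zero =>
    intro v u hn
    have h1 : {f | f ∈ v.1 ∧ f ∉ u.1} = ∅ := (Set.ncard_eq_zero (diff_finite h v u)).1 hn
    have h2 : v = u := by
      apply Subtype.ext
      ext f
      constructor
      · intro hf
        by_contra hfu
        have : f ∈ {f | f ∈ v.1 ∧ f ∉ u.1} := ⟨hf, hfu⟩
        rw [h1] at this
        exact this
      · intro hf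
        by_contra hfv
        have h3 := (Node.st_iff h v f).2 hfv
        have h4 : st f ∉ u.1 := fun h5 => Node.not_both h u f hf h5
        have : st f ∈ {f | f ∈ v.1 ∧ f ∉ u.1} := ⟨h3, h4⟩
        rw [h1] at this
        exact this
    rw [h2]
  | succ n ih =>
    intro v u hn
    have hfin := diff_finite h v u
    have hne : {f | f ∈ v.1 ∧ f ∉ u.1}.Nonempty := by
      rw [← Set.ncard_pos hfin]; omega
    obtain ⟨f, hf⟩ := hfin.exists_minimal hne
    have hfm := hf.prop
    have hmin : ∀ g ∈ v.1, g ≤ f → g = f := by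
      intro g hg hgf
      have hgu : g ∉ u.1 := fun h1 => hfm.2 (Node.up h u h1 hgf)
      exact le_antisymm hgf (hf.le_of_le ⟨hg, hgu⟩ hgf)
    have e1 : v = nd st f := Subtype.ext (eq_node_of_min h (Node.st_iff h v)
      (fun f hf g hfg => Node.up h v hf hfg) hfm.1 hmin)
    have hadj : (stree h).Adj v (nd st (st f)) := ⟨f, e1, rfl⟩
    have e2 : {g | g ∈ (nd st (st f)).1 ∧ g ∉ u.1} = {g | g ∈ v.1 ∧ g ∉ u.1} \ {f} := by
      ext g
      by_cases hg1 : g = f
      · subst hg1
        simp only [Set.mem_ofPred_eq, Set.mem_sdiff, Set.mem_singleton_iff, not_true_eq_false,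
          and_false, iff_false, not_and, not_not]
        intro hg
        exfalso
        have := h.st_notMem (st g)
        rw [h.inv] at this
        exact this hg
      · by_cases hg2 : g = st f
        · subst hg2
          have h3 : st f ∈ u.1 := (Node.st_iff h u f).2 hfm.2
          have h4 : st f ∉ v.1 := fun h5 => Node.not_both h v f hfm.1 h5
          simp only [Set.mem_ofPred_eq, h3, not_true_eq_false, and_false, Set.mem_sdiff, h4,
            false_and]
        · have h3 := h.node_st hg1 hg2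
          have h4 : g ∈ (nd st (st f)).1 ↔ g ∈ v.1 := by rw [e1]; exact h3
          simp only [Set.mem_ofPred_eq, h4, Set.mem_sdiff, Set.mem_singleton_iff, hg1,
            not_false_eq_true, and_true]
    have h5 : {g | g ∈ (nd st (st f)).1 ∧ g ∉ u.1}.ncard = n := by
      rw [e2, Set.ncard_sdiff_singleton_of_mem hfm, hn]
      rfl
    exact hadj.reachable.trans (ih _ _ h5)

theorem stree_isTree (h : Poc P st) [Nonempty P] : (stree h).IsTree := by
  constructor
  · have : Nonempty (Node st) := ⟨nd st (Classical.arbitrary P)⟩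
    exact SimpleGraph.Connected.mk (fun v u => stree_reachable h _ v u rfl)
  · rw [SimpleGraph.isAcyclic_iff_forall_adj_isBridge]
    intro v u hvu
    rw [SimpleGraph.isBridge_iff_forall_walk_mem_edges]
    intro p
    obtain ⟨e, rfl, rfl⟩ := hvu
    have h1 : e ∉ (nd st (st e)).1 := by
      have := h.st_notMem (st e)
      rwa [h.inv] at this
    obtain ⟨d, hd, hd1, hd2⟩ := p.exists_boundary_dart {x : Node st | e ∈ x.1} (self_mem_node e) h1
    obtain ⟨f, hf1, hf2⟩ := d.adj
    have h2 : e = f := adj_wall h hf1 hf2 hd1 hd2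
    subst h2
    have h3 : d.edge = s(nd st e, nd st (st e)) := by
      rw [SimpleGraph.Dart.edge, ← hf1, ← hf2]
    rw [← h3]
    exact List.mem_map_of_mem hd

section transport

variable {W : Type} {T : SimpleGraph W} {N : Type} [Group N] (ν : W → W → N)

/-- value of a walk -/
def wval : ∀ {a b : W}, T.Walk a b → N
  | _, _, .nil => 1
  | a, _, .cons (v := v) _ p => ν a v * wval p

variable {ν}

theorem wval_append {a b c : W} (p : T.Walk a b) (q : T.Walk b c) :
    wval ν (p.append q) = wval ν p * wval ν q := by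
  induction p with
  | nil => simp [wval]
  | cons h p ih => simp [wval, ih, mul_assoc]

theorem exists_path_wval (hT : T.IsAcyclic) (hν : ∀ v u, T.Adj v u → ν u v = (ν v u)⁻¹)
    {a b : W} (p : T.Walk a b) : ∃ q : T.Walk a b, q.IsPath ∧ wval ν q = wval ν p := by
  classical
  induction p with
  | nil => exact ⟨.nil, SimpleGraph.Walk.IsPath.nil, rfl⟩
  | @cons a v b h p ih =>
    obtain ⟨q, hq, hqv⟩ := ih
    by_cases ha : a ∈ q.support
    · -- the path from `v` to `a` is the edge
      have h1 : q.takeUntil a ha = SimpleGraph.Walk.cons h.symm .nil := by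
        have h2 := hq.takeUntil ha
        have h3 : (SimpleGraph.Walk.cons h.symm .nil : T.Walk v a).IsPath := by
          simp [SimpleGraph.Walk.cons_isPath_iff, h.ne']
        have hs := hT.subsingleton_path v a
        have := Subsingleton.elim (⟨_, h2⟩ : T.Path v a) ⟨_, h3⟩
        exact congrArg Subtype.val this
      refine ⟨q.dropUntil a ha, hq.dropUntil ha, ?_⟩
      have h4 := q.take_spec ha
      have h5 : wval ν q = ν v a * wval ν (q.dropUntil a ha) := by
        conv_lhs => rw [← h4]
        rw [wval_append, h1]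
        simp [wval]
      have h6 : wval ν (SimpleGraph.Walk.cons h p) = ν a v * wval ν p := rfl
      rw [h6, ← hqv, h5, hν a v h, mul_inv_cancel_left]
    · exact ⟨.cons h q, hq.cons ha, by simp only [wval, hqv]⟩

theorem wval_unique (hT : T.IsAcyclic) (hν : ∀ v u, T.Adj v u → ν u v = (ν v u)⁻¹)
    {a b : W} (p q : T.Walk a b) : wval ν p = wval ν q := by
  obtain ⟨p', hp, hp'⟩ := exists_path_wval hT hν p
  obtain ⟨q', hq, hq'⟩ := exists_path_wval hT hν q
  have hs := hT.subsingleton_path a b
  have := Subsingleton.elim (⟨_, hp⟩ : T.Path a b) ⟨_, hq⟩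
  have := congrArg Subtype.val this
  simp only at this
  rw [← hp', ← hq', this]

/-- The crossed homomorphism obtained from an equivariant transport on a tree. -/
theorem exists_crossed {L : Type} [Group L] [MulAction L W] (hT : T.IsTree)
    (hact : ∀ (a : L) v u, T.Adj v u → T.Adj (a • v) (a • u))
    (hν : ∀ v u, T.Adj v u → ν u v = (ν v u)⁻¹) (τ : L →* MulAut N) (α : L → W → N)
    (hα : ∀ a b v, α (a * b) v = α a (b • v) * τ a (α b v))
    (heq : ∀ a v u, T.Adj v u → ν (a • v) (a • u) * α a u = α a v * τ a (ν v u)) (v0 : W) :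
    ∃ c : L → N, (∀ a b, c (a * b) = c a * τ a (c b)) ∧
      ∀ (a : L) (p : T.Walk v0 (a • v0)), c a = wval ν p * α a v0 := by
  have hcon := hT.connected.preconnected
  let val : W → W → N := fun v u => wval ν (hcon v u).some
  have hval : ∀ v u (p : T.Walk v u), wval ν p = val v u := fun v u p =>
    wval_unique hT.isAcyclic hν _ _
  have hmul : ∀ v u w, val v u * val u w = val v w := by
    intro v u w
    obtain ⟨p⟩ := hcon v u
    obtain ⟨q⟩ := hcon u w
    rw [← hval _ _ p, ← hval _ _ q, ← wval_append, hval]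
  have hadj : ∀ v u, T.Adj v u → val v u = ν v u := by
    intro v u h
    rw [← hval v u (.cons h .nil)]
    simp [wval]
  have hequi : ∀ (a : L) v u, T.Walk v u → val (a • v) (a • u) * α a u = α a v * τ a (val v u) := by
    intro a v u p
    induction p with
    | nil =>
      rw [← hval _ _ .nil, ← hval _ _ .nil]
      simp [wval]
    | @cons v w u h p ih =>
      rw [← hmul (a • v) (a • w) (a • u), ← hmul v w u, mul_assoc, ih, map_mul, ← mul_assoc,
        hadj _ _ (hact a v w h), heq a v w h, hadj v w h, mul_assoc]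
  refine ⟨fun a => val v0 (a • v0) * α a v0, ?_, ?_⟩
  · intro a b
    obtain ⟨p⟩ := hcon v0 (b • v0)
    have h1 := hequi a v0 (b • v0) p
    simp only
    rw [hα a b v0, map_mul, mul_smul, ← hmul v0 (a • v0) (a • b • v0)]
    calc val v0 (a • v0) * val (a • v0) (a • b • v0) * (α a (b • v0) * τ a (α b v0))
        = val v0 (a • v0) * (val (a • v0) (a • b • v0) * α a (b • v0)) * τ a (α b v0) := by
          simp only [mul_assoc]
      _ = val v0 (a • v0) * (α a v0 * τ a (val v0 (b • v0))) * τ a (α b v0) := by rw [h1]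
      _ = _ := by simp only [mul_assoc]
  · intro a p
    rw [hval]

end transport

end Pool.Agent.Zk56.LR
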