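import Pool.Agent.Zk56.LR.Cuts
import Pool.Agent.Zk56.LR.Tree

/-!
# The structure tree of a connected graph with a group action
-/

set_option autoImplicit false

namespace Pool.Agent.Zk56.LR

/-- walls -/
abbrev WP {V : Type} (X : SimpleGraph V) (N : ℕ) : Type := {e : Set V // e ∈ EE X N}

section poc

variable {V : Type} {X : SimpleGraph V} {N : ℕ}

/-- complementation -/
def wst (e : WP X N) : WP X N := ⟨e.1ᶜ, EE_compl e.2⟩

theorem wst_val (e : WP X N) : (wst e).1 = e.1ᶜ := rfl

theorem EE_nonempty {A : Set V} (h : A ∈ EE X N) : A.Nonempty := by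
  obtain ⟨n, -, h1, -⟩ := h
  exact h1.nonempty

theorem wp_compl_nonempty (e : WP X N) : (e.1ᶜ).Nonempty := EE_nonempty (EE_compl e.2)

theorem EE_bd_finite {A : Set V} (h : A ∈ EE X N) : (bd X A).Finite := by
  obtain ⟨n, -, h1, -⟩ := h
  exact h1.1

theorem EE_bd_nonempty (hX : X.Connected) {A : Set V} (h : A ∈ EE X N) : (bd X A).Nonempty :=
  bd_nonempty X hX (EE_nonempty h) (EE_nonempty (EE_compl h))

theorem wp_cut_finite (hX : X.Connected) (x y : V) :
    {e : WP X N | x ∈ e.1 ∧ y ∉ e.1}.Finite := by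
  apply Set.Finite.of_finite_image (f := Subtype.val) _ Subtype.val_injective.injOn
  apply (TT_cut_finite hX N x y).subset
  rintro _ ⟨e, ⟨h1, h2⟩, rfl⟩
  exact ⟨EE_TT e.2, h1, h2⟩

theorem poc_EE (hX : X.Connected) : Poc (WP X N) wst where
  inv e := Subtype.ext (compl_compl _)
  anti e f h := by
    show f.1ᶜ ⊆ e.1ᶜ
    exact Set.compl_subset_compl.2 h
  ne e h := by
    obtain ⟨x, hx⟩ := EE_nonempty e.2
    exact h hx hx
  nest e f := by
    have h := EE_nested hX e.2 f.2
    unfold Cross at h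
    by_contra hcon
    push Not at hcon
    obtain ⟨h1, h2, h3, h4⟩ := hcon
    apply h
    refine ⟨?_, ?_, ?_, ?_⟩
    · obtain ⟨x, hx1, hx2⟩ := Set.not_subset.1 h2
      exact ⟨x, hx1, not_not.1 hx2⟩
    · obtain ⟨x, hx1, hx2⟩ := Set.not_subset.1 h1
      exact ⟨x, hx1, hx2⟩
    · obtain ⟨x, hx1, hx2⟩ := Set.not_subset.1 h4
      exact ⟨x, hx1, not_not.1 hx2⟩
    · obtain ⟨x, hx1, hx2⟩ := Set.not_subset.1 h3
      exact ⟨x, hx1, hx2⟩
  fin e f := by
    obtain ⟨x, hx⟩ := EE_nonempty e.2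
    obtain ⟨y, hy⟩ := wp_compl_nonempty f
    apply (wp_cut_finite hX x y).subset
    rintro g ⟨h1, h2⟩
    exact ⟨h1 hx, fun h3 => hy (h2 h3)⟩

end poc

section nodeact

variable {P L : Type} [PartialOrder P] {st : P → P} [Group L] [MulAction L P]

theorem node_smul (hle : ∀ (g : L) (e f : P), e ≤ f → g • e ≤ g • f)
    (hst : ∀ (g : L) (e : P), st (g • e) = g • st e) (g : L) (e : P) :
    (fun x => g • x) '' node st e = node st (g • e) := by
  have key : ∀ (g : L) (e f : P), f ∈ node st e → g • f ∈ node st (g • e) := by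
    intro g e f hf
    rcases hf with hf | ⟨hf, hne⟩
    · exact Or.inl (hle g _ _ hf)
    · refine Or.inr ⟨?_, ?_⟩
      · rw [hst]; exact hle g _ _ hf
      · rw [hst]
        intro h
        exact hne (MulAction.injective g h)
  ext f
  constructor
  · rintro ⟨x, hx, rfl⟩
    exact key g e x hx
  · intro hf
    refine ⟨g⁻¹ • f, ?_, smul_inv_smul g f⟩
    have := key g⁻¹ _ _ hf
    rwa [inv_smul_smul] at this

/-- the action on the nodes -/
@[reducible] def nodeAct (hle : ∀ (g : L) (e f : P), e ≤ f → g • e ≤ g • f)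
    (hst : ∀ (g : L) (e : P), st (g • e) = g • st e) : MulAction L (Node st) where
  smul g v := ⟨(fun x => g • x) '' v.1, by
    obtain ⟨v, e, rfl⟩ := v
    exact ⟨g • e, node_smul hle hst g e⟩⟩
  one_smul v := Subtype.ext (by
    show (fun x => (1 : L) • x) '' v.1 = v.1
    simp)
  mul_smul g h v := Subtype.ext (by
    show (fun x => (g * h) • x) '' v.1 = (fun x => g • x) '' ((fun x => h • x) '' v.1)
    rw [← Set.image_comp]
    congr 1
    funext x
    exact mul_smul g h x)

/-- crossed homomorphism obtained from a function on the walls -/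
theorem crossed_of_walls [Nonempty P] (hP : Poc P st)
    (hle : ∀ (g : L) (e f : P), e ≤ f → g • e ≤ g • f)
    (hst : ∀ (g : L) (e : P), st (g • e) = g • st e)
    {N : Type} [Group N] (τ : L →* MulAut N) (α : L → Node st → N)
    (hα : ∀ a b v, α (a * b) v = α a ((nodeAct hle hst).toSMul.smul b v) * τ a (α b v))
    (w : P → N) (hw : ∀ (a : L) e, w (a • e) = α a (nd st e) * τ a (w e)) (v0 : Node st) :
    ∃ (ν : Node st → Node st → N) (c : L → N),
      (∀ e, ν (nd st e) (nd st (st e)) = w e * (w (st e))⁻¹) ∧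
      (∀ a b, c (a * b) = c a * τ a (c b)) ∧
      ∀ (a : L) (p : (stree hP).Walk v0 ((nodeAct hle hst).toSMul.smul a v0)),
        c a = wval ν p * α a v0 := by
  classical
  let _ := nodeAct hle hst
  let ν : Node st → Node st → N := fun v u =>
    if h : ∃ e, v = nd st e ∧ u = nd st (st e) then w h.choose * (w (st h.choose))⁻¹ else 1
  have hν : ∀ e, ν (nd st e) (nd st (st e)) = w e * (w (st e))⁻¹ := by
    intro e
    have h : ∃ e', nd st e = nd st e' ∧ nd st (st e) = nd st (st e') := ⟨e, rfl, rfl⟩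
    have h1 : ν (nd st e) (nd st (st e)) = w h.choose * (w (st h.choose))⁻¹ := dif_pos h
    have h2 : e = h.choose := by
      apply adj_wall hP h.choose_spec.1 h.choose_spec.2 (self_mem_node e)
      have := hP.st_notMem (st e)
      rwa [hP.inv] at this
    rw [h1, ← h2]
  have hsm : ∀ (a : L) (e : P), a • nd st e = nd st (a • e) := by
    intro a e
    exact Subtype.ext (node_smul hle hst a e)
  obtain ⟨c, hc1, hc2⟩ := exists_crossed (L := L) (T := stree hP) (ν := ν) (stree_isTree hP)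
    (by
      rintro a v u ⟨e, rfl, rfl⟩
      exact ⟨a • e, hsm a e, by rw [hsm, hst]⟩)
    (by
      rintro v u ⟨e, rfl, rfl⟩
      have h1 := hν (st e)
      rw [hP.inv] at h1
      rw [h1, hν]
      group)
    τ α hα
    (by
      rintro a v u ⟨e, rfl, rfl⟩
      rw [hsm, hsm, ← hst, hν, hw, hst, hw, hν, map_mul, map_inv]
      group) v0
  exact ⟨ν, c, hν, hc1, hc2⟩

end nodeact

section act

variable {V L : Type} [Group L] [MulAction L V] {X : SimpleGraph V} {N : ℕ}

theorem smul_EE (hact : ∀ (g : L) a b, X.Adj (g • a) (g • b) ↔ X.Adj a b) (g : L) {e : Set V}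
    (he : e ∈ EE X N) : (fun x => g • x) '' e ∈ EE X N :=
  EE_image (MulAction.toPerm g) (hact g) he

/-- the action on walls -/
@[reducible] def wpAct (N : ℕ) (hact : ∀ (g : L) a b, X.Adj (g • a) (g • b) ↔ X.Adj a b) :
    MulAction L (WP X N) where
  smul g e := ⟨(fun x => g • x) '' e.1, smul_EE hact g e.2⟩
  one_smul e := Subtype.ext (by
    show (fun x => (1 : L) • x) '' e.1 = e.1
    simp)
  mul_smul g h e := Subtype.ext (by
    show (fun x => (g * h) • x) '' e.1 = (fun x => g • x) '' ((fun x => h • x) '' e.1)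
    rw [← Set.image_comp]
    congr 1
    funext x
    exact mul_smul g h x)

theorem wp_le (hact : ∀ (g : L) a b, X.Adj (g • a) (g • b) ↔ X.Adj a b) (g : L) (e f : WP X N)
    (h : e ≤ f) : (wpAct N hact).toSMul.smul g e ≤ (wpAct N hact).toSMul.smul g f :=
  Set.image_mono h

theorem wp_st (hact : ∀ (g : L) a b, X.Adj (g • a) (g • b) ↔ X.Adj a b) (g : L) (e : WP X N) :
    wst ((wpAct N hact).toSMul.smul g e) = (wpAct N hact).toSMul.smul g (wst e) :=
  Subtype.ext (Set.image_compl_eq (MulAction.bijective g)).symm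

/-- a finite subfamily determines membership in a set of the generated algebra -/
theorem BA_det {G : Set (Set V)} {C : Set V} (h : BA G C) :
    ∃ T : Set (Set V), T.Finite ∧ T ⊆ G ∧ ∀ x y, (∀ e ∈ T, (x ∈ e ↔ y ∈ e)) → (x ∈ C ↔ y ∈ C) := by
  induction h with
  | @base A h => exact ⟨{A}, Set.finite_singleton A, by simpa using h, fun x y h1 => h1 A rfl⟩
  | empty => exact ⟨∅, Set.finite_empty, Set.empty_subset _, fun x y _ => Iff.rfl⟩
  | compl _ ih =>
    obtain ⟨T, h1, h2, h3⟩ := ih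
    exact ⟨T, h1, h2, fun x y h => not_congr (h3 x y h)⟩
  | inter _ _ ih1 ih2 =>
    obtain ⟨T, h1, h2, h3⟩ := ih1
    obtain ⟨T', h1', h2', h3'⟩ := ih2
    exact ⟨T ∪ T', h1.union h1', Set.union_subset h2 h2', fun x y h =>
      and_congr (h3 x y fun e he => h e (Or.inl he)) (h3' x y fun e he => h e (Or.inr he))⟩

/-- Elements which skewer a set of the algebra fix no node. -/
theorem no_fixed_node (hX : X.Connected)
    (hact : ∀ (g : L) a b, X.Adj (g • a) (g • b) ↔ X.Adj a b) (f : L)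
    (hf : ∀ (e : WP X N) (k : ℤ), (wpAct N hact).toSMul.smul (f ^ k) e = e → k = 0)
    {C : Set V} (hC : BA (EE X N) C) {p : V} (h1 : ∀ m : ℕ, 0 < m → (f ^ m) • p ∈ C)
    (h2 : ∀ m : ℕ, ((f ^ m)⁻¹) • p ∉ C) (v : Node (wst (X := X) (N := N)))
    (hv : @HSMul.hSMul L (Node (wst (X := X) (N := N))) _
      (@instHSMul _ _ (@nodeAct _ _ _ _ _ (wpAct N hact) (wp_le hact) (wp_st hact)).toSMul) f v
      = v) : False := by
  let _ := wpAct N hact
  let _ := nodeAct (L := L) (st := wst (X := X) (N := N)) (wp_le hact) (wp_st hact)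
  obtain ⟨T, hT1, hT2, hT3⟩ := BA_det hC
  -- walls separating `v` from a point
  let D : V → Set (WP X N) := fun x => {e | e ∈ v.1 ∧ x ∉ e.1}
  have hD : ∀ x, (D x).Finite := by
    intro x
    obtain ⟨a, ha⟩ := v.2
    obtain ⟨y, hy⟩ := EE_nonempty a.2
    obtain ⟨y', hy'⟩ := wp_compl_nonempty a
    apply ((wp_cut_finite (N := N) hX y x).union (wp_cut_finite (N := N) hX y' x)).subset
    rintro e ⟨he1, he2⟩
    rw [ha] at he1
    rcases he1 with he1 | ⟨he1, -⟩
    · exact Or.inl ⟨he1 hy, he2⟩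
    · exact Or.inr ⟨he1 hy', he2⟩
  have hvn : ∀ n : ℕ, (f ^ n) • v = v := by
    intro n
    induction n with
    | zero => rw [pow_zero, one_smul]
    | succ n ih => rw [pow_succ, mul_smul, hv, ih]
  have hDn : ∀ (n : ℕ) x, D ((f ^ n) • x) = (fun e : WP X N => (f ^ n) • e) '' D x := by
    intro n x
    ext e
    constructor
    · rintro ⟨he1, he2⟩
      refine ⟨(f ^ n)⁻¹ • e, ⟨?_, ?_⟩, smul_inv_smul _ _⟩
      · rw [← hvn n] at he1
        obtain ⟨e', he', he3⟩ := he1
        rw [← he3]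
        simp only [inv_smul_smul]
        exact he'
      · intro h
        apply he2
        obtain ⟨z, hz1, hz2⟩ := h
        simp only at hz2
        rw [← hz2, smul_inv_smul]
        exact hz1
    · rintro ⟨e', ⟨he1, he2⟩, rfl⟩
      refine ⟨?_, ?_⟩
      · rw [← hvn n]
        exact ⟨e', he1, rfl⟩
      · rintro ⟨z, hz1, hz2⟩
        simp only at hz2
        rw [MulAction.injective _ hz2] at hz1
        exact he2 hz1
  have hDc : ∀ n : ℕ, (D ((f ^ n) • p)).ncard = (D p).ncard := by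
    intro n
    rw [hDn]
    exact Set.ncard_image_of_injective _ (MulAction.injective _)
  -- walls separating `p` from `f ^ n • p`
  let Sg : ℕ → Set (WP X N) := fun n => {e | ¬ (p ∈ e.1 ↔ (f ^ n) • p ∈ e.1)}
  have hP := poc_EE (N := N) hX
  have hSg : ∀ n, Sg n ⊆ (D ((f ^ n) • p) ∪ wst '' D p) ∪ (D p ∪ wst '' D ((f ^ n) • p)) := by
    intro n e he
    by_cases h3 : p ∈ e.1
    · have h4 : (f ^ n) • p ∉ e.1 := fun h5 => he ⟨fun _ => h5, fun _ => h3⟩
      left
      by_cases h5 : e ∈ v.1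
      · exact Or.inl ⟨h5, h4⟩
      · right
        refine ⟨wst e, ⟨(Node.st_iff hP v e).2 h5, fun h6 => h6 h3⟩, hP.inv e⟩
    · have h4 : (f ^ n) • p ∈ e.1 := by
        by_contra h5
        exact he ⟨fun h => absurd h h3, fun h => absurd h h5⟩
      right
      by_cases h5 : e ∈ v.1
      · exact Or.inl ⟨h5, h3⟩
      · right
        refine ⟨wst e, ⟨(Node.st_iff hP v e).2 h5, fun h6 => h6 h4⟩, hP.inv e⟩
  have hSgf : ∀ n, (Sg n).Finite := fun n => (((hD _).union ((hD p).image _)).union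
    ((hD p).union ((hD _).image _))).subset (hSg n)
  have hinj : Function.Injective (wst (X := X) (N := N)) := fun a b h => hP.st_inj h
  have hSgc : ∀ n, (Sg n).ncard ≤ 4 * (D p).ncard := by
    intro n
    have hf1 := hD ((f ^ n) • p)
    have hf2 := hD p
    refine (Set.ncard_le_ncard (hSg n) ((hf1.union (hf2.image _)).union
      (hf2.union (hf1.image _)))).trans ?_
    refine (Set.ncard_union_le _ _).trans ?_
    have e1 := Set.ncard_union_le (D ((f ^ n) • p)) (wst '' D p)
    have e2 := Set.ncard_union_le (D p) (wst '' D ((f ^ n) • p))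
    rw [Set.ncard_image_of_injective _ hinj] at e1 e2
    rw [hDc] at e1 e2
    omega
  -- the separating walls
  have hw : ∀ n (j : Fin n), ∃ e : WP X N, e.1 ∈ T ∧ (f ^ (j : ℕ)) • e ∈ Sg n := by
    intro n j
    have h3 : ¬ (((f ^ (j : ℕ))⁻¹) • p ∈ C ↔ (f ^ (n - (j : ℕ))) • p ∈ C) := by
      intro h
      exact h2 _ (h.2 (h1 _ (by have := j.2; omega)))
    have h4 : ∃ e ∈ T, ¬ (((f ^ (j : ℕ))⁻¹) • p ∈ e ↔ (f ^ (n - (j : ℕ))) • p ∈ e) := by
      by_contra hcon
      push Not at hcon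
      exact h3 (hT3 _ _ fun e he => by have := hcon e he; tauto)
    obtain ⟨e, he, he2⟩ := h4
    refine ⟨⟨e, hT2 he⟩, he, ?_⟩
    intro h5
    apply he2
    have m1 : ∀ z : V, z ∈ ((f ^ (j : ℕ)) • (⟨e, hT2 he⟩ : WP X N)).1 ↔
        ((f ^ (j : ℕ))⁻¹) • z ∈ e := by
      intro z
      constructor
      · rintro ⟨y, hy, rfl⟩
        simp only [inv_smul_smul]
        exact hy
      · intro h
        exact ⟨_, h, smul_inv_smul _ _⟩
    rw [m1, m1] at h5
    rw [h5, ← mul_smul]
    have h6 : (f ^ (j : ℕ))⁻¹ * f ^ n = f ^ (n - (j : ℕ)) := by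
      rw [inv_mul_eq_iff_eq_mul, ← pow_add]
      congr 1
      have := j.2
      omega
    rw [h6]
  let n := T.ncard * (4 * (D p).ncard) + 1
  choose E hE1 hE2 using hw n
  have hinj2 : Function.Injective (fun j : Fin n => ((⟨(E j).1, hE1 j⟩ : T),
      (⟨(f ^ (j : ℕ)) • E j, hE2 j⟩ : Sg n))) := by
    intro i j hij
    simp only [Prod.mk.injEq, Subtype.mk.injEq] at hij
    obtain ⟨h3, h4⟩ := hij
    have h5 : E i = E j := Subtype.ext h3
    rw [h5] at h4
    have h6 : (f ^ ((i : ℕ) - (j : ℕ) : ℤ)) • E j = E j := by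
      have h7 : f ^ ((i : ℕ) - (j : ℕ) : ℤ) = (f ^ (j : ℕ))⁻¹ * f ^ (i : ℕ) := by
        rw [← zpow_natCast, ← zpow_natCast, ← zpow_neg, ← zpow_add]
        congr 1
        ring
      rw [h7, mul_smul, h4, inv_smul_smul]
    have h7 := hf _ _ h6
    apply Fin.ext
    omega
  have hTf : Finite T := hT1.to_subtype
  have hSf : Finite (Sg n) := (hSgf n).to_subtype
  have h3 := Nat.card_le_card_of_injective _ hinj2
  rw [Nat.card_prod, Nat.card_coe_set_eq, Nat.card_coe_set_eq, Nat.card_eq_fintype_card,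
    Fintype.card_fin] at h3
  have h4 : T.ncard * (Sg n).ncard ≤ T.ncard * (4 * (D p).ncard) :=
    Nat.mul_le_mul_left _ (hSgc n)
  omega

/-- a wall stabilised by an element with infinite orbits on points -/
theorem wall_stab (hX : X.Connected)
    (hact : ∀ (g : L) a b, X.Adj (g • a) (g • b) ↔ X.Adj a b) (f : L) (e : WP X N)
    (he : (wpAct N hact).toSMul.smul f e = e) : ∃ (x y : V) (k : ℕ), 0 < k ∧ X.Adj x y ∧
      (f ^ k) • x = x ∧ (f ^ k) • y = y := by
  let _ := wpAct N hact
  obtain ⟨⟨x, y⟩, hxy⟩ := EE_bd_nonempty hX e.2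
  have hfin := EE_bd_finite e.2
  have hmem : ∀ n : ℕ, ((f ^ n) • x, (f ^ n) • y) ∈ bd X e.1 := by
    intro n
    have hen : (f ^ n) • e = e := by
      induction n with
      | zero => rw [pow_zero, one_smul]
      | succ n ih =>
        have he' : f • e = e := he
        rw [pow_succ, mul_smul, he', ih]
    have m1 : ∀ z : V, (f ^ n) • z ∈ e.1 ↔ z ∈ e.1 := by
      intro z
      have h1 := congrArg Subtype.val hen
      constructor
      · intro h
        rw [← h1] at h
        obtain ⟨y, hy, hy2⟩ := h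
        rwa [← MulAction.injective _ hy2]
      · intro h
        rw [← h1]
        exact ⟨z, h, rfl⟩
    refine ⟨(hact _ _ _).2 hxy.1, (m1 x).2 hxy.2.1, fun h => hxy.2.2 ((m1 y).1 h)⟩
  have : ∃ i j : ℕ, i < j ∧ ((f ^ i) • x, (f ^ i) • y) = ((f ^ j) • x, (f ^ j) • y) := by
    by_contra hcon
    push Not at hcon
    have hinj : Function.Injective (fun n : ℕ => (⟨((f ^ n) • x, (f ^ n) • y), hmem n⟩ :
        bd X e.1)) := by
      intro i j hij
      simp only [Subtype.mk.injEq] at hij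
      rcases lt_trichotomy i j with h | h | h
      · exact absurd hij (hcon i j h)
      · exact h
      · exact absurd hij.symm (hcon j i h)
    have : Finite (bd X e.1) := hfin.to_subtype
    have hfn : Finite ℕ := Finite.of_injective _ hinj
    exact not_finite ℕ
  obtain ⟨i, j, hij, h⟩ := this
  rw [Prod.mk.injEq] at h
  have h7 : f ^ (j - i) = (f ^ i)⁻¹ * f ^ j := by
    rw [eq_inv_mul_iff_mul_eq, ← pow_add]
    congr 1
    omega
  refine ⟨x, y, j - i, by omega, hxy.1, ?_, ?_⟩
  · rw [h7, mul_smul, ← h.1, inv_smul_smul]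
  · rw [h7, mul_smul, ← h.2, inv_smul_smul]

end act

end Pool.Agent.Zk56.LR
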